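import Pool.Agent.R307.Mx

set_option autoImplicit false

/-! Maxima of derivatives of zeta on vertical lines in the critical strip. -/

namespace Pool.Agent.R307

open Complex Set Filter Topology

/-- `max_{T ≤ t ≤ 2T} |ζ^{(j)}(σ+it)|` -/
noncomputable def MM (j : ℕ) (σ T : ℝ) : ℝ :=
  sSup ((fun t : ℝ => ‖zd j ⟨σ, t⟩‖) '' Icc T (2 * T))

lemma vert_cont (j : ℕ) (σ : ℝ) {t : ℝ} (ht : t ≠ 0) :
    ContinuousAt (fun t : ℝ => zd j ⟨σ, t⟩) t := by
  have h1 : ContinuousAt (zd j) ⟨σ, t⟩ := zd_continuousAt j (ne_one_of_im (s := ⟨σ, t⟩) ht)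
  have h2 : Continuous (fun t : ℝ => (⟨σ, t⟩ : ℂ)) := by
    have : (fun t : ℝ => (⟨σ, t⟩ : ℂ)) = fun t : ℝ => (σ : ℂ) + t * I := by
      funext t
      apply Complex.ext <;> simp
    rw [this]
    fun_prop
  exact ContinuousAt.comp (f := fun t : ℝ => (⟨σ, t⟩ : ℂ)) h1 h2.continuousAt

lemma le_MM (j : ℕ) (σ : ℝ) {T t : ℝ} (hT : 0 < T) (h1 : T ≤ t) (h2 : t ≤ 2 * T) :
    ‖zd j ⟨σ, t⟩‖ ≤ MM j σ T := by
  unfold MM
  refine le_csSup ?_ ⟨t, ⟨h1, h2⟩, rfl⟩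
  have hc : ContinuousOn (fun t : ℝ => ‖zd j ⟨σ, t⟩‖) (Icc T (2 * T)) := by
    intro u hu
    exact (vert_cont j σ (by linarith [hu.1] : (0:ℝ) < u).ne').norm.continuousWithinAt
  exact (isCompact_Icc.image_of_continuousOn hc).bddAbove

lemma MM_le (j : ℕ) (σ : ℝ) {T B : ℝ} (hT : 0 < T)
    (h : ∀ t : ℝ, T ≤ t → t ≤ 2 * T → ‖zd j ⟨σ, t⟩‖ ≤ B) : MM j σ T ≤ B := by
  unfold MM
  refine csSup_le ⟨_, T, ⟨le_rfl, by linarith⟩, rfl⟩ ?_
  rintro _ ⟨t, ⟨h1, h2⟩, rfl⟩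
  exact h t h1 h2

lemma MM_nonneg (j : ℕ) (σ : ℝ) {T : ℝ} (hT : 0 < T) : 0 ≤ MM j σ T :=
  (norm_nonneg _).trans (le_MM j σ hT le_rfl (by linarith))

/-- the maxima do not tend to zero -/
theorem MM_lower (j : ℕ) {σ : ℝ} (hσ : 0 < σ) : ∃ c T₀ : ℝ, 0 < c ∧ ∀ T : ℝ, T₀ ≤ T →
    c ≤ MM j σ T := by
  -- the normalised function and its limit
  obtain ⟨E, hE⟩ : ∃ E : ℂ → ℂ, E = fun s => if j = 0 then 1 else (2 : ℂ) ^ s := ⟨_, rfl⟩
  obtain ⟨b, hb⟩ : ∃ b : ℂ, b = if j = 0 then 1 else (-(Real.log 2 : ℂ)) ^ j := ⟨_, rfl⟩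
  have hlog2 : (0:ℝ) < Real.log 2 := Real.log_pos (by norm_num)
  have hb0 : 0 < ‖b‖ := by
    rw [hb]
    split_ifs
    · simp
    · rw [norm_pow, norm_neg, Complex.norm_real, Real.norm_of_nonneg hlog2.le]
      positivity
  have hEd : Differentiable ℂ E := by
    rw [hE]
    split_ifs
    · exact differentiable_const _
    · exact fun z => (differentiableAt_id).const_cpow (Or.inl two_ne_zero)
  have hEn : ∀ s : ℂ, 0 ≤ s.re → ‖E s‖ ≤ 2 ^ s.re := by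
    intro s hs
    rw [hE]
    simp only
    split_ifs
    · rw [norm_one]
      exact Real.one_le_rpow (by norm_num) hs
    · have : ((2:ℝ) : ℂ) = 2 := by norm_num
      rw [← this, Complex.norm_cpow_eq_rpow_re_of_pos (by norm_num)]
  obtain ⟨x₀, hx₀3, hx₀⟩ : ∃ x₀ : ℝ, 3 ≤ x₀ ∧ ∀ s : ℂ, x₀ ≤ s.re → ‖zd j s * E s - b‖ ≤ ‖b‖ / 2 := by
    obtain ⟨C, hC, h⟩ := zd_far j
    have ht : Tendsto (fun x : ℝ => (1 / 2 : ℝ) ^ x + C * (2 / 3 : ℝ) ^ x) atTop (𝓝 0) := by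
      have h1 : Tendsto (fun x : ℝ => (1 / 2 : ℝ) ^ x) atTop (𝓝 0) :=
        tendsto_rpow_atTop_of_base_lt_one _ (by norm_num) (by norm_num)
      have h2 : Tendsto (fun x : ℝ => (2 / 3 : ℝ) ^ x) atTop (𝓝 0) :=
        tendsto_rpow_atTop_of_base_lt_one _ (by norm_num) (by norm_num)
      simpa using h1.add (h2.const_mul C)
    obtain ⟨y, hy⟩ := eventually_atTop.1 (ht.eventually (gt_mem_nhds (half_pos hb0)))
    refine ⟨max 3 y, le_max_left _ _, fun s hs => ?_⟩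
    have hs3 : 3 ≤ s.re := (le_max_left _ _).trans hs
    have h3 := h s hs3
    have h4 := (hy s.re ((le_max_right _ _).trans hs)).le
    refine le_trans ?_ h4
    have e23 : (2 / 3 : ℝ) ^ s.re = 2 ^ s.re * 3 ^ (-s.re) := by
      rw [Real.div_rpow (by norm_num) (by norm_num), Real.rpow_neg (by norm_num), div_eq_mul_inv]
    have h3s : (0:ℝ) < 3 ^ (-s.re) := Real.rpow_pos_of_pos (by norm_num) _
    have h2s : (1:ℝ) ≤ 2 ^ s.re := Real.one_le_rpow (by norm_num) (by linarith)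
    have h12 : (0:ℝ) < (1 / 2 : ℝ) ^ s.re := Real.rpow_pos_of_pos (by norm_num) _
    rw [hE, hb]
    by_cases hj : j = 0
    · subst hj
      simp only [if_true, pow_zero, one_mul, mul_one] at h3 ⊢
      have h5 : ‖(2:ℂ) ^ (-s)‖ = (1 / 2 : ℝ) ^ s.re := by
        have : ((2:ℝ) : ℂ) = 2 := by norm_num
        rw [← this, Complex.norm_cpow_eq_rpow_re_of_pos (by norm_num), Complex.neg_re,
          Real.rpow_neg (by norm_num), one_div, Real.inv_rpow (by norm_num)]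
      calc ‖zd 0 s - 1‖ = ‖(2:ℂ) ^ (-s) + (zd 0 s - 1 - (2:ℂ) ^ (-s))‖ := by congr 1; ring
        _ ≤ ‖(2:ℂ) ^ (-s)‖ + ‖zd 0 s - 1 - (2:ℂ) ^ (-s)‖ := norm_add_le _ _
        _ ≤ (1 / 2 : ℝ) ^ s.re + C * 3 ^ (-s.re) := by rw [h5]; gcongr
        _ ≤ (1 / 2 : ℝ) ^ s.re + C * (2 / 3 : ℝ) ^ s.re := by
            rw [e23]
            have : (3:ℝ) ^ (-s.re) ≤ 2 ^ s.re * 3 ^ (-s.re) := le_mul_of_one_le_left h3s.le h2s
            gcongr
    · simp only [if_neg hj, sub_zero] at h3 ⊢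
      have e : zd j s * (2:ℂ) ^ s - (-(Real.log 2 : ℂ)) ^ j =
          (zd j s - (-(Real.log 2 : ℂ)) ^ j * (2 : ℂ) ^ (-s)) * (2:ℂ) ^ s := by
        have h6 : (2 : ℂ) ^ (-s) * (2:ℂ) ^ s = 1 := by
          rw [← Complex.cpow_add _ _ two_ne_zero]; simp
        linear_combination ((-(Real.log 2 : ℂ)) ^ j) * h6
      have h5 : ‖(2:ℂ) ^ s‖ = (2 : ℝ) ^ s.re := by
        have : ((2:ℝ) : ℂ) = 2 := by norm_num
        rw [← this, Complex.norm_cpow_eq_rpow_re_of_pos (by norm_num)]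
      rw [e, norm_mul, h5, e23]
      calc _ ≤ (C * 3 ^ (-s.re)) * 2 ^ s.re := by gcongr
        _ ≤ _ := by nlinarith
  obtain ⟨X, hX⟩ : ∃ X : ℝ, X = x₀ + 3 := ⟨_, rfl⟩
  have hX0 : 0 < X := by linarith
  obtain ⟨C₁, hC₁, hgr⟩ := zd_growth j hσ (σ + X)
  obtain ⟨Q, hQ⟩ : ∃ Q : ℝ, Q = ‖b‖ / 4 * Real.exp (-x₀) := ⟨_, rfl⟩
  have hQ0 : 0 < Q := by rw [hQ]; positivity
  have hEX : ∀ s : ℂ, σ ≤ s.re → s.re ≤ σ + X → ‖E s‖ ≤ 2 ^ (σ + X) := fun s h1 h2 =>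
    (hEn s (by linarith)).trans (Real.rpow_le_rpow_of_exponent_le (by norm_num) h2)
  -- decay
  have hdec : ∀ᶠ T : ℝ in atTop, C₁ * (2 * T) * 2 ^ (σ + X) *
      Real.exp (1 / X ^ 2 * (X ^ 2 - (T / 2) ^ 2) + |(-1 : ℝ)| * X) ≤ Q := by
    have h1 : Tendsto (fun T : ℝ => T * Real.exp (-T)) atTop (𝓝 0) := by
      simpa using Real.tendsto_pow_mul_exp_neg_atTop_nhds_zero 1
    have h2 : Tendsto (fun T : ℝ => C₁ * 2 * 2 ^ (σ + X) * Real.exp (1 + X) * (T * Real.exp (-T)))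
        atTop (𝓝 0) := by
      simpa using h1.const_mul (C₁ * 2 * 2 ^ (σ + X) * Real.exp (1 + X))
    filter_upwards [h2.eventually (gt_mem_nhds hQ0), eventually_ge_atTop (4 * X ^ 2),
      eventually_ge_atTop (0:ℝ)] with T h3 h4 h5
    refine le_trans ?_ h3.le
    have h6 : Real.exp (1 / X ^ 2 * (X ^ 2 - (T / 2) ^ 2) + |(-1 : ℝ)| * X) ≤
        Real.exp (1 + X) * Real.exp (-T) := by
      rw [← Real.exp_add, Real.exp_le_exp, abs_neg, abs_one, one_mul, mul_sub,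
        one_div_mul_cancel (by positivity)]
      have h7 : T ≤ 1 / X ^ 2 * (T / 2) ^ 2 := by
        rw [one_div, ← div_eq_inv_mul, le_div_iff₀ (by positivity)]
        nlinarith
      linarith
    have h8 : 0 ≤ C₁ * (2 * T) * 2 ^ (σ + X) := by positivity
    calc _ ≤ C₁ * (2 * T) * 2 ^ (σ + X) * (Real.exp (1 + X) * Real.exp (-T)) :=
          mul_le_mul_of_nonneg_left h6 h8
      _ = _ := by ring
  obtain ⟨T₁, hT₁⟩ := eventually_atTop.1 hdec
  have h2σ : (0:ℝ) < 2 ^ (σ:ℝ) := Real.rpow_pos_of_pos (by norm_num) _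
  refine ⟨Q / 2 ^ (σ:ℝ), max T₁ 4, by positivity, fun T hT => ?_⟩
  by_contra hcon
  push Not at hcon
  have hT4 : 4 ≤ T := (le_max_right _ _).trans hT
  have hT0 : 0 < T := by linarith
  have him : ∀ t : ℝ, |t - 3 * T / 2| ≤ T / 2 → T ≤ t ∧ t ≤ 2 * T := by
    intro t ht
    rw [abs_le] at ht
    constructor <;> linarith [ht.1, ht.2]
  have hkey := gauss_max (g := fun s => zd j s * E s) (σ := σ) (X := X) (η := T / 2)
    (t₁ := 3 * T / 2) (κ := -1) (δ := 1 / X ^ 2) (L := Q) (R := 3 / 2 * ‖b‖)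
    (P := C₁ * (2 * T) * 2 ^ (σ + X)) (Q := Q) hX0 (by positivity) (by positivity)
    ?_ ?_ ?_ ?_ le_rfl ?_ (hT₁ T ((le_max_left _ _).trans hT)) (x := x₀) (by linarith)
    (by linarith)
  · -- contradiction
    have h1 := hx₀ ⟨σ + x₀, 3 * T / 2⟩ (by simp only; linarith)
    have h2 : ‖b‖ / 2 ≤ ‖zd j ⟨σ + x₀, 3 * T / 2⟩ * E ⟨σ + x₀, 3 * T / 2⟩‖ := by
      have h3 := norm_sub_norm_le b (zd j ⟨σ + x₀, 3 * T / 2⟩ * E ⟨σ + x₀, 3 * T / 2⟩)
      rw [norm_sub_rev] at h3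
      linarith
    have h3 : Real.exp (-x₀) ≤ Real.exp (1 / X ^ 2 * x₀ ^ 2 + -1 * x₀) := by
      rw [Real.exp_le_exp]
      have : 0 ≤ 1 / X ^ 2 * x₀ ^ 2 := by positivity
      linarith
    have h4 : ‖b‖ / 2 * Real.exp (-x₀) ≤ Q :=
      (mul_le_mul h2 h3 (Real.exp_pos _).le (norm_nonneg _)).trans hkey
    rw [hQ] at h4
    have h5 := Real.exp_pos (-x₀)
    nlinarith [mul_pos hb0 h5]
  · intro s h1 h2 h3
    have h4 := him s.im h3
    exact ((zd_analytic j (ne_one_of_im (by linarith [h4.1] : (0:ℝ) < s.im).ne')).differentiableAt).mul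
      (hEd s)
  · intro t ht
    obtain ⟨h1, h2⟩ := him t ht
    rw [norm_mul]
    have h3 : ‖zd j ⟨σ, t⟩‖ ≤ Q / 2 ^ (σ:ℝ) := (le_MM j σ hT0 h1 h2).trans hcon.le
    have h4 : ‖E ⟨σ, t⟩‖ ≤ 2 ^ (σ:ℝ) := hEn _ hσ.le
    calc _ ≤ Q / 2 ^ (σ:ℝ) * 2 ^ (σ:ℝ) := mul_le_mul h3 h4 (norm_nonneg _) (by positivity)
      _ = Q := div_mul_cancel₀ _ h2σ.ne'
  · intro t ht
    have h1 := hx₀ ⟨σ + X, t⟩ (by simp only; linarith)
    have h2 := norm_sub_norm_le (zd j ⟨σ + X, t⟩ * E ⟨σ + X, t⟩) b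
    linarith
  · intro s h1 h2 h3
    obtain ⟨h4, h5⟩ := him s.im h3
    have h6 := hgr s h1 h2 (by rw [abs_of_nonneg (by linarith)]; linarith)
    rw [abs_of_nonneg (by linarith)] at h6
    rw [norm_mul]
    refine mul_le_mul (h6.trans ?_) (hEX s h1 h2) (norm_nonneg _) (by positivity)
    exact mul_le_mul_of_nonneg_left h5 hC₁.le
  · have e1 : 1 / X ^ 2 * X ^ 2 + -1 * X = -2 + (-x₀) := by
      rw [one_div_mul_cancel (by positivity), hX]; ring
    rw [e1, Real.exp_add, hQ]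
    have h1 : Real.exp (-2) ≤ 1 / 6 := by
      rw [Real.exp_neg, ← one_div]
      apply one_div_le_one_div_of_le (by norm_num)
      have h2 : Real.exp 2 = Real.exp 1 * Real.exp 1 := by rw [← Real.exp_add]; norm_num
      have h3 := Real.exp_one_gt_d9
      nlinarith
    have h5 := Real.exp_pos (-x₀)
    have h6 : 0 < ‖b‖ * Real.exp (-x₀) := mul_pos hb0 h5
    calc 3 / 2 * ‖b‖ * (Real.exp (-2) * Real.exp (-x₀)) = 3 / 2 * (‖b‖ * Real.exp (-x₀)) * Real.exp (-2) := by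
          ring
      _ ≤ 3 / 2 * (‖b‖ * Real.exp (-x₀)) * (1 / 6) := mul_le_mul_of_nonneg_left h1 (by positivity)
      _ = ‖b‖ / 4 * Real.exp (-x₀) := by ring

lemma vert_deriv (j : ℕ) (σ : ℝ) {t : ℝ} (ht : t ≠ 0) :
    HasDerivAt (fun t : ℝ => zd j ⟨σ, t⟩) (I * zd (j + 1) ⟨σ, t⟩) t := by
  have h1 : HasDerivAt (zd j) (zd (j + 1) ⟨σ, t⟩) ⟨σ, t⟩ :=
    zd_hasDerivAt j (ne_one_of_im (s := ⟨σ, t⟩) ht)
  have h2 : HasDerivAt (fun t : ℝ => (⟨σ, t⟩ : ℂ)) I t := by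
    have : (fun t : ℝ => (⟨σ, t⟩ : ℂ)) = fun t : ℝ => (σ : ℂ) + t * I := by
      funext t
      apply Complex.ext <;> simp
    rw [this]
    have h3 : HasDerivAt (fun t : ℝ => (t : ℂ)) 1 t := Complex.ofRealCLM.hasDerivAt
    simpa using (h3.mul_const I).const_add (σ : ℂ)
  have h4 := HasDerivAt.scomp (g₁ := zd j) (h := fun t : ℝ => (⟨σ, t⟩ : ℂ)) t h1 h2
  rw [smul_eq_mul] at h4
  exact h4

lemma horiz_deriv (j : ℕ) (t : ℝ) (ht : t ≠ 0) (x : ℝ) :
    HasDerivAt (fun x : ℝ => zd j ⟨x, t⟩) (zd (j + 1) ⟨x, t⟩) x := by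
  have h1 : HasDerivAt (zd j) (zd (j + 1) ⟨x, t⟩) ⟨x, t⟩ :=
    zd_hasDerivAt j (ne_one_of_im (s := ⟨x, t⟩) ht)
  have h2 : HasDerivAt (fun x : ℝ => (⟨x, t⟩ : ℂ)) 1 x := by
    have : (fun x : ℝ => (⟨x, t⟩ : ℂ)) = fun x : ℝ => (x : ℂ) + t * I := by
      funext x
      apply Complex.ext <;> simp
    rw [this]
    have h3 : HasDerivAt (fun x : ℝ => (x : ℂ)) 1 x := Complex.ofRealCLM.hasDerivAt
    exact h3.add_const _
  have h4 := HasDerivAt.scomp (g₁ := zd j) (h := fun x : ℝ => (⟨x, t⟩ : ℂ)) x h1 h2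
  rw [smul_eq_mul, one_mul] at h4
  exact h4

lemma vert_step (j : ℕ) (σ : ℝ) {a b B : ℝ} (hab : a ≤ b) (ha : 0 < a)
    (h : ∀ t, a ≤ t → t ≤ b → ‖zd (j + 1) ⟨σ, t⟩‖ ≤ B) :
    ‖zd j ⟨σ, b⟩ - zd j ⟨σ, a⟩‖ ≤ B * (b - a) := by
  refine norm_image_sub_le_of_norm_deriv_le_segment' (f := fun t : ℝ => zd j ⟨σ, t⟩)
    (f' := fun t => I * zd (j + 1) ⟨σ, t⟩) (C := B) (a := a) (b := b) ?_ ?_ b ⟨hab, le_rfl⟩
  · intro t ht
    exact (vert_deriv j σ (by linarith [ht.1] : (0:ℝ) < t).ne').hasDerivWithinAt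
  · intro t ht
    rw [norm_mul, norm_I, one_mul]
    exact h t ht.1 ht.2.le

lemma horiz_step (j : ℕ) {t a b B : ℝ} (ht : t ≠ 0) (hab : a ≤ b)
    (h : ∀ x, a ≤ x → x ≤ b → ‖zd (j + 1) ⟨x, t⟩‖ ≤ B) :
    ‖zd j ⟨b, t⟩ - zd j ⟨a, t⟩‖ ≤ B * (b - a) := by
  refine norm_image_sub_le_of_norm_deriv_le_segment' (f := fun x : ℝ => zd j ⟨x, t⟩)
    (f' := fun x => zd (j + 1) ⟨x, t⟩) (C := B) (a := a) (b := b) ?_ ?_ b ⟨hab, le_rfl⟩
  · intro x hx
    exact (horiz_deriv j t ht x).hasDerivWithinAt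
  · intro x hx
    exact h x hx.1 hx.2.le

/-- the derivatives are bounded on `Re s = σ + 3` -/
lemma far_bound (j : ℕ) : ∃ D : ℝ, 0 < D ∧ ∀ s : ℂ, 3 ≤ s.re → ‖zd j s‖ ≤ D := by
  obtain ⟨C, hC, h⟩ := zd_far j
  refine ⟨1 + ‖(-(Real.log 2 : ℂ)) ^ j‖ + C, by positivity, fun s hs => ?_⟩
  have h1 := h s hs
  have h2 : ‖(2 : ℂ) ^ (-s)‖ ≤ 1 := by
    have : ((2:ℝ) : ℂ) = 2 := by norm_num
    rw [← this, Complex.norm_cpow_eq_rpow_re_of_pos (by norm_num), Complex.neg_re]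
    exact Real.rpow_le_one_of_one_le_of_nonpos (by norm_num) (by linarith)
  have h3 : (3:ℝ) ^ (-s.re) ≤ 1 := Real.rpow_le_one_of_one_le_of_nonpos (by norm_num) (by linarith)
  have h4 : ‖(if j = 0 then (1:ℂ) else 0)‖ ≤ 1 := by split_ifs <;> simp
  have e : zd j s = (zd j s - (if j = 0 then 1 else 0) - (-(Real.log 2 : ℂ)) ^ j * (2 : ℂ) ^ (-s)) +
      (if j = 0 then 1 else 0) + (-(Real.log 2 : ℂ)) ^ j * (2 : ℂ) ^ (-s) := by ring
  rw [e]
  calc _ ≤ ‖zd j s - (if j = 0 then 1 else 0) - (-(Real.log 2 : ℂ)) ^ j * (2 : ℂ) ^ (-s)‖ +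
      ‖(if j = 0 then (1:ℂ) else 0)‖ + ‖(-(Real.log 2 : ℂ)) ^ j * (2 : ℂ) ^ (-s)‖ := norm_add₃_le
    _ ≤ C * 1 + 1 + ‖(-(Real.log 2 : ℂ)) ^ j‖ * 1 := by
        rw [norm_mul]
        gcongr
        exact h1.trans (by gcongr)
    _ = _ := by ring

/-- bound for the derivatives to the right of the interior of the segment -/
theorem interior_bound (l : ℕ) {σ : ℝ} (hσ : 0 < σ) (k : ℕ) (hk : k ≤ l) : ∃ B T₀ : ℝ, 0 < B ∧
    ∀ T : ℝ, T₀ ≤ T → ∀ t : ℝ, T + 2 * √(Real.log T) ≤ t → t ≤ 2 * T - 2 * √(Real.log T) →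
      ∀ x : ℝ, 0 ≤ x → x ≤ 3 → ‖zd (l - k) ⟨σ + x, t⟩‖ ≤ B * max (MM l σ T) 1 := by
  induction k with
  | zero =>
    obtain ⟨C, hC, hgr⟩ := zd_growth l hσ (σ + 3)
    obtain ⟨D, hD, hfar⟩ := far_bound l
    refine ⟨max 1 (D * Real.exp 9), max 4 (2 * C * Real.exp 9), by positivity, ?_⟩
    intro T hT t ht1 ht2 x hx1 hx2
    have hT4 : 4 ≤ T := (le_max_left _ _).trans hT
    have hTC : 2 * C * Real.exp 9 ≤ T := (le_max_right _ _).trans hT
    have hT0 : 0 < T := by linarith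
    have hlog : 0 < Real.log T := Real.log_pos (by linarith)
    have hη : 0 < 2 * √(Real.log T) := by positivity
    have hm1 : 1 ≤ max (MM l σ T) 1 := le_max_right _ _
    have hB1 : 1 ≤ max 1 (D * Real.exp 9) := le_max_left _ _
    have him : ∀ u : ℝ, |u - t| ≤ 2 * √(Real.log T) → T ≤ u ∧ u ≤ 2 * T := by
      intro u hu
      rw [abs_le] at hu
      constructor <;> linarith [hu.1, hu.2]
    have key := gauss_max (g := zd l) (σ := σ) (X := 3) (η := 2 * √(Real.log T)) (t₁ := t) (κ := 0)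
      (δ := 1) (L := MM l σ T) (R := D) (P := C * (2 * T))
      (Q := max 1 (D * Real.exp 9) * max (MM l σ T) 1) (by norm_num) hη zero_le_one
      ?_ ?_ ?_ ?_ ?_ ?_ ?_ hx1 hx2
    · rw [Nat.sub_zero]
      refine le_trans ?_ key
      refine le_mul_of_one_le_right (norm_nonneg _) ?_
      rw [Real.one_le_exp_iff]
      nlinarith [sq_nonneg x]
    · intro s h1 h2 h3
      exact (zd_analytic l (ne_one_of_im (by linarith [(him s.im h3).1] : (0:ℝ) < s.im).ne')).differentiableAt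
    · intro u hu
      exact le_MM l σ hT0 (him u hu).1 (him u hu).2
    · intro u _
      exact hfar _ (by simp only; linarith)
    · intro s h1 h2 h3
      obtain ⟨h4, h5⟩ := him s.im h3
      have h6 := hgr s h1 h2 (by rw [abs_of_nonneg (by linarith)]; linarith)
      rw [abs_of_nonneg (by linarith)] at h6
      exact h6.trans (mul_le_mul_of_nonneg_left h5 hC.le)
    · calc MM l σ T ≤ max (MM l σ T) 1 := le_max_left _ _
        _ ≤ _ := le_mul_of_one_le_left (by positivity) hB1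
    · have e : (1:ℝ) * 3 ^ 2 + 0 * 3 = 9 := by norm_num
      rw [e]
      calc D * Real.exp 9 ≤ max 1 (D * Real.exp 9) := le_max_right _ _
        _ ≤ _ := le_mul_of_one_le_right (by positivity) hm1
    · have e : (1:ℝ) * (3 ^ 2 - (2 * √(Real.log T)) ^ 2) + |(0:ℝ)| * 3 = 9 - 4 * Real.log T := by
        rw [mul_pow, Real.sq_sqrt hlog.le, abs_zero]; ring
      rw [e]
      have h1 : Real.exp (9 - 4 * Real.log T) ≤ Real.exp 9 / T ^ 2 := by
        rw [Real.exp_sub, div_le_div_iff_of_pos_left (Real.exp_pos _) (Real.exp_pos _) (by positivity)]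
        have h2 : Real.exp (4 * Real.log T) = T ^ 4 := by
          rw [show 4 * Real.log T = ((4:ℕ) : ℝ) * Real.log T by norm_num, Real.exp_nat_mul,
            Real.exp_log hT0]
        rw [h2]
        exact pow_le_pow_right₀ (by linarith) (by norm_num)
      calc C * (2 * T) * Real.exp (9 - 4 * Real.log T) ≤ C * (2 * T) * (Real.exp 9 / T ^ 2) :=
            mul_le_mul_of_nonneg_left h1 (by positivity)
        _ = (2 * C * Real.exp 9) / T := by field_simp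
        _ ≤ 1 := by rw [div_le_one hT0]; exact hTC
        _ ≤ _ := one_le_mul_of_one_le_of_one_le hB1 hm1
  | succ k ih =>
    obtain ⟨B, T₀, hB, h⟩ := ih (by omega)
    obtain ⟨D, hD, hfar⟩ := far_bound (l - (k + 1))
    refine ⟨D + B * 3, max T₀ 4, by positivity, ?_⟩
    intro T hT t ht1 ht2 x hx1 hx2
    have hT4 : 4 ≤ T := (le_max_right _ _).trans hT
    have hlog : 0 < Real.log T := Real.log_pos (by linarith)
    have hη : 0 < 2 * √(Real.log T) := by positivity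
    have ht0 : 0 < t := by linarith
    have hm1 : 1 ≤ max (MM l σ T) 1 := le_max_right _ _
    have hj : l - (k + 1) + 1 = l - k := by omega
    have h1 := horiz_step (l - (k + 1)) (t := t) (a := σ + x) (b := σ + 3)
      (B := B * max (MM l σ T) 1) ht0.ne' (by linarith) (by
        intro y hy1 hy2
        rw [hj]
        have := h T ((le_max_left _ _).trans hT) t ht1 ht2 (y - σ) (by linarith) (by linarith)
        rwa [add_sub_cancel] at this)
    have h2 := hfar ⟨σ + 3, t⟩ (by simp only; linarith)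
    have h3 := norm_sub_norm_le (zd (l - (k + 1)) ⟨σ + x, t⟩) (zd (l - (k + 1)) ⟨σ + 3, t⟩)
    rw [norm_sub_rev] at h3
    have h4 : B * max (MM l σ T) 1 * (σ + 3 - (σ + x)) ≤ B * max (MM l σ T) 1 * 3 :=
      mul_le_mul_of_nonneg_left (by linarith) (by positivity)
    have h5 : D ≤ D * max (MM l σ T) 1 := le_mul_of_one_le_right hD.le hm1
    calc ‖zd (l - (k + 1)) ⟨σ + x, t⟩‖ ≤ D * max (MM l σ T) 1 + B * max (MM l σ T) 1 * 3 := by
          linarith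
      _ = _ := by ring

/-- bound for the derivatives on the whole segment -/
theorem edge_bound (l : ℕ) {σ : ℝ} (hσ : 0 < σ) (k : ℕ) (hk : k ≤ l) : ∃ B T₀ : ℝ, 0 < B ∧
    ∀ T : ℝ, T₀ ≤ T → ∀ t : ℝ, T ≤ t → t ≤ 2 * T →
      ‖zd (l - k) ⟨σ, t⟩‖ ≤ B * (2 * √(Real.log T)) ^ k * max (MM l σ T) 1 := by
  induction k with
  | zero =>
    refine ⟨1, 1, one_pos, fun T hT t ht1 ht2 => ?_⟩
    rw [pow_zero, one_mul, one_mul, Nat.sub_zero]
    exact (le_MM l σ (by linarith) ht1 ht2).trans (le_max_left _ _)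
  | succ k ih =>
    obtain ⟨B, T₀, hB, h⟩ := ih (by omega)
    obtain ⟨B', T₁, hB', h'⟩ := interior_bound l hσ (k + 1) hk
    -- `T ≥ 4 √log T` and `2 √log T ≥ 1` for large `T`
    have hev : ∀ᶠ T : ℝ in atTop, 4 * √(Real.log T) ≤ T := by
      filter_upwards [eventually_ge_atTop 16] with T hT
      have h1 : Real.log T ≤ T := (Real.log_le_sub_one_of_pos (by linarith)).trans (by linarith)
      calc 4 * √(Real.log T) ≤ 4 * √T := by gcongr
        _ ≤ √T * √T := by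
            have : 4 ≤ √T := Real.le_sqrt_of_sq_le (by linarith)
            nlinarith [Real.sqrt_nonneg T]
        _ = T := Real.mul_self_sqrt (by linarith)
    obtain ⟨T₂, hT₂⟩ := eventually_atTop.1 hev
    refine ⟨B' + B, max (max T₀ T₁) (max T₂ 4), by positivity, ?_⟩
    intro T hT t ht1 ht2
    have g0 : T₀ ≤ T := ((le_max_left _ _).trans (le_max_left _ _)).trans hT
    have g1 : T₁ ≤ T := ((le_max_right _ _).trans (le_max_left _ _)).trans hT
    have g2 : T₂ ≤ T := ((le_max_left _ _).trans (le_max_right _ _)).trans hT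
    have g3 : 4 ≤ T := ((le_max_right _ _).trans (le_max_right _ _)).trans hT
    have g4 := hT₂ T g2
    obtain ⟨η, hη⟩ : ∃ η : ℝ, η = 2 * √(Real.log T) := ⟨_, rfl⟩
    have hη1 : 1 ≤ η := by
      rw [hη]
      have h1 : 1 ≤ Real.log T := by
        rw [Real.le_log_iff_exp_le (by linarith)]
        linarith [Real.exp_one_lt_d9]
      have h2 : 1 ≤ √(Real.log T) := by rw [Real.one_le_sqrt]; exact h1
      linarith
    obtain ⟨m, hm⟩ : ∃ m : ℝ, m = max (MM l σ T) 1 := ⟨_, rfl⟩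
    have hm1 : 1 ≤ m := by rw [hm]; exact le_max_right _ _
    have hj : l - (k + 1) + 1 = l - k := by omega
    have hI := h' T g1
    have hE := h T g0
    rw [← hη, ← hm] at hI hE ⊢
    have g5 : 2 * η ≤ T := by rw [hη]; linarith
    have hder : ∀ u, T ≤ u → u ≤ 2 * T → ‖zd (l - (k + 1) + 1) ⟨σ, u⟩‖ ≤ B * η ^ k * m := by
      intro u hu1 hu2
      rw [hj]
      exact hE u hu1 hu2
    -- an interior point near `t`
    have hfin : ∀ t₁ : ℝ, T + η ≤ t₁ → t₁ ≤ 2 * T - η → |t - t₁| ≤ η →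
        ‖zd (l - (k + 1)) ⟨σ, t⟩‖ ≤ (B' + B) * η ^ (k + 1) * m := by
      intro t₁ h1 h2 h3
      have h4 := hI t₁ h1 h2 0 le_rfl (by norm_num)
      rw [add_zero] at h4
      have h5 : ‖zd (l - (k + 1)) ⟨σ, t⟩ - zd (l - (k + 1)) ⟨σ, t₁⟩‖ ≤ B * η ^ k * m * |t - t₁| := by
        rcases le_total t t₁ with h6 | h6
        · have := vert_step (l - (k + 1)) σ h6 (by linarith)
            (fun u hu1 hu2 => hder u (by linarith) (by linarith))
          rw [norm_sub_rev, abs_of_nonpos (by linarith)]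
          linarith
        · have := vert_step (l - (k + 1)) σ h6 (by linarith)
            (fun u hu1 hu2 => hder u (by linarith) (by linarith))
          rw [abs_of_nonneg (by linarith)]
          linarith
      have h6 : B * η ^ k * m * |t - t₁| ≤ B * η ^ k * m * η :=
        mul_le_mul_of_nonneg_left h3 (by positivity)
      have h7 := norm_sub_norm_le (zd (l - (k + 1)) ⟨σ, t⟩) (zd (l - (k + 1)) ⟨σ, t₁⟩)
      have h8 : (1:ℝ) ≤ η ^ (k + 1) := one_le_pow₀ hη1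
      have h9 : B' * m ≤ B' * η ^ (k + 1) * m := by
        have : B' * m * 1 ≤ B' * m * η ^ (k + 1) := mul_le_mul_of_nonneg_left h8 (by positivity)
        linarith
      calc ‖zd (l - (k + 1)) ⟨σ, t⟩‖ ≤ B' * η ^ (k + 1) * m + B * η ^ k * m * η := by linarith
        _ = _ := by ring
    by_cases h1 : t ≤ T + η
    · exact hfin (T + η) le_rfl (by linarith) (by rw [abs_le]; constructor <;> linarith)
    · by_cases h2 : 2 * T - η ≤ t
      · exact hfin (2 * T - η) (by linarith) le_rfl (by rw [abs_le]; constructor <;> linarith)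
      · push Not at h1 h2
        exact hfin t h1.le h2.le (by simp; linarith)

/-- the lower bound of Q1 -/
theorem lower_half (l : ℕ) {σ : ℝ} (hσ : 0 < σ) : ∃ C T₀ : ℝ, 0 < C ∧ ∀ T : ℝ, T₀ ≤ T →
    MM 0 σ T ≤ C * √(Real.log T) ^ l * MM l σ T := by
  obtain ⟨B, T₀, hB, h⟩ := edge_bound l hσ l le_rfl
  obtain ⟨c, T₁, hc, h'⟩ := MM_lower l hσ
  refine ⟨B * 2 ^ l * max 1 (1 / c), max (max T₀ T₁) 1, by positivity, fun T hT => ?_⟩
  have g0 : T₀ ≤ T := ((le_max_left _ _).trans (le_max_left _ _)).trans hT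
  have g1 : T₁ ≤ T := ((le_max_right _ _).trans (le_max_left _ _)).trans hT
  have g2 : 1 ≤ T := (le_max_right _ _).trans hT
  have hM := h' T g1
  have hM0 : 0 < MM l σ T := hc.trans_le hM
  have h1 : max (MM l σ T) 1 ≤ max 1 (1 / c) * MM l σ T := by
    apply max_le
    · exact le_mul_of_one_le_left hM0.le (le_max_left _ _)
    · calc (1:ℝ) = 1 / c * c := by field_simp
        _ ≤ max 1 (1 / c) * MM l σ T := mul_le_mul (le_max_right _ _) hM hc.le (by positivity)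
  apply MM_le 0 σ (by linarith)
  intro t ht1 ht2
  have h2 := h T g0 t ht1 ht2
  rw [Nat.sub_self] at h2
  calc ‖zd 0 ⟨σ, t⟩‖ ≤ B * (2 * √(Real.log T)) ^ l * max (MM l σ T) 1 := h2
    _ ≤ B * (2 * √(Real.log T)) ^ l * (max 1 (1 / c) * MM l σ T) :=
        mul_le_mul_of_nonneg_left h1 (by positivity)
    _ = _ := by rw [mul_pow]; ring

end Pool.Agent.R307
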