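import Pool.Agent.R307.Quad2

set_option autoImplicit false

/-! Transfer of bounds from a vertical segment to the right. -/

namespace Pool.Agent.R307

open Complex Set Filter Topology

/-- The weight `1 + z² / H²`. -/
noncomputable def WH (H : ℝ) (z : ℂ) : ℂ := 1 + z ^ 2 / ((H ^ 2 : ℝ) : ℂ)

lemma WH_eq (H x y : ℝ) : WH H ⟨x, y⟩ = ⟨1 + (x ^ 2 - y ^ 2) / H ^ 2, 2 * x * y / H ^ 2⟩ := by
  unfold WH
  apply Complex.ext
  · rw [add_re, Complex.div_ofReal_re, pow_two, Complex.mul_re]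
    simp
    ring
  · rw [add_im, Complex.div_ofReal_im, pow_two, Complex.mul_im]
    simp
    ring

lemma norm_WH_le {H x y X : ℝ} (hH : 0 < H) (hx : 0 ≤ x) (hxX : x ≤ X) (hXH : X ≤ H)
    (hy : |y| ≤ H) : ‖WH H ⟨x, y⟩‖ ≤ 1 + 3 * X / H := by
  rw [WH_eq]
  have hy2 : y ^ 2 ≤ H ^ 2 := by
    rw [← sq_abs y]; gcongr
  have h1 : (⟨1 + (x ^ 2 - y ^ 2) / H ^ 2, 2 * x * y / H ^ 2⟩ : ℂ) =
      ((1 - y ^ 2 / H ^ 2 : ℝ) : ℂ) + ((x ^ 2 / H ^ 2 : ℝ) : ℂ) + ((2 * x * y / H ^ 2 : ℝ) : ℂ) * I := by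
    apply Complex.ext
    · simp only [add_re, ofReal_re, mul_re, I_re, I_im, ofReal_im]; ring
    · simp only [add_im, ofReal_re, mul_im, I_re, I_im, ofReal_im]; ring
  rw [h1]
  have a1 : ‖((1 - y ^ 2 / H ^ 2 : ℝ) : ℂ)‖ ≤ 1 := by
    rw [Complex.norm_real, Real.norm_eq_abs, abs_le]
    have : y ^ 2 / H ^ 2 ≤ 1 := by rw [div_le_one (by positivity)]; exact hy2
    have h0 : 0 ≤ y ^ 2 / H ^ 2 := by positivity
    constructor <;> linarith
  have a2 : ‖((x ^ 2 / H ^ 2 : ℝ) : ℂ)‖ ≤ X / H := by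
    rw [Complex.norm_of_nonneg (by positivity), div_le_div_iff₀ (by positivity) hH]
    nlinarith [mul_nonneg (sub_nonneg.2 hxX) (add_nonneg hx (hx.trans hxX)), hx.trans hxX,
      mul_nonneg (mul_nonneg (hx.trans hxX) hH.le) (sub_nonneg.2 hXH)]
  have a3 : ‖((2 * x * y / H ^ 2 : ℝ) : ℂ) * I‖ ≤ 2 * X / H := by
    rw [norm_mul, Complex.norm_I, mul_one, Complex.norm_real, Real.norm_eq_abs, abs_div, abs_mul,
      abs_mul, abs_of_pos (by norm_num : (0:ℝ) < 2), abs_of_nonneg hx,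
      abs_of_pos (by positivity : (0:ℝ) < H ^ 2), div_le_div_iff₀ (by positivity) hH]
    have : x * |y| ≤ X * H := by
      have := abs_nonneg y
      gcongr
      linarith
    nlinarith
  calc _ ≤ ‖((1 - y ^ 2 / H ^ 2 : ℝ) : ℂ)‖ + ‖((x ^ 2 / H ^ 2 : ℝ) : ℂ)‖ +
        ‖((2 * x * y / H ^ 2 : ℝ) : ℂ) * I‖ := norm_add₃_le
    _ ≤ 1 + X / H + 2 * X / H := by gcongr
    _ = 1 + 3 * X / H := by ring

lemma norm_WH_left {H y : ℝ} (hH : 0 < H) (hy : |y| ≤ H) : ‖WH H ⟨0, y⟩‖ ≤ 1 := by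
  have := norm_WH_le (x := 0) (X := 0) hH le_rfl le_rfl hH.le hy
  simpa using this

lemma norm_WH_edge {H x y : ℝ} (hH : 0 < H) (hx : 0 ≤ x) (hxH : x ≤ H) (hy : |y| = H) :
    ‖WH H ⟨x, y⟩‖ ≤ 3 * x / H := by
  rw [WH_eq]
  have hy2 : y ^ 2 = H ^ 2 := by rw [← sq_abs y, hy]
  have e1 : 1 + (x ^ 2 - y ^ 2) / H ^ 2 = x ^ 2 / H ^ 2 := by
    rw [hy2]; field_simp; ring
  rw [e1]
  refine (Complex.norm_le_abs_re_add_abs_im _).trans ?_
  simp only
  rw [abs_of_nonneg (by positivity : (0:ℝ) ≤ x ^ 2 / H ^ 2), abs_div, abs_mul, abs_mul,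
    abs_of_pos (by norm_num : (0:ℝ) < 2), abs_of_nonneg hx,
    abs_of_pos (by positivity : (0:ℝ) < H ^ 2), hy]
  have : x ^ 2 / H ^ 2 + 2 * x * H / H ^ 2 = (x * x + 2 * x * H) / H ^ 2 := by ring
  rw [this, div_le_div_iff₀ (by positivity) hH]
  nlinarith [mul_nonneg (mul_nonneg hx (sub_nonneg.2 hxH)) hH.le]

lemma norm_WH_ge {H x y : ℝ} {m : ℕ} (hH : 0 < H) (hy : |y| ≤ H)
    (hm : 2 * m * y ^ 2 ≤ H ^ 2) : 1 / 2 ≤ ‖WH H ⟨x, y⟩‖ ^ m := by
  have hy2 : y ^ 2 ≤ H ^ 2 := by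
    rw [← sq_abs y]; gcongr
  have h0 : 0 ≤ y ^ 2 / H ^ 2 := by positivity
  have h1 : y ^ 2 / H ^ 2 ≤ 1 := by rw [div_le_one (by positivity)]; exact hy2
  have h3 : 1 - y ^ 2 / H ^ 2 ≤ ‖WH H ⟨x, y⟩‖ := by
    rw [WH_eq]
    refine le_trans ?_ (Complex.re_le_norm _)
    simp only
    rw [sub_div]
    have : 0 ≤ x ^ 2 / H ^ 2 := by positivity
    linarith
  have h4 : m * (y ^ 2 / H ^ 2) ≤ 1 / 2 := by
    rw [mul_div_assoc', div_le_iff₀ (by positivity)]; linarith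
  calc (1 / 2 : ℝ) ≤ 1 + m * (-(y ^ 2 / H ^ 2)) := by linarith
    _ ≤ (1 + (-(y ^ 2 / H ^ 2))) ^ m := one_add_mul_le_pow (by linarith) m
    _ ≤ ‖WH H ⟨x, y⟩‖ ^ m := by
        apply pow_le_pow_left₀ (by linarith)
        linarith

/-- Transfer of a bound on the vertical line to the right. -/
theorem transfer {f : ℂ → ℂ} {M K X H : ℝ} {m : ℕ} (hm0 : 1 ≤ m) (hM : 0 ≤ M) (hK : 0 ≤ K)
    (hX : 0 < X)
    (hf : ∀ z : ℂ, 0 ≤ z.re → z.re ≤ X → |z.im| ≤ H → DifferentiableAt ℂ f z)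
    (h1 : ∀ τ, |τ| ≤ H → ‖f ⟨0, τ⟩‖ ≤ M)
    (h2 : ∀ x τ, 0 < x → x ≤ X → |τ| ≤ H → ‖f ⟨x, τ⟩‖ ≤ K / x ^ m)
    (h3 : 6 * m * X ≤ H) {x τ : ℝ} (hx : 0 ≤ x) (hxX : x ≤ X)
    (hτ : |τ| ≤ H) (hτ2 : 2 * m * τ ^ 2 ≤ H ^ 2) :
    ‖f ⟨x, τ⟩‖ ≤ 2 * max M (2 * K / X ^ m) := by
  have hm1 : (1 : ℝ) ≤ m := by exact_mod_cast hm0
  have h3' : 3 * X ≤ H := by nlinarith
  have hH : 0 < H := by linarith
  obtain ⟨B, hB⟩ : ∃ B : ℝ, B = max M (2 * K / X ^ m) := ⟨_, rfl⟩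
  have hMB : M ≤ B := by rw [hB]; exact le_max_left _ _
  have hKB : 2 * K / X ^ m ≤ B := by rw [hB]; exact le_max_right _ _
  have hB0 : 0 ≤ B := hM.trans hMB
  rw [← hB]
  have key : ‖f ⟨x, τ⟩ * WH H ⟨x, τ⟩ ^ m‖ ≤ B := by
    refine rect_max (f := fun z => f z * WH H z ^ m) (a := 0) (b := X) (c := -H) (d := H) hX
      (by linarith) ?_ ?_ ?_ ?_ ?_ ?_ hx hxX (abs_le.1 hτ).1 (abs_le.1 hτ).2
    · intro z hz
      obtain ⟨⟨z1, z2⟩, z3, z4⟩ := mem_rect.1 hz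
      have := (hf z z1 z2 (abs_le.2 ⟨z3, z4⟩)).continuousAt
      have h5 : ContinuousAt (fun z => WH H z ^ m) z := by unfold WH; fun_prop
      exact (this.mul h5).continuousWithinAt
    · intro z hz
      have := hf z hz.1.1.le hz.1.2.le (abs_le.2 ⟨hz.2.1.le, hz.2.2.le⟩)
      have h5 : DifferentiableAt ℂ (fun z => WH H z ^ m) z := by unfold WH; fun_prop
      exact (this.mul h5).differentiableWithinAt
    · intro y hy1 hy2
      have hy := abs_le.2 ⟨hy1, hy2⟩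
      rw [norm_mul, norm_pow]
      calc ‖f ⟨0, y⟩‖ * ‖WH H ⟨0, y⟩‖ ^ m ≤ M * 1 := by
            gcongr
            · exact h1 y hy
            · exact pow_le_one₀ (norm_nonneg _) (norm_WH_left hH hy)
        _ ≤ B := by rw [mul_one]; exact hMB
    · intro y hy1 hy2
      have hy := abs_le.2 ⟨hy1, hy2⟩
      rw [norm_mul, norm_pow]
      have h5 : ‖WH H ⟨X, y⟩‖ ^ m ≤ 2 := by
        calc ‖WH H ⟨X, y⟩‖ ^ m ≤ (1 + 3 * X / H) ^ m := by
              gcongr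
              exact norm_WH_le hH hX.le le_rfl (by linarith) hy
          _ ≤ (Real.exp (3 * X / H)) ^ m := by
              gcongr
              have := Real.add_one_le_exp (3 * X / H)
              linarith
          _ = Real.exp (m * (3 * X / H)) := by rw [← Real.exp_nat_mul]
          _ ≤ Real.exp (1 / 2) := by
              gcongr
              rw [mul_div_assoc', div_le_iff₀ hH]
              linarith
          _ ≤ 2 := by
              have h6 : Real.exp (1 / 2) ^ 2 ≤ 3 := by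
                rw [← Real.exp_nat_mul]
                norm_num
                exact Real.exp_one_lt_three.le
              nlinarith [Real.exp_pos (1 / 2)]
      calc ‖f ⟨X, y⟩‖ * ‖WH H ⟨X, y⟩‖ ^ m ≤ (K / X ^ m) * 2 := by
            gcongr
            exact h2 X y hX le_rfl hy
        _ = 2 * K / X ^ m := by ring
        _ ≤ B := hKB
    all_goals
      intro u hu1 hu2
      rw [norm_mul, norm_pow]
      by_cases hu : u = 0
      · subst hu
        first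
        | (have h5 : ‖WH H ⟨0, -H⟩‖ ≤ 1 := norm_WH_left hH (by rw [abs_neg, abs_of_pos hH])
           calc ‖f ⟨0, -H⟩‖ * ‖WH H ⟨0, -H⟩‖ ^ m ≤ M * 1 := by
                 gcongr
                 · exact h1 (-H) (by rw [abs_neg, abs_of_pos hH])
                 · exact pow_le_one₀ (norm_nonneg _) h5
             _ ≤ B := by rw [mul_one]; exact hMB)
        | (have h5 : ‖WH H ⟨0, H⟩‖ ≤ 1 := norm_WH_left hH (by rw [abs_of_pos hH])
           calc ‖f ⟨0, H⟩‖ * ‖WH H ⟨0, H⟩‖ ^ m ≤ M * 1 := by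
                 gcongr
                 · exact h1 H (by rw [abs_of_pos hH])
                 · exact pow_le_one₀ (norm_nonneg _) h5
             _ ≤ B := by rw [mul_one]; exact hMB)
      · have hu0 : 0 < u := lt_of_le_of_ne hu1 (Ne.symm hu)
        have h7 : (K / u ^ m) * (3 * u / H) ^ m ≤ B := by
          calc (K / u ^ m) * (3 * u / H) ^ m = K * (3 / H) ^ m := by
                rw [div_pow, div_pow, mul_pow]; field_simp
            _ ≤ K * (1 / X) ^ m := by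
                gcongr ?_ * ?_ ^ m
                rw [div_le_div_iff₀ hH hX]; linarith
            _ = K / X ^ m := by rw [one_div_pow]; ring
            _ ≤ 2 * K / X ^ m := by gcongr; linarith
            _ ≤ B := hKB
        refine le_trans ?_ h7
        first
        | exact mul_le_mul (h2 u (-H) hu0 hu2 (by rw [abs_neg, abs_of_pos hH]))
            (pow_le_pow_left₀ (norm_nonneg _) (norm_WH_edge hH hu1 (by linarith)
              (by rw [abs_neg, abs_of_pos hH])) m) (by positivity) (by positivity)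
        | exact mul_le_mul (h2 u H hu0 hu2 (by rw [abs_of_pos hH]))
            (pow_le_pow_left₀ (norm_nonneg _) (norm_WH_edge hH hu1 (by linarith)
              (by rw [abs_of_pos hH])) m) (by positivity) (by positivity)
  rw [norm_mul, norm_pow] at key
  have h8 := norm_WH_ge (x := x) hH hτ hτ2
  nlinarith [norm_nonneg (f ⟨x, τ⟩)]

end Pool.Agent.R307
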