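import Pool.Agent.R307.Res
import Pool.Agent.R307.Trans
import Pool.Agent.R307.Strip

set_option autoImplicit false

/-! Lower bounds for the maxima on the line `Re s = 1`, uniformly in the order of the derivative. -/

namespace Pool.Agent.R307

open Complex Set Filter Topology

/-- The transfer of the maximum to the right of the line. -/
theorem sup_right {k : ℕ} (hk : 1 ≤ k) {T : ℝ} (hT : 24 * ((k:ℝ) + 1) ≤ T) {x t : ℝ} (hx : 0 < x)
    (hx2 : x ≤ 2) (ht : |t - 3 * T / 2| ≤ T / (4 * (k + 1))) :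
    ‖zd k ⟨1 + x, t⟩‖ ≤ 2 * max (MM k 1 T) (3 * k.factorial * (k + 3) / 2 ^ k) := by
  have hk0 : (1:ℝ) ≤ k := by exact_mod_cast hk
  have hT0 : 0 < T := by nlinarith
  obtain ⟨t1, ht1⟩ : ∃ t1 : ℝ, t1 = 3 * T / 2 := ⟨_, rfl⟩
  obtain ⟨f, hf⟩ : ∃ f : ℂ → ℂ, f = fun z => zd k (z + ⟨1, t1⟩) := ⟨_, rfl⟩
  have hfe : ∀ x τ : ℝ, f ⟨x, τ⟩ = zd k ⟨1 + x, t1 + τ⟩ := by
    intro x τ
    rw [hf]
    simp only
    congr 1
    apply Complex.ext
    · simp; ring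
    · simp; ring
  have hr1 : T / (4 * (k + 1)) ≤ T / 8 := by
    gcongr
    linarith
  have h := transfer (f := f) (M := MM k 1 T) (K := 3 * k.factorial * (k + 3)) (X := 2)
    (H := T / 2) (m := k + 1) (by omega) (MM_nonneg k 1 hT0) (by positivity) (by norm_num)
    ?_ ?_ ?_ ?_ hx.le hx2 (τ := t - t1) ?_ ?_
  · rw [hfe] at h
    have e1 : t1 + (t - t1) = t := by ring
    rw [e1] at h
    refine h.trans (le_of_eq ?_)
    congr 2
    rw [pow_succ]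
    field_simp
  · intro z hz1 hz2 hz3
    rw [hf]
    have hne : z + ⟨1, t1⟩ ≠ 1 := by
      apply ne_one_of_im
      rw [Complex.add_im]
      simp only
      have := (abs_le.1 hz3).1
      rw [ht1]
      have : 0 < z.im + 3 * T / 2 := by linarith
      exact this.ne'
    have h1 := (zd_analytic k hne).differentiableAt
    exact DifferentiableAt.comp (g := zd k) (f := fun z : ℂ => z + ⟨1, t1⟩) z h1
      (differentiableAt_id.add_const _)
  · intro τ hτ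
    rw [hfe, add_zero]
    obtain ⟨h1, h2⟩ := abs_le.1 hτ
    exact le_MM k 1 hT0 (by rw [ht1]; linarith) (by rw [ht1]; linarith)
  · intro x τ hx hx2 _
    rw [hfe]
    exact zd_right hk hx hx2 rfl
  · push_cast
    linarith
  · rw [ht1]
    linarith
  · rw [ht1, ← sq_abs]
    have h1 : (T / (4 * (k + 1))) * (4 * (k + 1)) = T := by field_simp
    have h2 := abs_nonneg (t - 3 * T / 2)
    have h3 : |t - 3 * T / 2| * (4 * (k + 1)) ≤ T := by
      calc _ ≤ (T / (4 * (k + 1))) * (4 * (k + 1)) := by gcongr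
        _ = T := h1
    push_cast
    have h4 : |t - 3 * T / 2| ≤ T := by nlinarith
    nlinarith

/-- factorials -/
lemma fact_le {k : ℕ} (hk : 1 ≤ k) : (k.factorial : ℝ) ≤ 3 * k * (k / Real.exp 1) ^ k := by
  have hk0 : (1:ℝ) ≤ k := by exact_mod_cast hk
  have h1 : Stirling.stirlingSeq k ≤ Stirling.stirlingSeq 1 := by
    have := Stirling.stirlingSeq'_antitone (Nat.zero_le (k - 1))
    simp only [Function.comp_apply] at this
    have e : (k - 1).succ = k := by omega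
    rw [e] at this
    exact this
  rw [Stirling.stirlingSeq_one] at h1
  unfold Stirling.stirlingSeq at h1
  have hd : 0 < Real.sqrt (2 * k) * (k / Real.exp 1) ^ k := by positivity
  rw [div_le_iff₀ hd] at h1
  refine h1.trans ?_
  have h2 : Real.sqrt (2 * k) = Real.sqrt 2 * Real.sqrt k := Real.sqrt_mul (by norm_num) _
  have h3 : Real.sqrt k ≤ k := by
    rw [Real.sqrt_le_left (by positivity)]
    nlinarith
  rw [h2]
  have h4 : 0 < Real.sqrt 2 := by positivity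
  calc Real.exp 1 / Real.sqrt 2 * (Real.sqrt 2 * Real.sqrt k * (k / Real.exp 1) ^ k)
      = Real.exp 1 * Real.sqrt k * (k / Real.exp 1) ^ k := by field_simp
    _ ≤ 3 * k * (k / Real.exp 1) ^ k := by
        gcongr
        exact Real.exp_one_lt_three.le

lemma beta_gt : 1 < Real.log 2 / Real.sqrt 2 * Real.exp 1 * (4 / 5) := by
  have h1 : Real.sqrt 2 < 1.4143 := by
    rw [Real.sqrt_lt' (by norm_num)]; norm_num
  have h2 := Real.log_two_gt_d9
  have h3 := Real.exp_one_gt_d9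
  have h4 : 0 < Real.sqrt 2 := by positivity
  have h5 : Real.log 2 / Real.sqrt 2 * Real.exp 1 * (4 / 5) =
      (Real.log 2 * Real.exp 1 * (4 / 5)) / Real.sqrt 2 := by ring
  rw [h5, one_lt_div h4]
  nlinarith

/-- the asymptotic comparison -/
lemma fact_asym : ∃ k0 : ℕ, 1 ≤ k0 ∧ ∀ k : ℕ, k0 ≤ k →
    96 * ((k + 1).factorial : ℝ) * (k + 4) * (5 / 4) ^ (k + 2) ≤
      (k * (Real.log 2 / Real.sqrt 2)) ^ k := by
  obtain ⟨β, hβ⟩ : ∃ β : ℝ, β = Real.log 2 / Real.sqrt 2 * Real.exp 1 * (4 / 5) := ⟨_, rfl⟩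
  have hβ1 : 1 < β := by rw [hβ]; exact beta_gt
  have ht := tendsto_pow_const_div_const_pow_of_one_lt 3 hβ1
  obtain ⟨k0, h0⟩ := eventually_atTop.1 (ht.eventually (gt_mem_nhds (by norm_num : (0:ℝ) < 1 / 4500)))
  refine ⟨max k0 1, le_max_right _ _, fun k hk => ?_⟩
  have hk1 : 1 ≤ k := (le_max_right _ _).trans hk
  have hkr : (1:ℝ) ≤ k := by exact_mod_cast hk1
  have h1 := h0 k ((le_max_left _ _).trans hk)
  have hβk : 0 < β ^ k := by positivity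
  rw [div_lt_iff₀ hβk] at h1
  have h2 : (k * (Real.log 2 / Real.sqrt 2)) ^ k = (k / Real.exp 1) ^ k * (5 / 4) ^ k * β ^ k := by
    rw [← mul_pow, ← mul_pow, hβ]
    congr 1
    field_simp
  rw [h2, Nat.factorial_succ]
  push_cast
  have h3 := fact_le hk1
  have h4 : (0:ℝ) < (k / Real.exp 1) ^ k := by positivity
  calc 96 * (((k:ℝ) + 1) * k.factorial) * (k + 4) * (5 / 4) ^ (k + 2)
      ≤ 96 * (((k:ℝ) + 1) * (3 * k * (k / Real.exp 1) ^ k)) * (k + 4) * (5 / 4) ^ (k + 2) := by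
        gcongr
    _ = (k / Real.exp 1) ^ k * (5 / 4) ^ k * (450 * (k * (k + 1) * (k + 4))) := by ring
    _ ≤ (k / Real.exp 1) ^ k * (5 / 4) ^ k * (4500 * k ^ 3) := by
        gcongr ?_ * ?_
        nlinarith [mul_nonneg (by linarith : (0:ℝ) ≤ k) (by linarith : (0:ℝ) ≤ k - 1),
          mul_nonneg (mul_nonneg (by linarith : (0:ℝ) ≤ k) (by linarith : (0:ℝ) ≤ k))
            (by linarith : (0:ℝ) ≤ k - 1)]
    _ ≤ (k / Real.exp 1) ^ k * (5 / 4) ^ k * β ^ k := by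
        gcongr
        linarith

/-- sizes for `k ≤ log T / log log T` -/
lemma size_facts {k : ℕ} (hk : 1 ≤ k) {T : ℝ} (hT : Real.exp (Real.exp 18) ≤ T)
    (hkT : (k:ℝ) ≤ Real.log T / Real.log (Real.log T)) :
    (k:ℝ) ^ k ≤ T ∧ 10368 * ((k:ℝ) + 1) ^ 2 * (k + 3) * 256 ^ k ≤ T := by
  have hk0 : (1:ℝ) ≤ k := by exact_mod_cast hk
  have hT0 : 0 < T := lt_of_lt_of_le (Real.exp_pos _) hT
  have hl : Real.exp 18 ≤ Real.log T := by
    rw [Real.le_log_iff_exp_le hT0]; exact hT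
  have hl0 : 0 < Real.log T := lt_of_lt_of_le (Real.exp_pos _) hl
  have hll : 18 ≤ Real.log (Real.log T) := by
    rw [Real.le_log_iff_exp_le hl0]; exact hl
  have hll0 : 0 < Real.log (Real.log T) := by linarith
  have h18 : 18 * (k:ℝ) ≤ Real.log T := by
    rw [le_div_iff₀ hll0] at hkT
    nlinarith
  constructor
  · have h1 : (k:ℝ) * Real.log k ≤ Real.log T := by
      have h2 : Real.log k ≤ Real.log (Real.log T) := Real.log_le_log (by linarith) (by linarith)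
      calc (k:ℝ) * Real.log k ≤ (Real.log T / Real.log (Real.log T)) * Real.log (Real.log T) := by
            gcongr
        _ = Real.log T := by field_simp
    calc (k:ℝ) ^ k = Real.exp (k * Real.log k) := by
          rw [Real.exp_nat_mul, Real.exp_log (by linarith)]
      _ ≤ Real.exp (Real.log T) := Real.exp_le_exp.2 h1
      _ = T := Real.exp_log hT0
  · have h32 : 32 ≤ Real.log T := by
      have : (18:ℝ) + 18 ^ 2 / 2 ≤ Real.exp 18 := by
        have := Real.quadratic_le_exp_of_nonneg (by norm_num : (0:ℝ) ≤ 18)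
        linarith
      linarith
    have e1 : (k:ℝ) + 3 ≤ Real.exp (k + 2) := by
      have := Real.add_one_le_exp ((k:ℝ) + 2)
      linarith
    have e2 : (256:ℝ) ≤ Real.exp 6 := by
      have h3 := Real.exp_one_gt_d9
      have : Real.exp 6 = Real.exp 1 ^ 6 := by rw [← Real.exp_nat_mul]; norm_num
      rw [this]
      calc (256:ℝ) ≤ 2.7 ^ 6 := by norm_num
        _ ≤ Real.exp 1 ^ 6 := by gcongr; linarith
    have e3 : (10368:ℝ) ≤ Real.exp 10 := by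
      have h3 := Real.exp_one_gt_d9
      have : Real.exp 10 = Real.exp 1 ^ 10 := by rw [← Real.exp_nat_mul]; norm_num
      rw [this]
      calc (10368:ℝ) ≤ 2.7 ^ 10 := by norm_num
        _ ≤ Real.exp 1 ^ 10 := by gcongr; linarith
    calc 10368 * ((k:ℝ) + 1) ^ 2 * (k + 3) * 256 ^ k
        ≤ Real.exp 10 * (Real.exp (k + 2)) ^ 2 * Real.exp (k + 2) * (Real.exp 6) ^ k := by
          gcongr
          linarith
      _ = Real.exp (9 * k + 16) := by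
          rw [← Real.exp_nat_mul, ← Real.exp_nat_mul, ← Real.exp_add, ← Real.exp_add, ← Real.exp_add]
          congr 1
          push_cast
          ring
      _ ≤ Real.exp (Real.log T) := by
          apply Real.exp_le_exp.2
          linarith
      _ = T := Real.exp_log hT0

/-- The lower bound for large `k`. -/
theorem lower_large : ∃ k0 : ℕ, 1 ≤ k0 ∧ ∀ k : ℕ, k0 ≤ k → ∀ T : ℝ, Real.exp (Real.exp 18) ≤ T →
    (k:ℝ) ≤ Real.log T / Real.log (Real.log T) →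
    6 * ((k + 1).factorial : ℝ) * (k + 5) * (5 / 4) ^ (k + 2) ≤ MM k 1 T := by
  obtain ⟨k0, hk01, hk0⟩ := fact_asym
  refine ⟨k0, hk01, fun k hk T hT hkT => ?_⟩
  have hk1 : 1 ≤ k := hk01.trans hk
  have hkr : (1:ℝ) ≤ k := by exact_mod_cast hk1
  obtain ⟨s1, s2⟩ := size_facts hk1 hT hkT
  have hF := hk0 k hk
  obtain ⟨P, hP⟩ : ∃ P : ℝ, P = (k * (Real.log 2 / Real.sqrt 2)) ^ k := ⟨_, rfl⟩
  rw [← hP] at hF
  have hT0 : 0 < T := lt_of_lt_of_le (Real.exp_pos _) hT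
  have h256 : (1:ℝ) ≤ 256 ^ k := one_le_pow₀ (by norm_num)
  have hT24 : 24 * ((k:ℝ) + 1) ≤ T := by
    refine le_trans ?_ s2
    calc 24 * ((k:ℝ) + 1) ≤ 10368 * ((k:ℝ) + 1) ^ 2 * (k + 3) * 1 := by nlinarith
      _ ≤ _ := by gcongr
  have hT1 : 1 ≤ T := by linarith
  obtain ⟨L, hL⟩ : ∃ L : ℝ, L = T / (2 * (k + 1)) := ⟨_, rfl⟩
  have hL0 : 0 < L := by rw [hL]; positivity
  obtain ⟨Z, hZ⟩ : ∃ Z : ℝ, Z = 3 * (k.factorial : ℝ) * (k + 3) / (1 / 4) ^ (k + 1) := ⟨_, rfl⟩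
  have hZ0 : 0 ≤ Z := by rw [hZ]; positivity
  obtain ⟨S, hS⟩ : ∃ S : ℝ, S = 2 * max (MM k 1 T) (3 * k.factorial * (k + 3) / 2 ^ k) := ⟨_, rfl⟩
  have hM0 : 0 ≤ MM k 1 T := MM_nonneg k 1 hT0
  have hS0 : 0 ≤ S := by
    rw [hS]
    have := le_max_left (MM k 1 T) (3 * k.factorial * (k + 3) / 2 ^ k)
    linarith
  have hNr : (((4 ^ k : ℕ)) : ℝ) = 4 ^ k := by push_cast; ring
  have hN1 : (1:ℝ) ≤ 4 ^ k := one_le_pow₀ (by norm_num)
  -- the two error conditions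
  have hLT : L ^ 2 * (4 * (k + 1) ^ 2) = T ^ 2 := by
    rw [hL]; field_simp; ring
  have h64 : (4:ℝ) ^ k * ((4:ℝ) ^ k) ^ 2 = 64 ^ k := by
    rw [← pow_mul, mul_comm k 2, pow_mul, ← mul_pow]
    norm_num
  have hN3 : 24 * (4:ℝ) ^ k * (2 * 4 ^ k + 1) ^ 2 ≤ 216 * 64 ^ k := by
    calc 24 * (4:ℝ) ^ k * (2 * 4 ^ k + 1) ^ 2 ≤ 24 * (4:ℝ) ^ k * (2 * 4 ^ k + 4 ^ k) ^ 2 := by gcongr
      _ = 216 * ((4:ℝ) ^ k * ((4:ℝ) ^ k) ^ 2) := by ring
      _ = 216 * 64 ^ k := by rw [h64]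
  have c1 : 24 * ((4 ^ k : ℕ) : ℝ) * (2 * ((4 ^ k : ℕ) : ℝ) + 1) ^ 2 ≤ L ^ 2 := by
    rw [hNr]
    refine hN3.trans ?_
    have h1 : 216 * (64:ℝ) ^ k * (4 * (k + 1) ^ 2) ≤ L ^ 2 * (4 * (k + 1) ^ 2) := by
      rw [hLT]
      have h2 : 216 * (64:ℝ) ^ k * (4 * (k + 1) ^ 2) ≤ 10368 * ((k:ℝ) + 1) ^ 2 * (k + 3) * 256 ^ k := by
        have h3 : (64:ℝ) ^ k ≤ 256 ^ k := by gcongr; norm_num
        calc 216 * (64:ℝ) ^ k * (4 * (k + 1) ^ 2) = 864 * ((k:ℝ) + 1) ^ 2 * 64 ^ k := by ring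
          _ ≤ 864 * ((k:ℝ) + 1) ^ 2 * 256 ^ k := by gcongr
          _ = 864 * ((k:ℝ) + 1) ^ 2 * 1 * 256 ^ k := by ring
          _ ≤ 10368 * ((k:ℝ) + 1) ^ 2 * (k + 3) * 256 ^ k := by
              gcongr
              · norm_num
              · linarith
      nlinarith
    exact le_of_mul_le_mul_right h1 (by positivity)
  have c2 : 24 * ((4 ^ k : ℕ) : ℝ) * (2 * ((4 ^ k : ℕ) : ℝ) + 1) ^ 2 * Z / L ^ 2 ≤ 1 := by
    rw [hNr, div_le_one (by positivity)]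
    have h1 : 24 * (4:ℝ) ^ k * (2 * 4 ^ k + 1) ^ 2 * Z * (4 * (k + 1) ^ 2) ≤ L ^ 2 * (4 * (k + 1) ^ 2) := by
      rw [hLT]
      have hfac : (k.factorial : ℝ) ≤ k ^ k := by exact_mod_cast Nat.factorial_le_pow k
      have e4 : (1 / 4 : ℝ) ^ (k + 1) = 1 / (4 * 4 ^ k) := by
        rw [one_div_pow, pow_succ]; ring
      have e5 : (64:ℝ) ^ k * 4 ^ k = 256 ^ k := by rw [← mul_pow]; norm_num
      calc 24 * (4:ℝ) ^ k * (2 * 4 ^ k + 1) ^ 2 * Z * (4 * (k + 1) ^ 2)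
          ≤ 216 * 64 ^ k * Z * (4 * (k + 1) ^ 2) := by gcongr
        _ = 10368 * ((k:ℝ) + 1) ^ 2 * (k + 3) * (64 ^ k * 4 ^ k) * k.factorial := by
            rw [hZ, e4]; field_simp; ring
        _ = 10368 * ((k:ℝ) + 1) ^ 2 * (k + 3) * 256 ^ k * k.factorial := by rw [e5]
        _ ≤ T * T := by
            gcongr
            exact hfac.trans s1
        _ = T ^ 2 := by ring
    exact le_of_mul_le_mul_right h1 (by positivity)
  -- the resonator
  obtain ⟨a, ha⟩ : ∃ a : ℝ, a = 3 * T / 2 - T / (4 * (k + 1)) := ⟨_, rfl⟩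
  obtain ⟨b, hb⟩ : ∃ b : ℝ, b = 3 * T / 2 + T / (4 * (k + 1)) := ⟨_, rfl⟩
  have hba : b - a = L := by rw [hb, ha, hL]; field_simp; ring
  have hr := reson (k := k) (N := 4 ^ k) (Nat.one_le_pow _ _ (by norm_num)) (σ := 1 + 1 / 4) (a := a) (b := b)
    (S := S) (Z := Z) (by norm_num) (by linarith) hS0 ?_ ?_ ?_
  rotate_left
  · intro t ht
    rw [hS]
    refine sup_right hk1 hT24 (by norm_num) (by norm_num) ?_
    rw [abs_le]
    constructor
    · linarith [ht.1]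
    · linarith [ht.2]
  · rw [hZ]
    exact ak_tsum_le hk1 (by norm_num) (by norm_num)
  · rw [hba]; exact c1
  rw [hba] at hr
  -- the main term
  have h2N : (2 * ((4 ^ k : ℕ) : ℝ)) = (2:ℝ) ^ (2 * (k:ℝ) + 1) := by
    rw [hNr, Real.rpow_add (by norm_num), Real.rpow_mul (by norm_num), Real.rpow_one,
      Real.rpow_natCast]
    norm_num
    ring
  have hNN : (((4 ^ k : ℕ)) : ℝ) = (2:ℝ) ^ (2 * (k:ℝ)) := by
    rw [hNr, Real.rpow_mul (by norm_num), Real.rpow_natCast]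
    norm_num
  have hlogN : Real.log ((4 ^ k : ℕ) : ℝ) = k * (2 * Real.log 2) := by
    rw [hNr, Real.log_pow]
    have : Real.log 4 = 2 * Real.log 2 := by
      rw [show (4:ℝ) = 2 ^ 2 by norm_num, Real.log_pow]; push_cast; ring
    rw [this]
  have hsq : Real.sqrt (2 * ((4 ^ k : ℕ) : ℝ)) = (2:ℝ) ^ ((k:ℝ) + 1 / 2) := by
    rw [h2N, Real.sqrt_eq_rpow, ← Real.rpow_mul (by norm_num)]
    congr 1
    ring
  have hmain : ((4 ^ k : ℕ) : ℝ) * Real.log ((4 ^ k : ℕ) : ℝ) ^ k *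
      (2 * ((4 ^ k : ℕ) : ℝ)) ^ (-(1 + 1 / 4) : ℝ) =
      (2:ℝ) ^ (-(7:ℝ) / 4) * P * Real.sqrt (2 * ((4 ^ k : ℕ) : ℝ)) := by
    have e1 : Real.log 2 / Real.sqrt 2 = 2 * Real.log 2 * (2:ℝ) ^ (-(3:ℝ) / 2) := by
      have e2 : Real.sqrt 2 = (2:ℝ) ^ ((1:ℝ) / 2) := Real.sqrt_eq_rpow 2
      have e3 : (2:ℝ) * (2:ℝ) ^ (-(3:ℝ) / 2) * (2:ℝ) ^ ((1:ℝ) / 2) = 1 := by
        nth_rewrite 1 [← Real.rpow_one (2:ℝ)]
        rw [← Real.rpow_add (by norm_num), ← Real.rpow_add (by norm_num)]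
        norm_num
      have e4 : 0 < Real.sqrt 2 := by positivity
      rw [div_eq_iff e4.ne', e2]
      linear_combination (-Real.log 2) * e3
    have e6 : ((k:ℝ) * (2 * Real.log 2 * (2:ℝ) ^ (-(3:ℝ) / 2))) ^ k =
        ((k:ℝ) * (2 * Real.log 2)) ^ k * (2:ℝ) ^ (-(3:ℝ) / 2 * (k:ℝ)) := by
      rw [Real.rpow_mul (by norm_num), Real.rpow_natCast, ← mul_pow]
      congr 1
      ring
    rw [hsq, hlogN, hP, e1, h2N, hNN, e6, ← Real.rpow_mul (by norm_num)]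
    have e5 : (2:ℝ) ^ (2 * (k:ℝ)) * (2:ℝ) ^ ((2 * (k:ℝ) + 1) * -(1 + 1 / 4)) =
        (2:ℝ) ^ (-(7:ℝ) / 4) * (2:ℝ) ^ (-(3:ℝ) / 2 * (k:ℝ)) * (2:ℝ) ^ ((k:ℝ) + 1 / 2) := by
      rw [← Real.rpow_add (by norm_num), ← Real.rpow_add (by norm_num),
        ← Real.rpow_add (by norm_num)]
      congr 1
      ring
    linear_combination ((k * (2 * Real.log 2) : ℝ)) ^ k * e5
  rw [hmain] at hr
  have hsq1 : 1 ≤ Real.sqrt (2 * ((4 ^ k : ℕ) : ℝ)) := by
    rw [hsq]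
    exact Real.one_le_rpow (by norm_num) (by positivity)
  have h74 : (1 / 4 : ℝ) ≤ (2:ℝ) ^ (-(7:ℝ) / 4) := by
    have : (1 / 4 : ℝ) = (2:ℝ) ^ (-(2:ℝ)) := by
      rw [Real.rpow_neg (by norm_num), Real.rpow_two]; norm_num
    rw [this]
    exact Real.rpow_le_rpow_of_exponent_le (by norm_num) (by norm_num)
  -- lower bound for `S`
  obtain ⟨Y, hY⟩ : ∃ Y : ℝ, Y = ((k + 1).factorial : ℝ) * (k + 4) * (5 / 4) ^ (k + 2) := ⟨_, rfl⟩
  have hF' : 96 * Y ≤ P := by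
    rw [hY]
    calc _ = _ := by ring
      _ ≤ P := hF
  have hY2 : 1 ≤ Y := by
    rw [hY]
    have h1 : (1:ℝ) ≤ ((k + 1).factorial : ℝ) := by exact_mod_cast Nat.one_le_iff_ne_zero.2 (Nat.factorial_ne_zero _)
    have h2 : (1:ℝ) ≤ (5 / 4) ^ (k + 2) := one_le_pow₀ (by norm_num)
    have h3 : (1:ℝ) ≤ k + 4 := by linarith
    exact one_le_mul_of_one_le_of_one_le (one_le_mul_of_one_le_of_one_le h1 h3) h2
  have hP0 : 0 ≤ P := by linarith
  have hSl : P / 4 - 1 ≤ S := by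
    have h1 : (P / 4 - 1) * Real.sqrt (2 * ((4 ^ k : ℕ) : ℝ)) ≤ S * Real.sqrt (2 * ((4 ^ k : ℕ) : ℝ)) := by
      refine le_trans ?_ hr
      have h2 : P / 4 * Real.sqrt (2 * ((4 ^ k : ℕ) : ℝ)) ≤
          (2:ℝ) ^ (-(7:ℝ) / 4) * P * Real.sqrt (2 * ((4 ^ k : ℕ) : ℝ)) := by
        gcongr
        nlinarith
      linarith
    exact le_of_mul_le_mul_right h1 (by linarith)
  have hSY : 23 * Y ≤ S := by linarith
  have hmax : 23 / 2 * Y ≤ max (MM k 1 T) (3 * k.factorial * (k + 3) / 2 ^ k) := by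
    rw [hS] at hSY
    linarith
  rcases le_max_iff.1 hmax with h | h
  · have hpf : (0:ℝ) ≤ ((k + 1).factorial : ℝ) * (5 / 4) ^ (k + 2) := by positivity
    calc 6 * ((k + 1).factorial : ℝ) * (k + 5) * (5 / 4) ^ (k + 2) =
          (((k + 1).factorial : ℝ) * (5 / 4) ^ (k + 2)) * (6 * (k + 5)) := by ring
      _ ≤ (((k + 1).factorial : ℝ) * (5 / 4) ^ (k + 2)) * (23 / 2 * (k + 4)) :=
          mul_le_mul_of_nonneg_left (by linarith) hpf
      _ = 23 / 2 * Y := by rw [hY]; ring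
      _ ≤ _ := h
  · exfalso
    have h1 : 3 * k.factorial * (k + 3) / 2 ^ k ≤ 3 * Y := by
      rw [hY, Nat.factorial_succ]
      push_cast
      have h2 : (1:ℝ) ≤ 2 ^ k := one_le_pow₀ (by norm_num)
      have h3 : (1:ℝ) ≤ (5 / 4) ^ (k + 2) := one_le_pow₀ (by norm_num)
      have hf0 : (0:ℝ) < k.factorial := by positivity
      calc 3 * k.factorial * ((k:ℝ) + 3) / 2 ^ k ≤ 3 * k.factorial * ((k:ℝ) + 3) / 1 := by gcongr
        _ = 3 * (1 * k.factorial * ((k:ℝ) + 3) * 1) := by ring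
        _ ≤ 3 * (((k:ℝ) + 1) * k.factorial * ((k:ℝ) + 4) * (5 / 4) ^ (k + 2)) := by
            gcongr
            · linarith
            · norm_num
    linarith

end Pool.Agent.R307
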