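import Pool.Agent.R307.Unb

set_option autoImplicit false

/-! Strict growth of the maxima with the order of the derivative. -/

namespace Pool.Agent.R307

open Complex Set Filter Topology

lemma zd_conj (k : ℕ) : zd k = (starRingEnd ℂ) ∘ zd k ∘ (starRingEnd ℂ) := by
  induction k with
  | zero =>
    funext s
    simp only [Function.comp_apply, zd_zero, riemannZeta_conj, Complex.conj_conj]
  | succ k ih =>
    have e : zd (k + 1) = deriv (zd k) := by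
      funext s
      unfold zd
      rw [iteratedDeriv_succ]
    rw [e]
    nth_rewrite 1 [ih]
    rw [deriv_conj_conj]

lemma norm_zd_conj (k : ℕ) (x y : ℝ) : ‖zd k ⟨x, -y⟩‖ = ‖zd k ⟨x, y⟩‖ := by
  have h := congrFun (zd_conj k) ⟨x, y⟩
  have e : (starRingEnd ℂ) (⟨x, y⟩ : ℂ) = ⟨x, -y⟩ := rfl
  rw [Function.comp_apply, Function.comp_apply, e] at h
  rw [h, Complex.norm_conj]

lemma MM_attained (k : ℕ) (σ : ℝ) {T : ℝ} (hT : 0 < T) : ∃ t : ℝ, T ≤ t ∧ t ≤ 2 * T ∧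
    ‖zd k ⟨σ, t⟩‖ = MM k σ T := by
  have hc : ContinuousOn (fun t : ℝ => ‖zd k ⟨σ, t⟩‖) (Icc T (2 * T)) := by
    intro u hu
    exact (vert_cont k σ (by linarith [hu.1] : (0:ℝ) < u).ne').norm.continuousWithinAt
  obtain ⟨t, ht, ht2⟩ := isCompact_Icc.exists_sSup_image_eq (nonempty_Icc.2 (by linarith)) hc
  exact ⟨t, ht.1, ht.2, ht2.symm⟩

/-- The consecutive step. -/
theorem step_lt {k : ℕ} (hk : 1 ≤ k) {T q ρ : ℝ} (hT : 20 * ((k:ℝ) + 2) ≤ T) (hq : 5 / 4 ≤ q)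
    (hM : 6 * ((k + 1).factorial : ℝ) * (k + 5) * q ^ (k + 2) ≤ MM k 1 T)
    (hρ : 0 < ρ) (hρ1 : ρ ≤ 1) (hqρ : 1 < q * ρ)
    (hnum : ρ + 10 / 9 / ((k + 2) * Real.log (q * ρ) * (2 / Real.pi) / (3 + ρ)) + 1 / 36 < 1) :
    MM k 1 T < MM (k + 1) 1 T := by
  by_contra hcon
  rw [not_lt] at hcon
  have hk0 : (1:ℝ) ≤ k := by exact_mod_cast hk
  have hT0 : 0 < T := by linarith
  obtain ⟨M, hMd⟩ : ∃ M : ℝ, M = MM k 1 T := ⟨_, rfl⟩
  rw [← hMd] at hcon hM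
  have hqp : 1 ≤ q ^ (k + 2) := one_le_pow₀ (by linarith)
  have hf1 : (0:ℝ) < ((k + 1).factorial : ℝ) := by positivity
  have hM0 : 0 < M := by
    refine lt_of_lt_of_le ?_ hM
    positivity
  obtain ⟨t0, ht1, ht2, ht3⟩ := MM_attained k 1 hT0
  -- the base point
  obtain ⟨β, hβ1, hβ2⟩ : ∃ β : ℝ, ‖zd k ⟨1, β⟩‖ = M ∧ ∀ τ : ℝ, 0 ≤ τ → τ ≤ T / 2 →
      β + τ ≠ 0 ∧ ‖zd (k + 1) ⟨1, β + τ⟩‖ ≤ M := by
    rcases le_total t0 (3 * T / 2) with h | h
    · refine ⟨t0, by rw [hMd, ht3], fun τ h1 h2 => ⟨?_, ?_⟩⟩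
      · have : 0 < t0 + τ := by linarith
        exact this.ne'
      · exact (le_MM (k + 1) 1 hT0 (by linarith) (by linarith)).trans hcon
    · refine ⟨-t0, by rw [norm_zd_conj, hMd, ht3], fun τ h1 h2 => ⟨?_, ?_⟩⟩
      · have : -t0 + τ < 0 := by linarith
        exact this.ne
      · have e : -t0 + τ = -(t0 - τ) := by ring
        rw [e, norm_zd_conj]
        exact (le_MM (k + 1) 1 hT0 (by linarith) (by linarith)).trans hcon
  obtain ⟨F, hF⟩ : ∃ F : ℂ → ℂ, F = fun z => zd k (z + ⟨1, β⟩) := ⟨_, rfl⟩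
  obtain ⟨g, hg⟩ : ∃ g : ℂ → ℂ, g = fun z => zd (k + 1) (z + ⟨1, β⟩) := ⟨_, rfl⟩
  have hadd : ∀ x τ : ℝ, (⟨x, τ⟩ : ℂ) + ⟨1, β⟩ = ⟨1 + x, β + τ⟩ := by
    intro x τ
    apply Complex.ext
    · simp; ring
    · simp; ring
  have hne : ∀ z : ℂ, 0 ≤ z.im → z.im ≤ T / 2 → z + ⟨1, β⟩ ≠ 1 := by
    intro z h1 h2
    apply ne_one_of_im
    rw [Complex.add_im]
    simp only
    rw [add_comm]
    exact (hβ2 z.im h1 h2).1
  have h := quad_final (F := F) (g := g) (M := M) (K := 3 * ((k + 1).factorial : ℝ) * (k + 5))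
    (q := q) (X := 3) (H := T / 2) (ρ := ρ) (m := k + 2) (by omega) hM0.le (by positivity)
    (by linarith) (by norm_num) ?_ ?_ ?_ ?_ ?_ ?_ ?_ ?_ ?_ hρ hqρ ?_
  · have e0 : F 0 = zd k ⟨1, β⟩ := by
      rw [hF]
      simp only [zero_add]
    have e1 : ‖F ⟨3, ρ⟩‖ ≤ M / 36 := by
      rw [hF]
      simp only
      rw [hadd]
      refine (zd_right3 hk (x := 3) (by norm_num) le_rfl rfl).trans ?_
      have h3 : (9:ℝ) ≤ 3 ^ (k + 1) := by
        calc (9:ℝ) = 3 ^ 2 := by norm_num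
          _ ≤ 3 ^ (k + 1) := pow_le_pow_right₀ (by norm_num) (by omega)
      have h4 : (2:ℝ) * k.factorial ≤ (k + 1).factorial := by
        rw [Nat.factorial_succ]
        push_cast
        have : (0:ℝ) < k.factorial := by positivity
        nlinarith
      calc 3 * (k.factorial : ℝ) * (k + 4) / 3 ^ (k + 1) ≤ 3 * (k.factorial : ℝ) * (k + 4) / 9 := by
            gcongr
        _ = (6 * (2 * (k.factorial : ℝ)) * (k + 4) * 1) / 36 := by ring
        _ ≤ (6 * ((k + 1).factorial : ℝ) * (k + 5) * q ^ (k + 2)) / 36 := by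
            gcongr
            norm_num
        _ ≤ M / 36 := by gcongr
    rw [e0, hβ1] at h
    have h5 : 10 / 9 * M / ((k + 2 : ℕ) * Real.log (q * ρ) * (2 / Real.pi) / (3 + ρ)) =
        M * (10 / 9 / ((k + 2) * Real.log (q * ρ) * (2 / Real.pi) / (3 + ρ))) := by
      push_cast
      ring
    rw [h5] at h
    have h6 : M * (ρ + 10 / 9 / ((k + 2) * Real.log (q * ρ) * (2 / Real.pi) / (3 + ρ)) + 1 / 36) <
        M * 1 := mul_lt_mul_of_pos_left hnum hM0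
    linarith
  · intro z _ _ h3 h4
    have h5 := zd_hasDerivAt k (hne z h3 h4)
    rw [hF, hg]
    exact h5.comp_add_const z _
  · intro z _ _ h3 h4
    have h5 := (zd_analytic (k + 1) (hne z h3 h4)).differentiableAt
    rw [hg]
    exact DifferentiableAt.comp (g := zd (k + 1)) (f := fun z : ℂ => z + ⟨1, β⟩) z h5
      (differentiableAt_id.add_const _)
  · intro τ h1 h2
    rw [hg]
    simp only
    rw [hadd, add_zero]
    exact (hβ2 τ h1 h2).2
  · intro x τ h1 h2 h3 h4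
    rw [hg]
    simp only
    rw [hadd]
    refine (zd_right3 (k := k + 1) (by omega) h1 h2 rfl).trans (le_of_eq ?_)
    push_cast
    ring
  · refine le_trans (le_of_eq ?_) hM
    ring
  · have := Real.exp_one_lt_three
    linarith
  · linarith
  · nlinarith
  · push_cast
    nlinarith
  · push_cast
    nlinarith

lemma num_large {k : ℕ} (hk : 1100 ≤ k) : (9 / 10 : ℝ) + 10 / 9 / ((k + 2) *
    Real.log (5 / 4 * (9 / 10)) * (2 / Real.pi) / (3 + 9 / 10)) + 1 / 36 < 1 := by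
  have hkr : (1100:ℝ) ≤ k := by exact_mod_cast hk
  have h1 : (1 / 9 : ℝ) ≤ Real.log (5 / 4 * (9 / 10)) := by
    have := Real.one_sub_inv_le_log_of_pos (x := 5 / 4 * (9 / 10)) (by norm_num)
    norm_num at this ⊢
    exact this
  have h2 : (1 / 2 : ℝ) ≤ 2 / Real.pi := by
    rw [div_le_div_iff₀ (by norm_num) Real.pi_pos]
    have := Real.pi_lt_four
    linarith
  have h3 : (1102:ℝ) * (1 / 9) * (1 / 2) / (3 + 9 / 10) ≤ (k + 2) *
      Real.log (5 / 4 * (9 / 10)) * (2 / Real.pi) / (3 + 9 / 10) := by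
    gcongr
    linarith
  have h4 : 10 / 9 / ((k + 2) * Real.log (5 / 4 * (9 / 10)) * (2 / Real.pi) / (3 + 9 / 10)) ≤
      10 / 9 / ((1102:ℝ) * (1 / 9) * (1 / 2) / (3 + 9 / 10)) := by
    gcongr
  refine lt_of_le_of_lt (add_le_add_left (add_le_add_right h4 _) _) ?_
  norm_num

lemma num_small {k : ℕ} (hk : 1 ≤ k) : (1 / 4 : ℝ) + 10 / 9 / ((k + 2) *
    Real.log (4 * Real.exp 4 * (1 / 4)) * (2 / Real.pi) / (3 + 1 / 4)) + 1 / 36 < 1 := by
  have hkr : (1:ℝ) ≤ k := by exact_mod_cast hk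
  have h1 : Real.log (4 * Real.exp 4 * (1 / 4)) = 4 := by
    have : 4 * Real.exp 4 * (1 / 4) = Real.exp 4 := by ring
    rw [this, Real.log_exp]
  rw [h1]
  have h2 : (1 / 2 : ℝ) ≤ 2 / Real.pi := by
    rw [div_le_div_iff₀ (by norm_num) Real.pi_pos]
    have := Real.pi_lt_four
    linarith
  have h3 : (3:ℝ) * 4 * (1 / 2) / (3 + 1 / 4) ≤ (k + 2) * 4 * (2 / Real.pi) / (3 + 1 / 4) := by
    gcongr
    linarith
  have h4 : 10 / 9 / ((k + 2) * 4 * (2 / Real.pi) / (3 + 1 / 4)) ≤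
      10 / 9 / ((3:ℝ) * 4 * (1 / 2) / (3 + 1 / 4)) := by
    gcongr
  refine lt_of_le_of_lt (add_le_add_left (add_le_add_right h4 _) _) ?_
  norm_num

/-- The consecutive step, uniformly. -/
theorem step_all : ∃ T₀ : ℝ, ∀ T : ℝ, T₀ ≤ T → ∀ k : ℕ, 1 ≤ k →
    (k:ℝ) ≤ Real.log T / Real.log (Real.log T) → MM k 1 T < MM (k + 1) 1 T := by
  obtain ⟨k0, hk01, hk0⟩ := lower_large
  obtain ⟨k1, hk1⟩ : ∃ k1 : ℕ, k1 = max k0 1100 := ⟨_, rfl⟩
  have hsm : ∀ᶠ T : ℝ in atTop, ∀ k ∈ Finset.Ico 1 k1,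
      6 * ((k + 1).factorial : ℝ) * (k + 5) * (4 * Real.exp 4) ^ (k + 2) ≤ MM k 1 T := by
    rw [Filter.eventually_all_finset]
    intro k hk
    obtain ⟨T₀, hT₀⟩ := unbounded (Finset.mem_Ico.1 hk).1
      (6 * ((k + 1).factorial : ℝ) * (k + 5) * (4 * Real.exp 4) ^ (k + 2))
    exact eventually_atTop.2 ⟨T₀, hT₀⟩
  obtain ⟨T₁, hT₁⟩ := eventually_atTop.1 hsm
  refine ⟨max T₁ (Real.exp (Real.exp 18)), fun T hT k hk hkT => ?_⟩
  have hTe : Real.exp (Real.exp 18) ≤ T := (le_max_right _ _).trans hT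
  have hkr : (1:ℝ) ≤ k := by exact_mod_cast hk
  obtain ⟨s1, s2⟩ := size_facts hk hTe hkT
  have hT20 : 20 * ((k:ℝ) + 2) ≤ T := by
    refine le_trans ?_ s2
    have h256 : (1:ℝ) ≤ 256 ^ k := one_le_pow₀ (by norm_num)
    calc 20 * ((k:ℝ) + 2) ≤ 10368 * ((k:ℝ) + 1) ^ 2 * (k + 3) * 1 := by nlinarith
      _ ≤ _ := by gcongr
  by_cases hkk : k < k1
  · have h1 := hT₁ T ((le_max_left _ _).trans hT) k (Finset.mem_Ico.2 ⟨hk, hkk⟩)
    have h2 : (1:ℝ) < Real.exp 4 := by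
      rw [← Real.exp_zero]; exact Real.exp_lt_exp.2 (by norm_num)
    refine step_lt hk hT20 (q := 4 * Real.exp 4) (ρ := 1 / 4) (by linarith) h1 (by norm_num)
      (by norm_num) (by linarith) (num_small hk)
  · rw [not_lt] at hkk
    have h1 := hk0 k ((le_max_left _ _).trans (hk1 ▸ hkk)) T hTe hkT
    exact step_lt hk hT20 (q := 5 / 4) (ρ := 9 / 10) le_rfl h1 (by norm_num)
      (by norm_num) (by norm_num) (num_large ((le_max_right _ _).trans (hk1 ▸ hkk)))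

end Pool.Agent.R307
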