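import Pool.Agent.R307.Zb

set_option autoImplicit false

/-! A three lines lemma with Gaussian localisation. -/

namespace Pool.Agent.R307

open Complex Set

lemma norm_gauss (δ κ x y : ℝ) :
    ‖Complex.exp ((δ : ℂ) * (⟨x, y⟩ : ℂ) ^ 2 + (κ : ℂ) * (⟨x, y⟩ : ℂ))‖ =
      Real.exp (δ * (x ^ 2 - y ^ 2) + κ * x) := by
  rw [Complex.norm_exp]
  congr 1
  simp [pow_two, Complex.add_re, Complex.mul_re]

/-- Gaussian localisation: a bound at an interior point of a vertical line, and to the right of it. -/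
theorem gauss_max {g : ℂ → ℂ} {σ X η t₁ κ δ L R P Q : ℝ} (hX : 0 < X) (hη : 0 < η) (hδ : 0 ≤ δ)
    (hg : ∀ s : ℂ, σ ≤ s.re → s.re ≤ σ + X → |s.im - t₁| ≤ η → DifferentiableAt ℂ g s)
    (hleft : ∀ t : ℝ, |t - t₁| ≤ η → ‖g ⟨σ, t⟩‖ ≤ L)
    (hright : ∀ t : ℝ, |t - t₁| ≤ η → ‖g ⟨σ + X, t⟩‖ ≤ R)
    (hall : ∀ s : ℂ, σ ≤ s.re → s.re ≤ σ + X → |s.im - t₁| ≤ η → ‖g s‖ ≤ P)
    (hL : L ≤ Q) (hR : R * Real.exp (δ * X ^ 2 + κ * X) ≤ Q)
    (hP : P * Real.exp (δ * (X ^ 2 - η ^ 2) + |κ| * X) ≤ Q) {x : ℝ} (hx : 0 ≤ x) (hxX : x ≤ X) :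
    ‖g ⟨σ + x, t₁⟩‖ * Real.exp (δ * x ^ 2 + κ * x) ≤ Q := by
  have hL0 : 0 ≤ L := (norm_nonneg _).trans (hleft t₁ (by simpa using hη.le))
  have hR0 : 0 ≤ R := (norm_nonneg _).trans (hright t₁ (by simpa using hη.le))
  have hP0 : 0 ≤ P := (norm_nonneg _).trans (hall ⟨σ, t₁⟩ (by simp) (by simp; exact hX.le)
    (by simpa using hη.le))
  have hQ0 : 0 ≤ Q := hL0.trans hL
  obtain ⟨F, hF⟩ : ∃ F : ℂ → ℂ, F = fun z : ℂ => g (⟨σ, t₁⟩ + z) *
    Complex.exp ((δ : ℂ) * z ^ 2 + (κ : ℂ) * z) := ⟨_, rfl⟩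
  have hnorm : ∀ x y : ℝ, ‖F ⟨x, y⟩‖ = ‖g ⟨σ + x, t₁ + y⟩‖ *
      Real.exp (δ * (x ^ 2 - y ^ 2) + κ * x) := by
    intro x y
    rw [hF]
    simp only
    rw [norm_mul, norm_gauss]
    rfl
  have hends : ∀ u y : ℝ, 0 ≤ u → u ≤ X → |y| ≤ η → y ^ 2 = η ^ 2 → ‖F ⟨u, y⟩‖ ≤ Q := by
    intro u y hu1 hu2 hy1 hy2
    rw [hnorm]
    have h1 : ‖g ⟨σ + u, t₁ + y⟩‖ ≤ P := hall _ (by simp only; linarith) (by simp only; linarith)
      (by simp only; rw [add_sub_cancel_left]; exact hy1)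
    have h2 : Real.exp (δ * (u ^ 2 - y ^ 2) + κ * u) ≤
        Real.exp (δ * (X ^ 2 - η ^ 2) + |κ| * X) := by
      rw [Real.exp_le_exp, hy2]
      have h3 : κ * u ≤ |κ| * X := by
        calc κ * u ≤ |κ| * u := mul_le_mul_of_nonneg_right (le_abs_self κ) hu1
          _ ≤ |κ| * X := mul_le_mul_of_nonneg_left hu2 (abs_nonneg κ)
      have h4 : u ^ 2 ≤ X ^ 2 := by nlinarith
      have h5 : δ * u ^ 2 ≤ δ * X ^ 2 := mul_le_mul_of_nonneg_left h4 hδ
      nlinarith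
    exact (mul_le_mul h1 h2 (Real.exp_pos _).le hP0).trans hP
  have key := rect_max (f := F) (a := 0) (b := X) (c := -η) (d := η) (C := Q) hX (by linarith)
    ?_ ?_ ?_ ?_ ?_ ?_ (z := ⟨x, 0⟩) hx hxX (by simpa using hη.le) (by simpa using hη.le)
  · rw [hnorm] at key
    simpa using key
  · intro z hz
    obtain ⟨hz1, hz2⟩ := hz
    have h1 : DifferentiableAt ℂ g (⟨σ, t₁⟩ + z) := by
      apply hg
      · rw [Complex.add_re]; simp only; linarith [hz1.1]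
      · rw [Complex.add_re]; simp only; linarith [hz1.2]
      · rw [Complex.add_im]; simp only
        rw [abs_le]; constructor <;> linarith [hz2.1, hz2.2]
    have h2 : DifferentiableAt ℂ F z := by
      rw [hF]
      refine DifferentiableAt.mul ?_ ?_
      · exact DifferentiableAt.comp (f := fun z : ℂ => (⟨σ, t₁⟩ : ℂ) + z) z h1
          (by fun_prop)
      · fun_prop
    exact h2.continuousAt.continuousWithinAt
  · intro z hz
    obtain ⟨hz1, hz2⟩ := hz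
    have h1 : DifferentiableAt ℂ g (⟨σ, t₁⟩ + z) := by
      apply hg
      · rw [Complex.add_re]; simp only; linarith [hz1.1]
      · rw [Complex.add_re]; simp only; linarith [hz1.2]
      · rw [Complex.add_im]; simp only
        rw [abs_le]; constructor <;> linarith [hz2.1, hz2.2]
    have h2 : DifferentiableAt ℂ F z := by
      rw [hF]
      refine DifferentiableAt.mul ?_ ?_
      · exact DifferentiableAt.comp (f := fun z : ℂ => (⟨σ, t₁⟩ : ℂ) + z) z h1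
          (by fun_prop)
      · fun_prop
    exact h2.differentiableWithinAt
  · intro y hy1 hy2
    rw [hnorm]
    have h1 : ‖g ⟨σ + 0, t₁ + y⟩‖ ≤ L := by
      rw [add_zero]
      exact hleft _ (by rw [add_sub_cancel_left, abs_le]; exact ⟨hy1, hy2⟩)
    have h2 : Real.exp (δ * (0 ^ 2 - y ^ 2) + κ * 0) ≤ 1 := by
      rw [Real.exp_le_one_iff]
      nlinarith [mul_nonneg hδ (sq_nonneg y)]
    calc _ ≤ L * 1 := mul_le_mul h1 h2 (Real.exp_pos _).le hL0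
      _ ≤ Q := by rw [mul_one]; exact hL
  · intro y hy1 hy2
    rw [hnorm]
    have h1 : ‖g ⟨σ + X, t₁ + y⟩‖ ≤ R :=
      hright _ (by rw [add_sub_cancel_left, abs_le]; exact ⟨hy1, hy2⟩)
    have h2 : Real.exp (δ * (X ^ 2 - y ^ 2) + κ * X) ≤ Real.exp (δ * X ^ 2 + κ * X) := by
      rw [Real.exp_le_exp]
      nlinarith [mul_nonneg hδ (sq_nonneg y)]
    exact (mul_le_mul h1 h2 (Real.exp_pos _).le hR0).trans hR
  · intro u hu1 hu2
    exact hends u (-η) hu1 hu2 (by rw [abs_neg, abs_of_pos hη]) (by ring)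
  · intro u hu1 hu2
    exact hends u η hu1 hu2 (by rw [abs_of_pos hη]) rfl

end Pool.Agent.R307
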