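import Pool.Agent.R307.Zk

set_option autoImplicit false

/-! Means with a parabolic weight. -/

namespace Pool.Agent.R307

open Complex Set Filter Topology MeasureTheory

/-- The parabolic weight. -/
noncomputable def wp (a b t : ℝ) : ℝ := (t - a) * (b - t)

/-- The transform of the parabolic weight. -/
noncomputable def Ew (a b lam : ℝ) : ℂ :=
  ∫ t in a..b, (wp a b t : ℂ) * Complex.exp ((lam * t : ℝ) * I)

lemma wp_nonneg {a b t : ℝ} (h1 : a ≤ t) (h2 : t ≤ b) : 0 ≤ wp a b t :=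
  mul_nonneg (by linarith) (by linarith)

lemma wp_cont (a b : ℝ) : Continuous (wp a b) := by unfold wp; fun_prop

lemma wp_integral (a b : ℝ) : ∫ t in a..b, wp a b t = (b - a) ^ 3 / 6 := by
  have h : ∀ t ∈ uIcc a b, HasDerivAt (fun t : ℝ => (b - a) * (t - a) ^ 2 / 2 - (t - a) ^ 3 / 3)
      (wp a b t) t := by
    intro t _
    have h1 : HasDerivAt (fun t : ℝ => t - a) 1 t := (hasDerivAt_id t).sub_const a
    have h2 := (((h1.pow 2).const_mul (b - a)).div_const 2).sub ((h1.pow 3).div_const 3)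
    refine h2.congr_deriv ?_
    unfold wp
    push_cast
    ring
  rw [intervalIntegral.integral_eq_sub_of_hasDerivAt h ((wp_cont a b).intervalIntegrable _ _)]
  ring

lemma Ew_zero (a b : ℝ) : Ew a b 0 = (((b - a) ^ 3 / 6 : ℝ) : ℂ) := by
  unfold Ew
  rw [← wp_integral a b, ← intervalIntegral.integral_ofReal]
  congr 1
  funext t
  simp

lemma norm_exp_sub {lam s t : ℝ} : ‖Complex.exp ((lam * s : ℝ) * I) - Complex.exp ((lam * t : ℝ) * I)‖ ≤
    |lam| * |s - t| := by
  have e : Complex.exp ((lam * s : ℝ) * I) - Complex.exp ((lam * t : ℝ) * I) =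
      Complex.exp ((lam * t : ℝ) * I) * (Complex.exp (I * ((lam * (s - t) : ℝ) : ℂ)) - 1) := by
    rw [mul_sub, ← Complex.exp_add, mul_one]
    congr 2
    push_cast
    ring
  rw [e, norm_mul, Complex.norm_exp_ofReal_mul_I, one_mul]
  refine (Real.norm_exp_I_mul_ofReal_sub_one_le).trans ?_
  rw [Real.norm_eq_abs, abs_mul]

lemma Ew_bound {a b lam : ℝ} (hab : a ≤ b) (hl : lam ≠ 0) : ‖Ew a b lam‖ ≤ 4 * (b - a) / lam ^ 2 := by
  obtain ⟨c, hc⟩ : ∃ c : ℂ, c = (lam * I)⁻¹ := ⟨_, rfl⟩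
  have hlc : (lam : ℂ) ≠ 0 := by exact_mod_cast hl
  have hcn : ‖c‖ = |lam|⁻¹ := by
    rw [hc, norm_inv, norm_mul, Complex.norm_I, mul_one, Complex.norm_real, Real.norm_eq_abs]
  have hcl : c * (lam * I) = 1 := by
    rw [hc]; exact inv_mul_cancel₀ (mul_ne_zero hlc I_ne_zero)
  have h : ∀ t ∈ uIcc a b, HasDerivAt (fun t : ℝ =>
      ((((t:ℂ) - a) * (b - t)) * c - ((a + b - 2 * t : ℂ)) * c ^ 2 - 2 * c ^ 3) *
        Complex.exp ((lam * t : ℝ) * I)) ((wp a b t : ℂ) * Complex.exp ((lam * t : ℝ) * I)) t := by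
    intro t _
    have h0 : HasDerivAt (fun t : ℝ => (t : ℂ)) 1 t := Complex.ofRealCLM.hasDerivAt
    have h1 : HasDerivAt (fun t : ℝ => (t : ℂ) - a) 1 t := h0.sub_const _
    have h2 : HasDerivAt (fun t : ℝ => (b : ℂ) - t) (-1) t := h0.const_sub _
    have h3 : HasDerivAt (fun t : ℝ => (a + b - 2 * t : ℂ)) (-(2 * 1)) t :=
      (h0.const_mul 2).const_sub _
    have h4 : HasDerivAt (fun t : ℝ => Complex.exp ((lam * t : ℝ) * I))
        (Complex.exp ((lam * t : ℝ) * I) * (lam * 1 * I)) t := by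
      have h5 : HasDerivAt (fun t : ℝ => ((lam * t : ℝ) : ℂ) * I) (lam * 1 * I) t := by
        have : (fun t : ℝ => ((lam * t : ℝ) : ℂ) * I) = fun t : ℝ => (lam : ℂ) * (t : ℂ) * I := by
          funext t; push_cast; ring
        rw [this]
        exact (h0.const_mul _).mul_const _
      exact h5.cexp
    have h6 := ((((h1.mul h2).mul_const c).sub (h3.mul_const (c ^ 2))).sub_const (2 * c ^ 3)).mul h4
    refine h6.congr_deriv ?_
    unfold wp
    simp only [Pi.sub_apply, Pi.mul_apply]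
    push_cast
    linear_combination (Complex.exp (lam * t * I)) * ((((t:ℂ) - a) * (b - t)) -
      ((a + b - 2 * t : ℂ)) * c - 2 * c ^ 2) * hcl
  have hint : IntervalIntegrable (fun t : ℝ => (wp a b t : ℂ) * Complex.exp ((lam * t : ℝ) * I))
      volume a b := by
    apply Continuous.intervalIntegrable
    have := wp_cont a b
    fun_prop
  unfold Ew
  rw [intervalIntegral.integral_eq_sub_of_hasDerivAt h hint]
  have e1 : ((((b:ℂ) - a) * (b - b)) * c - ((a + b - 2 * b : ℂ)) * c ^ 2 - 2 * c ^ 3) *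
        Complex.exp ((lam * b : ℝ) * I) -
      ((((a:ℂ) - a) * (b - a)) * c - ((a + b - 2 * a : ℂ)) * c ^ 2 - 2 * c ^ 3) *
        Complex.exp ((lam * a : ℝ) * I) =
      (((b - a : ℝ) : ℂ) * c ^ 2 * Complex.exp ((lam * b : ℝ) * I) +
      ((b - a : ℝ) : ℂ) * c ^ 2 * Complex.exp ((lam * a : ℝ) * I)) -
      2 * c ^ 3 * (Complex.exp ((lam * b : ℝ) * I) - Complex.exp ((lam * a : ℝ) * I)) := by
    push_cast
    ring
  rw [e1]
  have hL : 0 ≤ b - a := by linarith
  have n1 : ‖((b - a : ℝ) : ℂ) * c ^ 2 * Complex.exp ((lam * b : ℝ) * I)‖ = (b - a) / lam ^ 2 := by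
    rw [norm_mul, norm_mul, norm_pow, hcn, Complex.norm_exp_ofReal_mul_I,
      Complex.norm_of_nonneg hL, inv_pow, sq_abs]
    ring
  have n2 : ‖((b - a : ℝ) : ℂ) * c ^ 2 * Complex.exp ((lam * a : ℝ) * I)‖ = (b - a) / lam ^ 2 := by
    rw [norm_mul, norm_mul, norm_pow, hcn, Complex.norm_exp_ofReal_mul_I,
      Complex.norm_of_nonneg hL, inv_pow, sq_abs]
    ring
  have hl0 : 0 < |lam| := abs_pos.2 hl
  have n3 : ‖2 * c ^ 3 * (Complex.exp ((lam * b : ℝ) * I) - Complex.exp ((lam * a : ℝ) * I))‖ ≤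
      2 * (b - a) / lam ^ 2 := by
    rw [norm_mul, norm_mul, norm_pow, hcn, Complex.norm_ofNat]
    calc 2 * |lam|⁻¹ ^ 3 * ‖Complex.exp ((lam * b : ℝ) * I) - Complex.exp ((lam * a : ℝ) * I)‖
        ≤ 2 * |lam|⁻¹ ^ 3 * (|lam| * |b - a|) := by
          gcongr
          exact norm_exp_sub
      _ = 2 * (b - a) / |lam| ^ 2 := by
          rw [abs_of_nonneg hL]
          field_simp
      _ = _ := by rw [sq_abs]
  refine (norm_sub_le _ _).trans ?_
  refine (add_le_add ((norm_add_le _ _).trans (add_le_add n1.le n2.le)) n3).trans (le_of_eq ?_)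
  ring

lemma zd_line_cont (k : ℕ) {σ : ℝ} (hσ : 1 < σ) : Continuous (fun t : ℝ => zd k ⟨σ, t⟩) := by
  rw [continuous_iff_continuousAt]
  intro t
  have hne : (⟨σ, t⟩ : ℂ) ≠ 1 := by
    intro h
    have := congrArg Complex.re h
    simp at this
    linarith
  have h2 : Continuous (fun t : ℝ => (⟨σ, t⟩ : ℂ)) := by
    have : (fun t : ℝ => (⟨σ, t⟩ : ℂ)) = fun t : ℝ => (σ : ℂ) + t * I := by
      funext t
      apply Complex.ext <;> simp
    rw [this]
    fun_prop
  exact ContinuousAt.comp (f := fun t : ℝ => (⟨σ, t⟩ : ℂ)) (zd_continuousAt k hne) h2.continuousAt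

/-- The mean of the derivative of zeta against an exponential. -/
lemma mean_hasSum (k : ℕ) {σ a b : ℝ} (hσ : 1 < σ) (mu : ℝ) :
    HasSum (fun n : ℕ => (-1) ^ k * (ak k σ n : ℂ) * Ew a b (mu - Real.log n))
      (∫ t in a..b, (wp a b t : ℂ) * zd k ⟨σ, t⟩ * Complex.exp ((mu * t : ℝ) * I)) := by
  have e0 : (fun n : ℕ => (-1) ^ k * (ak k σ n : ℂ) * Ew a b (mu - Real.log n)) =
      fun n : ℕ => ∫ t in a..b, (-1) ^ k * (ak k σ n : ℂ) *
      ((wp a b t : ℂ) * Complex.exp (((mu - Real.log n) * t : ℝ) * I)) := by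
    funext n
    rw [intervalIntegral.integral_const_mul]
    rfl
  rw [e0]
  refine intervalIntegral.hasSum_integral_of_dominated_convergence (μ := volume) (a := a) (b := b)
    (fun n t => ak k σ n * |wp a b t|) ?_ ?_ ?_ ?_ ?_
  · intro n
    apply Continuous.aestronglyMeasurable
    have := wp_cont a b
    fun_prop
  · intro n
    refine ae_of_all _ fun t _ => ?_
    rw [norm_mul, norm_mul, norm_mul, norm_pow, norm_neg, norm_one, one_pow, one_mul,
      Complex.norm_exp_ofReal_mul_I, mul_one, Complex.norm_of_nonneg (ak_nonneg k σ n),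
      Complex.norm_real, Real.norm_eq_abs]
  · exact ae_of_all _ fun t _ => (ak_summable k hσ).mul_right _
  · have e : (fun t : ℝ => ∑' n, ak k σ n * |wp a b t|) = fun t => (∑' n, ak k σ n) * |wp a b t| := by
      funext t
      rw [tsum_mul_right]
    rw [e]
    exact (continuous_const.mul (wp_cont a b).abs).intervalIntegrable _ _
  · refine ae_of_all _ fun t _ => ?_
    have h1 := ((zd_hasSum k hσ t).mul_left ((wp a b t : ℂ) * Complex.exp ((mu * t : ℝ) * I)))
    have e1 : (wp a b t : ℂ) * zd k ⟨σ, t⟩ * Complex.exp ((mu * t : ℝ) * I) =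
        (wp a b t : ℂ) * Complex.exp ((mu * t : ℝ) * I) * zd k ⟨σ, t⟩ := by ring
    have e2 : (fun n : ℕ => (-1) ^ k * (ak k σ n : ℂ) *
        ((wp a b t : ℂ) * Complex.exp (((mu - Real.log n) * t : ℝ) * I))) = fun n : ℕ =>
        (wp a b t : ℂ) * Complex.exp ((mu * t : ℝ) * I) * ((-1) ^ k * (ak k σ n : ℂ) *
          Complex.exp (-(t * Real.log n : ℝ) * I)) := by
      funext n
      have e3 : Complex.exp (((mu - Real.log n) * t : ℝ) * I) = Complex.exp ((mu * t : ℝ) * I) *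
          Complex.exp (-(t * Real.log n : ℝ) * I) := by
        rw [← Complex.exp_add]
        congr 1
        push_cast
        ring
      rw [e3]
      ring
    rw [e1, e2]
    exact h1

/-- gap between logarithms -/
lemma log_gap {N n m : ℕ} (hn : 1 ≤ n) (hnN : n ≤ 2 * N) (hm : 1 ≤ m) (hne : n ≠ m) :
    1 / (2 * (N:ℝ) + 1) ≤ |Real.log n - Real.log m| := by
  have hn0 : (0:ℝ) < n := by exact_mod_cast hn
  have hm0 : (0:ℝ) < m := by exact_mod_cast hm
  have hnN' : (n:ℝ) ≤ 2 * N := by exact_mod_cast hnN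
  rcases lt_or_gt_of_ne hne with h | h
  · have h1 : (n:ℝ) + 1 ≤ m := by exact_mod_cast h
    have h2 : 1 - (n:ℝ) / m ≤ Real.log m - Real.log n := by
      have := Real.one_sub_inv_le_log_of_pos (x := (m:ℝ) / n) (by positivity)
      rwa [inv_div, Real.log_div hm0.ne' hn0.ne'] at this
    rw [abs_sub_comm]
    refine le_trans ?_ (le_abs_self _)
    refine le_trans ?_ h2
    have h3 : (n:ℝ) / m ≤ n / (n + 1) := by gcongr
    have h4 : 1 - (n:ℝ) / (n + 1) = 1 / (n + 1) := by field_simp; ring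
    have h5 : 1 / (2 * (N:ℝ) + 1) ≤ 1 / ((n:ℝ) + 1) := by gcongr
    linarith
  · have h1 : (m:ℝ) + 1 ≤ n := by exact_mod_cast h
    have h2 : 1 - (m:ℝ) / n ≤ Real.log n - Real.log m := by
      have := Real.one_sub_inv_le_log_of_pos (x := (n:ℝ) / m) (by positivity)
      rwa [inv_div, Real.log_div hn0.ne' hm0.ne'] at this
    refine le_trans ?_ (le_abs_self _)
    refine le_trans ?_ h2
    have h3 : 1 / (2 * (N:ℝ) + 1) ≤ 1 / (n:ℝ) := by
      gcongr
      linarith
    refine h3.trans ?_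
    rw [div_le_iff₀ hn0, sub_mul, div_mul_cancel₀ _ hn0.ne']
    linarith

lemma ak_zero (k : ℕ) {σ : ℝ} (hσ : 1 < σ) : ak k σ 0 = 0 := by
  unfold ak
  rw [Nat.cast_zero, Real.zero_rpow (by linarith)]
  ring

/-- bound of the transform away from the diagonal -/
lemma Ew_gap {N n m : ℕ} {a b : ℝ} (hab : a ≤ b) (hn : 1 ≤ n) (hnN : n ≤ 2 * N) (hm : 1 ≤ m)
    (hne : n ≠ m) : ‖Ew a b (Real.log n - Real.log m)‖ ≤ 4 * (b - a) * (2 * N + 1) ^ 2 := by
  have hg := log_gap hn hnN hm hne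
  have h0 : (0:ℝ) < 1 / (2 * (N:ℝ) + 1) := by positivity
  have hne0 : Real.log n - Real.log m ≠ 0 := by
    intro h
    rw [h, abs_zero] at hg
    linarith
  refine (Ew_bound hab hne0).trans ?_
  have hL : 0 ≤ b - a := by linarith
  rw [← sq_abs]
  calc 4 * (b - a) / |Real.log n - Real.log m| ^ 2 ≤ 4 * (b - a) / (1 / (2 * (N:ℝ) + 1)) ^ 2 := by
        gcongr
    _ = _ := by field_simp

/-- The mean against a single frequency. -/
lemma mean_single {k N n : ℕ} {σ a b Z : ℝ} (hσ : 1 < σ) (hab : a ≤ b) (hZ : ∑' n, ak k σ n ≤ Z)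
    (hn : 1 ≤ n) (hnN : n ≤ 2 * N) :
    ‖(∫ t in a..b, (wp a b t : ℂ) * zd k ⟨σ, t⟩ * Complex.exp ((Real.log n * t : ℝ) * I)) -
      (-1) ^ k * ((ak k σ n * ((b - a) ^ 3 / 6) : ℝ) : ℂ)‖ ≤ 4 * (b - a) * (2 * N + 1) ^ 2 * Z := by
  have hL : 0 ≤ b - a := by linarith
  have h1 := mean_hasSum k (a := a) (b := b) hσ (Real.log n)
  have h2 := hasSum_ite_eq n ((-1) ^ k * ((ak k σ n * ((b - a) ^ 3 / 6) : ℝ) : ℂ))
  have h3 := h1.sub h2
  have hs : HasSum (fun m => 4 * (b - a) * (2 * N + 1) ^ 2 * ak k σ m)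
      (4 * (b - a) * (2 * N + 1) ^ 2 * ∑' m, ak k σ m) :=
    (ak_summable k hσ).hasSum.mul_left _
  refine (h3.norm_le_of_bounded hs ?_).trans ?_
  · intro m
    by_cases hmn : m = n
    · subst hmn
      simp only [if_true, sub_self, Ew_zero]
      have e : (-1 : ℂ) ^ k * (ak k σ m : ℂ) * (((b - a) ^ 3 / 6 : ℝ) : ℂ) -
          (-1) ^ k * ((ak k σ m * ((b - a) ^ 3 / 6) : ℝ) : ℂ) = 0 := by
        push_cast
        ring
      rw [e, norm_zero]
      have := ak_nonneg k σ m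
      positivity
    · simp only [if_neg hmn, sub_zero]
      rw [norm_mul, norm_mul, norm_pow, norm_neg, norm_one, one_pow, one_mul,
        Complex.norm_of_nonneg (ak_nonneg k σ m)]
      by_cases hm0 : m = 0
      · subst hm0
        rw [ak_zero k hσ]
        simp
      · have := Ew_gap hab hn hnN (Nat.pos_of_ne_zero hm0) (Ne.symm hmn)
        rw [mul_comm]
        exact mul_le_mul_of_nonneg_right this (ak_nonneg k σ m)
  · gcongr

end Pool.Agent.R307
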