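import Pool.Agent.R307.Rect

set_option autoImplicit false

/-! A two constants estimate in a quarter plane. -/

namespace Pool.Agent.R307

open Complex Set Filter Topology

/-- `A + (i/π) A²` with `A = log (q z)`. -/
noncomputable def PhiQ (q : ℝ) (z : ℂ) : ℂ :=
  (Complex.log z + (Real.log q : ℂ)) +
    (I / (Real.pi : ℂ)) * (Complex.log z + (Real.log q : ℂ)) ^ 2

lemma PhiQ_re {q : ℝ} (hq : 0 < q) {z : ℂ} (hz : z ≠ 0) :
    (PhiQ q z).re = Real.log (q * ‖z‖) * (1 - 2 / Real.pi * z.arg) := by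
  have e : Complex.log z + (Real.log q : ℂ) = ⟨Real.log (q * ‖z‖), z.arg⟩ := by
    apply Complex.ext
    · simp only [add_re, log_re, ofReal_re, Real.log_mul hq.ne' (norm_ne_zero_iff.2 hz)]
      ring
    · simp [log_im]
  have hp : (Real.pi : ℝ) ≠ 0 := Real.pi_ne_zero
  have e2 : (I / (Real.pi : ℂ)) = ⟨0, 1 / Real.pi⟩ := by
    apply Complex.ext
    · simp [Complex.div_re]
    · rw [Complex.div_ofReal_im]; simp
  unfold PhiQ
  rw [e, e2]
  simp only [pow_two, add_re, mul_re, mul_im]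
  ring

lemma PhiQ_analytic {q : ℝ} {z : ℂ} (hz : z ∈ slitPlane) : AnalyticAt ℂ (PhiQ q) z := by
  unfold PhiQ
  have h : AnalyticAt ℂ Complex.log z := analyticAt_clog hz
  fun_prop (disch := assumption)

lemma mem_slit {z : ℂ} (h0 : z ≠ 0) (hr : 0 ≤ z.re) : z ∈ slitPlane := by
  rcases hr.lt_or_eq with h | h
  · exact Or.inl h
  · right
    intro hi
    exact h0 (Complex.ext h.symm hi)

/-- `1 - 2 arg / π` is between `0` and `cos`. -/
lemma ang_facts {z : ℂ} (h0 : z ≠ 0) (hr : 0 ≤ z.re) (hi : 0 ≤ z.im) :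
    0 ≤ 1 - 2 / Real.pi * z.arg ∧ 1 - 2 / Real.pi * z.arg ≤ z.re / ‖z‖ ∧
      2 / Real.pi * (z.re / ‖z‖) ≤ 1 - 2 / Real.pi * z.arg := by
  have h1 : 0 ≤ z.arg := Complex.arg_nonneg_iff.2 hi
  have h2 : z.arg ≤ Real.pi / 2 := (abs_le.1 (Complex.abs_arg_le_pi_div_two_iff.2 hr)).2
  have hp := Real.pi_pos
  refine ⟨?_, ?_, ?_⟩
  · rw [sub_nonneg, div_mul_eq_mul_div, div_le_one hp]; linarith
  · rw [← Complex.cos_arg h0]
    exact Real.one_sub_mul_le_cos h1 h2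
  · rw [← Complex.cos_arg h0]
    have h3 : Real.cos z.arg ≤ Real.pi / 2 - z.arg := by
      rw [← Real.sin_pi_div_two_sub]
      exact Real.sin_le (by linarith)
    calc 2 / Real.pi * Real.cos z.arg ≤ 2 / Real.pi * (Real.pi / 2 - z.arg) := by gcongr
      _ = 1 - 2 / Real.pi * z.arg := by field_simp

/-- The exponent on the right side and the top side. -/
lemma expo_right {q X : ℝ} (hq : 0 < q) (hX : 0 < X) (hqX : Real.exp 1 ≤ q * X) {z : ℂ}
    (hr : z.re = X) (hi : 0 ≤ z.im) :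
    Real.log (q * ‖z‖) * (1 - 2 / Real.pi * z.arg) ≤ Real.log (q * X) := by
  have h0 : z ≠ 0 := by
    rintro rfl
    simp at hr
    linarith
  have hn : X ≤ ‖z‖ := by
    have := Complex.re_le_norm z
    rwa [hr] at this
  have hn0 : 0 < ‖z‖ := by linarith
  obtain ⟨-, h2, -⟩ := ang_facts h0 (by rw [hr]; exact hX.le) hi
  have hl1 : 1 ≤ Real.log (q * X) := by
    rw [Real.le_log_iff_exp_le (by positivity)]; exact hqX
  have hl : Real.log (q * X) ≤ Real.log (q * ‖z‖) :=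
    Real.log_le_log (by positivity) (by gcongr)
  have hl0 : 0 ≤ Real.log (q * ‖z‖) := by linarith
  refine (mul_le_mul_of_nonneg_left h2 hl0).trans ?_
  rw [hr]
  set u := X / ‖z‖ with hu
  have hu0 : 0 < u := by positivity
  have hu1 : u ≤ 1 := by rw [hu, div_le_one hn0]; exact hn
  have e : Real.log (q * ‖z‖) = Real.log (q * X) - Real.log u := by
    rw [← Real.log_div (by positivity) hu0.ne']
    congr 1
    rw [hu]; field_simp
  rw [e]
  have h3 : -Real.log u * u ≤ 1 - u := by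
    have h4 : Real.log (1 / u) ≤ 1 / u - 1 := Real.log_le_sub_one_of_pos (by positivity)
    rw [Real.log_div one_ne_zero hu0.ne', Real.log_one, zero_sub] at h4
    calc -Real.log u * u ≤ (1 / u - 1) * u := by gcongr
      _ = 1 - u := by field_simp
  nlinarith

lemma expo_top {q X H : ℝ} (hq : 0 < q) (hH : 0 < H) (hXH : X ≤ H / 2)
    (hqH : 2 ≤ q * H) {z : ℂ} (hr : 0 ≤ z.re) (hrX : z.re ≤ X) (hi : z.im = H) :
    Real.log (q * ‖z‖) * (1 - 2 / Real.pi * z.arg) ≤ Real.log (q * H) := by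
  have h0 : z ≠ 0 := by
    rintro rfl
    simp at hi
    linarith
  have hn : H ≤ ‖z‖ := by
    have := Complex.im_le_norm z
    rwa [hi] at this
  have hn0 : 0 < ‖z‖ := by linarith
  obtain ⟨h1, h2, -⟩ := ang_facts h0 hr (by rw [hi]; exact hH.le)
  have hn2 : ‖z‖ ≤ 2 * H := by
    have := Complex.norm_le_abs_re_add_abs_im z
    rw [abs_of_nonneg hr, hi, abs_of_pos hH] at this
    linarith
  have hl0 : 0 ≤ Real.log (q * ‖z‖) := by
    apply Real.log_nonneg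
    have : q * H ≤ q * ‖z‖ := by gcongr
    linarith
  have h3 : z.re / ‖z‖ ≤ 1 / 2 := by
    rw [div_le_iff₀ hn0]; linarith
  calc Real.log (q * ‖z‖) * (1 - 2 / Real.pi * z.arg)
      ≤ Real.log (q * ‖z‖) * (1 / 2) := by
        exact mul_le_mul_of_nonneg_left (h2.trans h3) hl0
    _ ≤ Real.log ((q * H) ^ 2) * (1 / 2) := by
        gcongr
        calc q * ‖z‖ ≤ q * (2 * H) := by gcongr
          _ = 2 * (q * H) := by ring
          _ ≤ (q * H) * (q * H) := by gcongr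
          _ = (q * H) ^ 2 := by ring
    _ = Real.log (q * H) := by
        rw [Real.log_pow]; push_cast; ring

/-- The weight `(1 + i z / H)`. -/
noncomputable def VH (H : ℝ) (z : ℂ) : ℂ := 1 + I * z / (H : ℂ)

lemma VH_eq {H : ℝ} (hH : H ≠ 0) (z : ℂ) : VH H z = ⟨1 - z.im / H, z.re / H⟩ := by
  unfold VH
  apply Complex.ext
  · rw [add_re, Complex.div_ofReal_re]
    simp
    ring
  · rw [add_im, Complex.div_ofReal_im]
    simp

lemma norm_VH_sq {H : ℝ} (hH : H ≠ 0) (z : ℂ) :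
    ‖VH H z‖ ^ 2 = (1 - z.im / H) ^ 2 + (z.re / H) ^ 2 := by
  rw [VH_eq hH, ← Complex.normSq_eq_norm_sq, Complex.normSq_mk]; ring

lemma norm_VH_left {H : ℝ} (hH : 0 < H) {z : ℂ} (hr : z.re = 0) (hi : 0 ≤ z.im) (hi2 : z.im ≤ H) :
    ‖VH H z‖ ≤ 1 := by
  have h1 : z.im / H ≤ 1 := by rwa [div_le_one hH]
  have h2 : 0 ≤ z.im / H := by positivity
  have := norm_VH_sq hH.ne' z
  rw [hr, zero_div] at this
  nlinarith [norm_nonneg (VH H z)]

lemma norm_VH_pow {H X : ℝ} {m : ℕ} (hH : 0 < H) {z : ℂ} (hr : 0 ≤ z.re) (hrX : z.re ≤ X)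
    (hi : 0 ≤ z.im) (hi2 : z.im ≤ H) (hm : m * X ^ 2 ≤ H ^ 2) :
    ‖VH H z‖ ^ m ≤ 2 := by
  have h1 : z.im / H ≤ 1 := by rwa [div_le_one hH]
  have h2 : 0 ≤ z.im / H := by positivity
  have h3 : ‖VH H z‖ ^ 2 ≤ 1 + (X / H) ^ 2 := by
    rw [norm_VH_sq hH.ne' z]
    have : (z.re / H) ^ 2 ≤ (X / H) ^ 2 := by gcongr
    nlinarith
  have h4 : (‖VH H z‖ ^ m) ^ 2 ≤ 3 := by
    rw [← pow_mul, mul_comm, pow_mul]
    calc (‖VH H z‖ ^ 2) ^ m ≤ (1 + (X / H) ^ 2) ^ m := by gcongr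
      _ ≤ (Real.exp ((X / H) ^ 2)) ^ m := by
          gcongr
          have := Real.add_one_le_exp ((X / H) ^ 2)
          linarith
      _ = Real.exp (m * (X / H) ^ 2) := by rw [← Real.exp_nat_mul]
      _ ≤ Real.exp 1 := by
          gcongr
          rw [div_pow, ← mul_div_assoc, div_le_one (by positivity)]
          exact hm
      _ ≤ 3 := Real.exp_one_lt_three.le
  nlinarith [pow_nonneg (norm_nonneg (VH H z)) m]

lemma norm_VH_top {H : ℝ} (hH : 0 < H) {z : ℂ} (hr : 0 ≤ z.re) (hi : z.im = H) :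
    ‖VH H z‖ = z.re / H := by
  rw [VH_eq hH.ne', hi, div_self hH.ne', sub_self]
  have : (⟨0, z.re / H⟩ : ℂ) = ((z.re / H : ℝ) : ℂ) * I := by
    apply Complex.ext <;> simp
  rw [this, norm_mul, Complex.norm_I, mul_one, Complex.norm_of_nonneg (by positivity)]

lemma norm_VH_ge {H : ℝ} {m : ℕ} (hH : 0 < H) {z : ℂ} (hi : 0 ≤ z.im) (hm : 10 * m * z.im ≤ H)
    (hi2 : z.im ≤ H) : 9 / 10 ≤ ‖VH H z‖ ^ m := by
  have h2 : 0 ≤ z.im / H := by positivity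
  have h1 : z.im / H ≤ 1 := by rwa [div_le_one hH]
  have h3 : 1 - z.im / H ≤ ‖VH H z‖ := by
    rw [VH_eq hH.ne']
    exact Complex.re_le_norm (⟨1 - z.im / H, z.re / H⟩ : ℂ)
  have h4 : m * (z.im / H) ≤ 1 / 10 := by
    rw [mul_div_assoc', div_le_iff₀ hH]; linarith
  calc (9 / 10 : ℝ) ≤ 1 + m * (-(z.im / H)) := by linarith
    _ ≤ (1 + (-(z.im / H))) ^ m := one_add_mul_le_pow (by linarith) m
    _ ≤ ‖VH H z‖ ^ m := by
        apply pow_le_pow_left₀ (by linarith)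
        linarith

lemma mem_rect {a b c d : ℝ} {z : ℂ} : z ∈ Icc a b ×ℂ Icc c d ↔
    (a ≤ z.re ∧ z.re ≤ b) ∧ (c ≤ z.im ∧ z.im ≤ d) := Iff.rfl

/-- The core estimate with epsilon. -/
theorem quad_eps {g : ℂ → ℂ} {M K q X H ε : ℝ} {m : ℕ} (hm0 : 1 ≤ m) (hM : 0 ≤ M) (hK : 0 ≤ K)
    (hq : 0 < q) (hX : 0 < X)
    (hc : ContinuousOn g (Icc 0 X ×ℂ Icc 0 H)) (hd : DifferentiableOn ℂ g (Ioo 0 X ×ℂ Ioo 0 H))
    (h1 : ∀ τ, 0 ≤ τ → τ ≤ H → ‖g ⟨0, τ⟩‖ ≤ M)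
    (h2 : ∀ x τ, 0 < x → x ≤ X → 0 ≤ τ → τ ≤ H → ‖g ⟨x, τ⟩‖ ≤ K / x ^ m)
    (h3 : 2 * K * q ^ m ≤ M) (h4 : Real.exp 1 ≤ q * X) (h5 : X ≤ H / 2) (h6 : 2 ≤ q * H)
    (h7 : m * X ^ 2 ≤ H ^ 2) (hε : 0 < ε)
    {z : ℂ} (hz0 : z ≠ 0) (hz1 : 0 ≤ z.re) (hz2 : z.re ≤ X) (hz3 : 0 ≤ z.im) (hz4 : z.im ≤ H) :
    ‖g z‖ * Real.exp (m * (Real.log (q * ‖z‖) * (1 - 2 / Real.pi * z.arg))) *
      (‖z‖ / (2 * H)) ^ ε * ‖VH H z‖ ^ m ≤ M := by
  have hH : 0 < H := by linarith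
  obtain ⟨G, hG⟩ : ∃ G : ℂ → ℂ, G = fun z => if z = 0 then 0 else
      g z * Complex.exp (m * PhiQ q z) * Complex.exp (ε * (Complex.log z - Real.log (2 * H))) *
        VH H z ^ m := ⟨_, rfl⟩
  have hG0 : G 0 = 0 := by rw [hG]; simp
  have hGn : ∀ z : ℂ, z ≠ 0 → ‖G z‖ =
      ‖g z‖ * Real.exp (m * (Real.log (q * ‖z‖) * (1 - 2 / Real.pi * z.arg))) *
      (‖z‖ / (2 * H)) ^ ε * ‖VH H z‖ ^ m := by
    intro z hz
    rw [hG]
    simp only [if_neg hz]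
    rw [norm_mul, norm_mul, norm_mul, norm_pow, Complex.norm_exp, Complex.norm_exp]
    congr 3
    · rw [← PhiQ_re hq hz, ← Complex.ofReal_natCast, Complex.re_ofReal_mul]
    · rw [Complex.re_ofReal_mul, Complex.sub_re, Complex.ofReal_re, Complex.log_re,
        ← Real.log_div (norm_ne_zero_iff.2 hz) (by positivity),
        Real.rpow_def_of_pos (div_pos (norm_pos_iff.2 hz) (by positivity)), mul_comm]
  have hcut : ∀ z : ℂ, 0 ≤ z.re → z.re ≤ X → 0 ≤ z.im → z.im ≤ H → (‖z‖ / (2 * H)) ^ ε ≤ 1 := by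
    intro z a1 a2 a3 a4
    apply Real.rpow_le_one (by positivity) _ hε.le
    rw [div_le_one (by positivity)]
    have := Complex.norm_le_abs_re_add_abs_im z
    rw [abs_of_nonneg a1, abs_of_nonneg a3] at this
    linarith
  have hcut0 : ∀ z : ℂ, 0 ≤ (‖z‖ / (2 * H)) ^ ε := fun z => by positivity
  rw [← hGn z hz0]
  refine rect_max (a := 0) (b := X) (c := 0) (d := H) hX hH ?_ ?_ ?_ ?_ ?_ ?_ hz1 hz2 hz3 hz4
  · -- continuity
    intro w hw
    obtain ⟨⟨w1, w2⟩, w3, w4⟩ := mem_rect.1 hw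
    by_cases hw0 : w = 0
    · subst hw0
      have hb : ∀ᶠ v in 𝓝[Icc 0 X ×ℂ Icc 0 H] (0 : ℂ), ‖G v‖ ≤
          (‖g 0‖ + 1) * 2 * (‖v‖ / (2 * H)) ^ ε := by
        have e1 : ∀ᶠ v in 𝓝[Icc 0 X ×ℂ Icc 0 H] (0 : ℂ), ‖g v‖ < ‖g 0‖ + 1 :=
          ((hc 0 hw).norm).eventually (gt_mem_nhds (by linarith))
        have e2 : ∀ᶠ v in 𝓝[Icc 0 X ×ℂ Icc 0 H] (0 : ℂ), q * ‖v‖ < 1 := by
          have : Tendsto (fun v : ℂ => q * ‖v‖) (𝓝[Icc 0 X ×ℂ Icc 0 H] (0 : ℂ)) (𝓝 (q * ‖(0:ℂ)‖)) :=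
            ((continuous_const.mul continuous_norm).tendsto 0).mono_left nhdsWithin_le_nhds
          exact this.eventually (gt_mem_nhds (by simp))
        filter_upwards [e1, e2, self_mem_nhdsWithin] with v a1 a2 a3
        obtain ⟨⟨v1, v2⟩, v3, v4⟩ := mem_rect.1 a3
        by_cases hv0 : v = 0
        · rw [hv0, hG0, norm_zero]; positivity
        · rw [hGn v hv0]
          have f1 : Real.exp (m * (Real.log (q * ‖v‖) * (1 - 2 / Real.pi * v.arg))) ≤ 1 := by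
            rw [Real.exp_le_one_iff]
            obtain ⟨b1, -, -⟩ := ang_facts hv0 v1 v3
            have b2 : Real.log (q * ‖v‖) ≤ 0 :=
              Real.log_nonpos (by positivity) a2.le
            exact mul_nonpos_of_nonneg_of_nonpos (Nat.cast_nonneg m)
              (mul_nonpos_of_nonpos_of_nonneg b2 b1)
          have f2 := norm_VH_pow hH v1 v2 v3 v4 h7
          calc ‖g v‖ * Real.exp (m * (Real.log (q * ‖v‖) * (1 - 2 / Real.pi * v.arg))) *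
                (‖v‖ / (2 * H)) ^ ε * ‖VH H v‖ ^ m
              ≤ (‖g 0‖ + 1) * 1 * (‖v‖ / (2 * H)) ^ ε * 2 := by
                gcongr
            _ = _ := by ring
      have ht : Tendsto (fun v : ℂ => (‖g 0‖ + 1) * 2 * (‖v‖ / (2 * H)) ^ ε)
          (𝓝[Icc 0 X ×ℂ Icc 0 H] (0 : ℂ)) (𝓝 0) := by
        have : Continuous (fun v : ℂ => (‖g 0‖ + 1) * 2 * (‖v‖ / (2 * H)) ^ ε) := by
          refine continuous_const.mul ?_
          exact (continuous_norm.div_const _).rpow_const (fun _ => Or.inr hε.le)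
        have h := (this.tendsto 0).mono_left (nhdsWithin_le_nhds (s := Icc 0 X ×ℂ Icc 0 H))
        simpa [Real.zero_rpow hε.ne'] using h
      have := squeeze_zero_norm' hb ht
      unfold ContinuousWithinAt
      rw [hG0]
      exact this
    · have hs : w ∈ slitPlane := mem_slit hw0 w1
      have e1 : G =ᶠ[𝓝[Icc 0 X ×ℂ Icc 0 H] w] fun z => g z * Complex.exp (m * PhiQ q z) *
          Complex.exp (ε * (Complex.log z - Real.log (2 * H))) * VH H z ^ m := by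
        have : ∀ᶠ v in 𝓝 w, v ≠ 0 := isOpen_ne.mem_nhds hw0
        filter_upwards [nhdsWithin_le_nhds this] with v hv
        rw [hG]; simp [hv]
      have e2 : G w = g w * Complex.exp (m * PhiQ q w) *
          Complex.exp (ε * (Complex.log w - Real.log (2 * H))) * VH H w ^ m := by
        rw [hG]; simp [hw0]
      refine ContinuousWithinAt.congr_of_eventuallyEq ?_ e1 e2
      have c1 : ContinuousAt (fun z => Complex.exp (m * PhiQ q z)) w :=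
        (continuousAt_const.mul (PhiQ_analytic hs).continuousAt).cexp
      have c2 : ContinuousAt (fun z => Complex.exp (ε * (Complex.log z - Real.log (2 * H)))) w :=
        (continuousAt_const.mul ((continuousAt_clog hs).sub continuousAt_const)).cexp
      have c3 : ContinuousAt (fun z => VH H z ^ m) w := by
        unfold VH
        fun_prop
      exact (((hc w hw).mul c1.continuousWithinAt).mul c2.continuousWithinAt).mul
        c3.continuousWithinAt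
  · -- differentiability
    intro w hw
    have w1 : 0 < w.re := hw.1.1
    have hw0 : w ≠ 0 := by
      rintro rfl
      simp at w1
    have hs : w ∈ slitPlane := Or.inl w1
    have hopen : IsOpen (Ioo 0 X ×ℂ Ioo 0 H) := isOpen_Ioo.reProdIm isOpen_Ioo
    have e1 : G =ᶠ[𝓝 w] fun z => g z * Complex.exp (m * PhiQ q z) *
        Complex.exp (ε * (Complex.log z - Real.log (2 * H))) * VH H z ^ m := by
      have : ∀ᶠ v in 𝓝 w, v ≠ 0 := isOpen_ne.mem_nhds hw0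
      filter_upwards [this] with v hv
      rw [hG]; simp [hv]
    refine DifferentiableAt.differentiableWithinAt ?_
    refine DifferentiableAt.congr_of_eventuallyEq ?_ e1
    have c1 : DifferentiableAt ℂ (fun z => Complex.exp (m * PhiQ q z)) w :=
      ((PhiQ_analytic hs).differentiableAt.const_mul _).cexp
    have c2 : DifferentiableAt ℂ (fun z => Complex.exp (ε * (Complex.log z - Real.log (2 * H)))) w :=
      (((differentiableAt_id.clog hs).sub_const _).const_mul _).cexp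
    have c3 : DifferentiableAt ℂ (fun z => VH H z ^ m) w := by
      unfold VH
      fun_prop
    exact (((hd.differentiableAt (hopen.mem_nhds hw)).mul c1).mul c2).mul c3
  · -- left
    intro y hy1 hy2
    by_cases hy : y = 0
    · have : (⟨0, y⟩ : ℂ) = 0 := by rw [hy]; rfl
      rw [this, hG0, norm_zero]; exact hM
    · have hz : (⟨0, y⟩ : ℂ) ≠ 0 := by
        intro h
        exact hy (congrArg Complex.im h)
      rw [hGn _ hz]
      obtain ⟨b1, b2, -⟩ := ang_facts hz (le_refl 0) hy1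
      have b3 : 1 - 2 / Real.pi * (⟨0, y⟩ : ℂ).arg = 0 := by
        apply le_antisymm _ b1
        refine b2.trans ?_
        simp
      rw [b3, mul_zero, mul_zero, Real.exp_zero, mul_one]
      have f1 := hcut ⟨0, y⟩ le_rfl hX.le hy1 hy2
      have f2 : ‖VH H ⟨0, y⟩‖ ^ m ≤ 1 := pow_le_one₀ (norm_nonneg _) (norm_VH_left hH rfl hy1 hy2)
      calc ‖g ⟨0, y⟩‖ * (‖(⟨0, y⟩ : ℂ)‖ / (2 * H)) ^ ε * ‖VH H ⟨0, y⟩‖ ^ m ≤ M * 1 * 1 := by
            gcongr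
            exact h1 y hy1 hy2
        _ = M := by ring
  · -- right
    intro y hy1 hy2
    have hz : (⟨X, y⟩ : ℂ) ≠ 0 := by
      intro h
      have := congrArg Complex.re h
      simp at this
      linarith
    rw [hGn _ hz]
    have f1 := hcut ⟨X, y⟩ hX.le le_rfl hy1 hy2
    have f2 := norm_VH_pow hH (z := ⟨X, y⟩) hX.le le_rfl hy1 hy2 h7
    have f3 := expo_right hq hX h4 (z := ⟨X, y⟩) rfl hy1
    have f4 : Real.exp (m * (Real.log (q * ‖(⟨X, y⟩ : ℂ)‖) * (1 - 2 / Real.pi * (⟨X, y⟩ : ℂ).arg))) ≤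
        (q * X) ^ m := by
      calc _ ≤ Real.exp (m * Real.log (q * X)) := by
            gcongr
        _ = (q * X) ^ m := by
            rw [Real.exp_nat_mul, Real.exp_log (by positivity)]
    calc ‖g ⟨X, y⟩‖ * Real.exp (m * (Real.log (q * ‖(⟨X, y⟩ : ℂ)‖) *
          (1 - 2 / Real.pi * (⟨X, y⟩ : ℂ).arg))) * (‖(⟨X, y⟩ : ℂ)‖ / (2 * H)) ^ ε * ‖VH H ⟨X, y⟩‖ ^ m
        ≤ (K / X ^ m) * (q * X) ^ m * 1 * 2 := by
          gcongr
          exact h2 X y hX le_rfl hy1 hy2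
      _ = 2 * K * q ^ m := by
          rw [mul_pow]; field_simp
      _ ≤ M := h3
  · -- bottom
    intro x hx1 hx2
    by_cases hx : x = 0
    · have : (⟨x, 0⟩ : ℂ) = 0 := by rw [hx]; rfl
      rw [this, hG0, norm_zero]; exact hM
    · have hx0 : 0 < x := lt_of_le_of_ne hx1 (Ne.symm hx)
      have hz : (⟨x, 0⟩ : ℂ) ≠ 0 := by
        intro h
        exact hx (congrArg Complex.re h)
      rw [hGn _ hz]
      have e1 : (⟨x, 0⟩ : ℂ) = (x : ℂ) := rfl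
      have e2 : (⟨x, 0⟩ : ℂ).arg = 0 := by rw [e1]; exact Complex.arg_ofReal_of_nonneg hx1
      have e3 : ‖(⟨x, 0⟩ : ℂ)‖ = x := by rw [e1]; exact Complex.norm_of_nonneg hx1
      have f1 := hcut ⟨x, 0⟩ hx1 hx2 le_rfl hH.le
      have f2 := norm_VH_pow hH (z := ⟨x, 0⟩) hx1 hx2 le_rfl hH.le h7
      have f4 : Real.exp (m * (Real.log (q * ‖(⟨x, 0⟩ : ℂ)‖) * (1 - 2 / Real.pi * (⟨x, 0⟩ : ℂ).arg))) =
          (q * x) ^ m := by
        rw [e2, e3, mul_zero, sub_zero, mul_one, Real.exp_nat_mul, Real.exp_log (by positivity)]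
      rw [f4]
      calc ‖g ⟨x, 0⟩‖ * (q * x) ^ m * (‖(⟨x, 0⟩ : ℂ)‖ / (2 * H)) ^ ε * ‖VH H ⟨x, 0⟩‖ ^ m
          ≤ (K / x ^ m) * (q * x) ^ m * 1 * 2 := by
            gcongr
            exact h2 x 0 hx0 hx2 le_rfl hH.le
        _ = 2 * K * q ^ m := by
            rw [mul_pow]; field_simp
        _ ≤ M := h3
  · -- top
    intro x hx1 hx2
    have hz : (⟨x, H⟩ : ℂ) ≠ 0 := by
      intro h
      have := congrArg Complex.im h
      simp at this
      linarith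
    rw [hGn _ hz, norm_VH_top hH (z := ⟨x, H⟩) hx1 rfl]
    by_cases hx : x = 0
    · have : ((⟨x, H⟩ : ℂ).re / H) ^ m = 0 := by
        rw [hx]
        simp
        omega
      rw [this, mul_zero]; exact hM
    · have hx0 : 0 < x := lt_of_le_of_ne hx1 (Ne.symm hx)
      have f1 := hcut ⟨x, H⟩ hx1 hx2 hH.le le_rfl
      have f3 := expo_top hq hH h5 h6 (z := ⟨x, H⟩) hx1 hx2 rfl
      have f4 : Real.exp (m * (Real.log (q * ‖(⟨x, H⟩ : ℂ)‖) *
          (1 - 2 / Real.pi * (⟨x, H⟩ : ℂ).arg))) ≤ (q * H) ^ m := by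
        calc _ ≤ Real.exp (m * Real.log (q * H)) := by
              gcongr
          _ = (q * H) ^ m := by
              rw [Real.exp_nat_mul, Real.exp_log (by positivity)]
      calc ‖g ⟨x, H⟩‖ * Real.exp (m * (Real.log (q * ‖(⟨x, H⟩ : ℂ)‖) *
            (1 - 2 / Real.pi * (⟨x, H⟩ : ℂ).arg))) * (‖(⟨x, H⟩ : ℂ)‖ / (2 * H)) ^ ε *
            ((⟨x, H⟩ : ℂ).re / H) ^ m
          ≤ (K / x ^ m) * (q * H) ^ m * 1 * (x / H) ^ m := by
            gcongr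
            exact h2 x H hx0 hx2 hH.le le_rfl
        _ = K * q ^ m := by
            rw [mul_pow, div_pow]; field_simp
        _ ≤ 2 * K * q ^ m := by
            have : 0 ≤ K * q ^ m := by positivity
            linarith
        _ ≤ M := h3

/-- The core estimate. -/
theorem quad_main {g : ℂ → ℂ} {M K q X H : ℝ} {m : ℕ} (hm0 : 1 ≤ m) (hM : 0 ≤ M) (hK : 0 ≤ K)
    (hq : 0 < q) (hX : 0 < X)
    (hc : ContinuousOn g (Icc 0 X ×ℂ Icc 0 H)) (hd : DifferentiableOn ℂ g (Ioo 0 X ×ℂ Ioo 0 H))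
    (h1 : ∀ τ, 0 ≤ τ → τ ≤ H → ‖g ⟨0, τ⟩‖ ≤ M)
    (h2 : ∀ x τ, 0 < x → x ≤ X → 0 ≤ τ → τ ≤ H → ‖g ⟨x, τ⟩‖ ≤ K / x ^ m)
    (h3 : 2 * K * q ^ m ≤ M) (h4 : Real.exp 1 ≤ q * X) (h5 : X ≤ H / 2) (h6 : 2 ≤ q * H)
    (h7 : m * X ^ 2 ≤ H ^ 2)
    {z : ℂ} (hz0 : z ≠ 0) (hz1 : 0 ≤ z.re) (hz2 : z.re ≤ X) (hz3 : 0 ≤ z.im) (hz4 : z.im ≤ H) :
    ‖g z‖ * Real.exp (m * (Real.log (q * ‖z‖) * (1 - 2 / Real.pi * z.arg))) *
      ‖VH H z‖ ^ m ≤ M := by
  have hH : 0 < H := by linarith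
  have hz : 0 < ‖z‖ / (2 * H) := div_pos (norm_pos_iff.2 hz0) (by positivity)
  have ht : Tendsto (fun ε : ℝ => ‖g z‖ * Real.exp (m * (Real.log (q * ‖z‖) *
      (1 - 2 / Real.pi * z.arg))) * (‖z‖ / (2 * H)) ^ ε * ‖VH H z‖ ^ m) (𝓝[>] 0)
      (𝓝 (‖g z‖ * Real.exp (m * (Real.log (q * ‖z‖) *
      (1 - 2 / Real.pi * z.arg))) * (‖z‖ / (2 * H)) ^ (0 : ℝ) * ‖VH H z‖ ^ m)) := by
    have hcont : Continuous (fun ε : ℝ => ‖g z‖ * Real.exp (m * (Real.log (q * ‖z‖) *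
      (1 - 2 / Real.pi * z.arg))) * (‖z‖ / (2 * H)) ^ ε * ‖VH H z‖ ^ m) :=
      (continuous_const.mul (Real.continuous_const_rpow hz.ne')).mul continuous_const
    exact (hcont.tendsto 0).mono_left nhdsWithin_le_nhds
  rw [Real.rpow_zero, mul_one] at ht
  refine le_of_tendsto ht ?_
  filter_upwards [self_mem_nhdsWithin] with ε hε
  exact quad_eps hm0 hM hK hq hX hc hd h1 h2 h3 h4 h5 h6 h7 hε hz0 hz1 hz2 hz3 hz4

/-- Decay of `g` on the line `Im z = ρ`. -/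
theorem quad_decay {g : ℂ → ℂ} {M K q X H ρ : ℝ} {m : ℕ} (hm0 : 1 ≤ m) (hM : 0 ≤ M) (hK : 0 ≤ K)
    (hq : 0 < q) (hX : 0 < X)
    (hc : ContinuousOn g (Icc 0 X ×ℂ Icc 0 H)) (hd : DifferentiableOn ℂ g (Ioo 0 X ×ℂ Ioo 0 H))
    (h1 : ∀ τ, 0 ≤ τ → τ ≤ H → ‖g ⟨0, τ⟩‖ ≤ M)
    (h2 : ∀ x τ, 0 < x → x ≤ X → 0 ≤ τ → τ ≤ H → ‖g ⟨x, τ⟩‖ ≤ K / x ^ m)
    (h3 : 2 * K * q ^ m ≤ M) (h4 : Real.exp 1 ≤ q * X) (h5 : X ≤ H / 2) (h6 : 2 ≤ q * H)
    (h7 : m * X ^ 2 ≤ H ^ 2) (hρ : 0 < ρ) (hqρ : 1 ≤ q * ρ) (hρH : 10 * m * ρ ≤ H) {x : ℝ}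
    (hx0 : 0 ≤ x) (hxX : x ≤ X) :
    ‖g ⟨x, ρ⟩‖ ≤ 10 / 9 * M *
      Real.exp (-(m * Real.log (q * ρ) * (2 / Real.pi) / (X + ρ) * x)) := by
  have hH : 0 < H := by linarith
  have hm1 : (1 : ℝ) ≤ m := by exact_mod_cast hm0
  have hρH' : ρ ≤ H := by nlinarith
  have hz0 : (⟨x, ρ⟩ : ℂ) ≠ 0 := by
    intro h
    have := congrArg Complex.im h
    simp at this
    linarith
  have h := quad_main hm0 hM hK hq hX hc hd h1 h2 h3 h4 h5 h6 h7 hz0 (z := ⟨x, ρ⟩) hx0 hxX hρ.le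
    hρH'
  obtain ⟨b1, -, b3⟩ := ang_facts hz0 hx0 hρ.le
  have hn1 : ρ ≤ ‖(⟨x, ρ⟩ : ℂ)‖ := Complex.im_le_norm (⟨x, ρ⟩ : ℂ)
  have hn2 : ‖(⟨x, ρ⟩ : ℂ)‖ ≤ X + ρ := by
    have := Complex.norm_le_abs_re_add_abs_im (⟨x, ρ⟩ : ℂ)
    simp only [abs_of_nonneg hx0, abs_of_pos hρ] at this
    linarith
  have hn0 : 0 < ‖(⟨x, ρ⟩ : ℂ)‖ := by linarith
  have hl0 : 0 ≤ Real.log (q * ρ) := Real.log_nonneg hqρ
  have hl : Real.log (q * ρ) ≤ Real.log (q * ‖(⟨x, ρ⟩ : ℂ)‖) :=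
    Real.log_le_log (by positivity) (by gcongr)
  have h8 : m * Real.log (q * ρ) * (2 / Real.pi) / (X + ρ) * x ≤
      m * (Real.log (q * ‖(⟨x, ρ⟩ : ℂ)‖) * (1 - 2 / Real.pi * (⟨x, ρ⟩ : ℂ).arg)) := by
    have h9 : 2 / Real.pi * (x / (X + ρ)) ≤ 1 - 2 / Real.pi * (⟨x, ρ⟩ : ℂ).arg := by
      refine le_trans ?_ b3
      have hp := Real.pi_pos
      gcongr
    calc m * Real.log (q * ρ) * (2 / Real.pi) / (X + ρ) * x
        = m * (Real.log (q * ρ) * (2 / Real.pi * (x / (X + ρ)))) := by ring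
      _ ≤ m * (Real.log (q * ‖(⟨x, ρ⟩ : ℂ)‖) * (1 - 2 / Real.pi * (⟨x, ρ⟩ : ℂ).arg)) := by
          have hp := Real.pi_pos
          gcongr
          exact hl0.trans hl
  have h10 := norm_VH_ge (m := m) hH (z := ⟨x, ρ⟩) hρ.le hρH hρH'
  have h11 : ‖g ⟨x, ρ⟩‖ * Real.exp (m * Real.log (q * ρ) * (2 / Real.pi) / (X + ρ) * x) * (9 / 10) ≤
      M := by
    refine le_trans ?_ h
    gcongr
  rw [Real.exp_neg]
  have hE := Real.exp_pos (m * Real.log (q * ρ) * (2 / Real.pi) / (X + ρ) * x)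
  rw [← div_eq_mul_inv, le_div_iff₀ hE]
  linarith

end Pool.Agent.R307
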