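import Pool.Agent.R307.Quad

set_option autoImplicit false

/-! The comparison of a function with its derivative in a quarter plane. -/

namespace Pool.Agent.R307

open Complex Set Filter Topology

lemma hasDerivAt_vert {F : ℂ → ℂ} {d : ℂ} {x t : ℝ} (h : HasDerivAt F d ⟨x, t⟩) :
    HasDerivAt (fun t : ℝ => F ⟨x, t⟩) (I * d) t := by
  have h2 : HasDerivAt (fun t : ℝ => (⟨x, t⟩ : ℂ)) I t := by
    have : (fun t : ℝ => (⟨x, t⟩ : ℂ)) = fun t : ℝ => (x : ℂ) + t * I := by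
      funext t
      apply Complex.ext <;> simp
    rw [this]
    have h3 : HasDerivAt (fun t : ℝ => (t : ℂ)) 1 t := Complex.ofRealCLM.hasDerivAt
    simpa using (h3.mul_const I).const_add (x : ℂ)
  have h4 := HasDerivAt.scomp (g₁ := F) (h := fun t : ℝ => (⟨x, t⟩ : ℂ)) t h h2
  rw [smul_eq_mul] at h4
  exact h4

lemma hasDerivAt_horiz {F : ℂ → ℂ} {d : ℂ} {x t : ℝ} (h : HasDerivAt F d ⟨x, t⟩) :
    HasDerivAt (fun x : ℝ => F ⟨x, t⟩) d x := by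
  have h2 : HasDerivAt (fun x : ℝ => (⟨x, t⟩ : ℂ)) 1 x := by
    have : (fun x : ℝ => (⟨x, t⟩ : ℂ)) = fun x : ℝ => (x : ℂ) + t * I := by
      funext x
      apply Complex.ext <;> simp
    rw [this]
    have h3 : HasDerivAt (fun x : ℝ => (x : ℂ)) 1 x := Complex.ofRealCLM.hasDerivAt
    exact h3.add_const _
  have h4 := HasDerivAt.scomp (g₁ := F) (h := fun x : ℝ => (⟨x, t⟩ : ℂ)) x h h2
  rw [smul_eq_mul, one_mul] at h4
  exact h4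

/-- The value of `F` at the corner when the derivative is small on the left side. -/
theorem quad_final {F g : ℂ → ℂ} {M K q X H ρ : ℝ} {m : ℕ} (hm0 : 1 ≤ m) (hM : 0 ≤ M) (hK : 0 ≤ K)
    (hq : 0 < q) (hX : 0 < X)
    (hF : ∀ z : ℂ, 0 ≤ z.re → z.re ≤ X → 0 ≤ z.im → z.im ≤ H → HasDerivAt F (g z) z)
    (hg : ∀ z : ℂ, 0 ≤ z.re → z.re ≤ X → 0 ≤ z.im → z.im ≤ H → DifferentiableAt ℂ g z)
    (h1 : ∀ τ, 0 ≤ τ → τ ≤ H → ‖g ⟨0, τ⟩‖ ≤ M)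
    (h2 : ∀ x τ, 0 < x → x ≤ X → 0 ≤ τ → τ ≤ H → ‖g ⟨x, τ⟩‖ ≤ K / x ^ m)
    (h3 : 2 * K * q ^ m ≤ M) (h4 : Real.exp 1 ≤ q * X) (h5 : X ≤ H / 2) (h6 : 2 ≤ q * H)
    (h7 : m * X ^ 2 ≤ H ^ 2) (hρ : 0 < ρ) (hqρ : 1 < q * ρ) (hρH : 10 * m * ρ ≤ H) :
    ‖F 0‖ ≤ ρ * M + 10 / 9 * M / (m * Real.log (q * ρ) * (2 / Real.pi) / (X + ρ)) +
      ‖F ⟨X, ρ⟩‖ := by
  have hm1 : (1 : ℝ) ≤ m := by exact_mod_cast hm0
  have hH : 0 < H := by linarith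
  have hρH' : ρ ≤ H := by nlinarith
  have hlog : 0 < Real.log (q * ρ) := Real.log_pos hqρ
  have hp := Real.pi_pos
  obtain ⟨lam, hlam⟩ : ∃ lam : ℝ, lam = m * Real.log (q * ρ) * (2 / Real.pi) / (X + ρ) := ⟨_, rfl⟩
  have hlam0 : 0 < lam := by rw [hlam]; positivity
  rw [← hlam]
  -- vertical step
  have s1 : ‖F ⟨0, ρ⟩ - F ⟨0, 0⟩‖ ≤ M * (ρ - 0) := by
    refine norm_image_sub_le_of_norm_deriv_le_segment' (f := fun t : ℝ => F ⟨0, t⟩)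
      (f' := fun t => I * g ⟨0, t⟩) (C := M) (a := 0) (b := ρ) ?_ ?_ ρ ⟨hρ.le, le_rfl⟩
    · intro t ht
      exact (hasDerivAt_vert (hF ⟨0, t⟩ le_rfl hX.le ht.1 (ht.2.trans hρH'))).hasDerivWithinAt
    · intro t ht
      rw [norm_mul, norm_I, one_mul]
      exact h1 t ht.1 (ht.2.le.trans hρH')
  -- horizontal step
  have hdec : ∀ x, 0 ≤ x → x ≤ X → ‖g ⟨x, ρ⟩‖ ≤ 10 / 9 * M * Real.exp (-(lam * x)) := by
    intro x hx0 hxX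
    rw [hlam]
    exact quad_decay hm0 hM hK hq hX
      (fun z hz => (hg z (mem_rect.1 hz).1.1 (mem_rect.1 hz).1.2 (mem_rect.1 hz).2.1
        (mem_rect.1 hz).2.2).continuousAt.continuousWithinAt)
      (fun z hz => (hg z hz.1.1.le hz.1.2.le hz.2.1.le hz.2.2.le).differentiableWithinAt)
      h1 h2 h3 h4 h5 h6 h7 hρ hqρ.le hρH hx0 hxX
  have s2 : ‖F ⟨X, ρ⟩ - F ⟨0, ρ⟩‖ ≤ 10 / 9 * M / lam := by
    have hder : ∀ x ∈ Icc (0:ℝ) X, HasDerivAt (fun x : ℝ => F ⟨x, ρ⟩ - F ⟨0, ρ⟩) (g ⟨x, ρ⟩) x :=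
      fun x hx => (hasDerivAt_horiz (hF ⟨x, ρ⟩ hx.1 hx.2 hρ.le hρH')).sub_const _
    have hB : ∀ x : ℝ, HasDerivAt (fun x : ℝ => 10 / 9 * M * ((1 - Real.exp (-(lam * x))) / lam))
        (10 / 9 * M * Real.exp (-(lam * x))) x := by
      intro x
      have e1 : HasDerivAt (fun x : ℝ => -(lam * x)) (-(lam * 1)) x :=
        ((hasDerivAt_id x).const_mul lam).neg
      have e2 := ((e1.exp.const_sub 1).div_const lam).const_mul (10 / 9 * M)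
      refine e2.congr_deriv ?_
      field_simp
    have h := image_norm_le_of_norm_deriv_right_le_deriv_boundary
      (f := fun x : ℝ => F ⟨x, ρ⟩ - F ⟨0, ρ⟩) (f' := fun x => g ⟨x, ρ⟩) (a := 0) (b := X)
      (B := fun x : ℝ => 10 / 9 * M * ((1 - Real.exp (-(lam * x))) / lam))
      (B' := fun x : ℝ => 10 / 9 * M * Real.exp (-(lam * x)))
      (fun x hx => (hder x hx).continuousAt.continuousWithinAt)
      (fun x hx => (hder x ⟨hx.1, hx.2.le⟩).hasDerivWithinAt)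
      (by simp) hB (fun x hx => hdec x hx.1 hx.2.le) (x := X) ⟨hX.le, le_rfl⟩
    refine h.trans ?_
    rw [mul_div_assoc]
    have hE := Real.exp_pos (-(lam * X))
    calc 10 / 9 * M * ((1 - Real.exp (-(lam * X))) / lam) ≤ 10 / 9 * M * (1 / lam) := by
          gcongr
          linarith
      _ = 10 / 9 * (M / lam) := by ring
      _ = _ := by ring
  have e0 : (⟨0, 0⟩ : ℂ) = 0 := rfl
  rw [e0] at s1
  have e1 : F 0 = F ⟨X, ρ⟩ - (F ⟨X, ρ⟩ - F ⟨0, ρ⟩) - (F ⟨0, ρ⟩ - F 0) := by ring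
  calc ‖F 0‖ = ‖F ⟨X, ρ⟩ - (F ⟨X, ρ⟩ - F ⟨0, ρ⟩) - (F ⟨0, ρ⟩ - F 0)‖ := by rw [← e1]
    _ ≤ ‖F ⟨X, ρ⟩‖ + ‖F ⟨X, ρ⟩ - F ⟨0, ρ⟩‖ + ‖F ⟨0, ρ⟩ - F 0‖ :=
        (norm_sub_le _ _).trans (by gcongr; exact norm_sub_le _ _)
    _ ≤ ‖F ⟨X, ρ⟩‖ + 10 / 9 * M / lam + M * (ρ - 0) := by gcongr
    _ = _ := by ring

end Pool.Agent.R307
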