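import Mathlib

set_option autoImplicit false

/-! The maximum principle on a rectangle. -/

namespace Pool.Agent.R307

open Complex Set

/-- The maximum principle on a closed rectangle. -/
theorem rect_max {f : ℂ → ℂ} {a b c d C : ℝ} (hab : a < b) (hcd : c < d)
    (hc : ContinuousOn f (Icc a b ×ℂ Icc c d)) (hd : DifferentiableOn ℂ f (Ioo a b ×ℂ Ioo c d))
    (hleft : ∀ y, c ≤ y → y ≤ d → ‖f ⟨a, y⟩‖ ≤ C) (hright : ∀ y, c ≤ y → y ≤ d → ‖f ⟨b, y⟩‖ ≤ C)
    (hbot : ∀ x, a ≤ x → x ≤ b → ‖f ⟨x, c⟩‖ ≤ C) (htop : ∀ x, a ≤ x → x ≤ b → ‖f ⟨x, d⟩‖ ≤ C)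
    {z : ℂ} (hz1 : a ≤ z.re) (hz2 : z.re ≤ b) (hz3 : c ≤ z.im) (hz4 : z.im ≤ d) : ‖f z‖ ≤ C := by
  have hcl : closure (Ioo a b ×ℂ Ioo c d) = Icc a b ×ℂ Icc c d := by
    rw [closure_reProdIm, closure_Ioo hab.ne, closure_Ioo hcd.ne]
  refine Complex.norm_le_of_forall_mem_frontier_norm_le
    (U := Ioo a b ×ℂ Ioo c d) ((Metric.isBounded_Ioo _ _).reProdIm (Metric.isBounded_Ioo _ _))
    ⟨hd, by rw [hcl]; exact hc⟩ ?_ ?_
  · intro w hw
    rw [frontier_reProdIm, closure_Ioo hab.ne, closure_Ioo hcd.ne, frontier_Ioo hab,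
      frontier_Ioo hcd] at hw
    have ew : w = ⟨w.re, w.im⟩ := rfl
    rcases hw with hw | hw
    · obtain ⟨hw1, hw2⟩ := hw
      rcases hw2 with hw2 | hw2
      · rw [ew]
        have : w.im = c := hw2
        rw [this]
        exact hbot _ hw1.1 hw1.2
      · rw [ew]
        have : w.im = d := hw2
        rw [this]
        exact htop _ hw1.1 hw1.2
    · obtain ⟨hw1, hw2⟩ := hw
      rcases hw1 with hw1 | hw1
      · rw [ew]
        have : w.re = a := hw1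
        rw [this]
        exact hleft _ hw2.1 hw2.2
      · rw [ew]
        have : w.re = b := hw1
        rw [this]
        exact hright _ hw2.1 hw2.2
  · rw [hcl]
    exact ⟨⟨hz1, hz2⟩, hz3, hz4⟩

end Pool.Agent.R307
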