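import Pool.Agent.R307.Par

set_option autoImplicit false

/-! A lower bound for the derivatives of zeta to the right of `Re s = 1`. -/

namespace Pool.Agent.R307

open Complex Set Filter Topology MeasureTheory

/-- The resonator. -/
noncomputable def Rn (N : ℕ) (t : ℝ) : ℂ :=
  ∑ n ∈ Finset.Ioc N (2 * N), Complex.exp ((Real.log n * t : ℝ) * I)

lemma Rn_cont (N : ℕ) : Continuous (Rn N) := by
  unfold Rn
  fun_prop

lemma Rn_sq (N : ℕ) (t : ℝ) : ((‖Rn N t‖ ^ 2 : ℝ) : ℂ) =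
    ∑ n ∈ Finset.Ioc N (2 * N), ∑ m ∈ Finset.Ioc N (2 * N),
      Complex.exp (((Real.log n - Real.log m) * t : ℝ) * I) := by
  have h1 : ((‖Rn N t‖ ^ 2 : ℝ) : ℂ) = Rn N t * (starRingEnd ℂ) (Rn N t) := by
    rw [Complex.mul_conj, Complex.normSq_eq_norm_sq]
  rw [h1]
  unfold Rn
  rw [map_sum, Finset.sum_mul_sum]
  refine Finset.sum_congr rfl fun n _ => Finset.sum_congr rfl fun m _ => ?_
  rw [← Complex.exp_conj, ← Complex.exp_add]
  congr 1
  rw [map_mul, Complex.conj_ofReal, Complex.conj_I]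
  push_cast
  ring

lemma res_sq {N : ℕ} {a b : ℝ} (hab : a < b)
    (hL : 24 * N * (2 * N + 1) ^ 2 ≤ (b - a) ^ 2) :
    ∫ t in a..b, wp a b t * ‖Rn N t‖ ^ 2 ≤ 2 * N * ((b - a) ^ 3 / 6) := by
  have hL0 : 0 < b - a := by linarith
  have e : ((∫ t in a..b, wp a b t * ‖Rn N t‖ ^ 2 : ℝ) : ℂ) =
      ∑ n ∈ Finset.Ioc N (2 * N), ∑ m ∈ Finset.Ioc N (2 * N), Ew a b (Real.log n - Real.log m) := by
    rw [← intervalIntegral.integral_ofReal]
    have e1 : (fun t : ℝ => ((wp a b t * ‖Rn N t‖ ^ 2 : ℝ) : ℂ)) = fun t =>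
        ∑ n ∈ Finset.Ioc N (2 * N), ∑ m ∈ Finset.Ioc N (2 * N),
        (wp a b t : ℂ) * Complex.exp (((Real.log n - Real.log m) * t : ℝ) * I) := by
      funext t
      rw [Complex.ofReal_mul, Rn_sq, Finset.mul_sum]
      exact Finset.sum_congr rfl fun n _ => Finset.mul_sum _ _ _
    rw [e1, intervalIntegral.integral_finsetSum]
    · refine Finset.sum_congr rfl fun n _ => ?_
      rw [intervalIntegral.integral_finsetSum]
      · rfl
      · intro m _
        apply Continuous.intervalIntegrable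
        have := wp_cont a b
        fun_prop
    · intro n _
      apply Continuous.intervalIntegrable
      have := wp_cont a b
      fun_prop
  have h1 : ∫ t in a..b, wp a b t * ‖Rn N t‖ ^ 2 ≤
      ‖((∫ t in a..b, wp a b t * ‖Rn N t‖ ^ 2 : ℝ) : ℂ)‖ := by
    rw [Complex.norm_real]
    exact Real.le_norm_self _
  refine h1.trans ?_
  rw [e]
  have h2 : ∀ n ∈ Finset.Ioc N (2 * N), ∀ m ∈ Finset.Ioc N (2 * N),
      ‖Ew a b (Real.log n - Real.log m)‖ ≤
        (if n = m then (b - a) ^ 3 / 6 else 0) + 4 * (b - a) * (2 * N + 1) ^ 2 := by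
    intro n hn m hm
    rw [Finset.mem_Ioc] at hn hm
    by_cases hnm : n = m
    · subst hnm
      rw [if_pos rfl, sub_self, Ew_zero, Complex.norm_of_nonneg (by positivity)]
      have : 0 ≤ 4 * (b - a) * (2 * (N:ℝ) + 1) ^ 2 := by positivity
      linarith
    · rw [if_neg hnm, zero_add]
      exact Ew_gap hab.le (by omega) hn.2 (by omega) hnm
  have hcard : ((Finset.Ioc N (2 * N)).card : ℝ) = N := by
    rw [Nat.card_Ioc]
    have : 2 * N - N = N := by omega
    rw [this]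
  calc ‖∑ n ∈ Finset.Ioc N (2 * N), ∑ m ∈ Finset.Ioc N (2 * N), Ew a b (Real.log n - Real.log m)‖
      ≤ ∑ n ∈ Finset.Ioc N (2 * N), ∑ m ∈ Finset.Ioc N (2 * N),
        ((if n = m then (b - a) ^ 3 / 6 else 0) + 4 * (b - a) * (2 * N + 1) ^ 2) := by
        refine norm_sum_le_of_le _ fun n hn => ?_
        exact norm_sum_le_of_le _ fun m hm => h2 n hn m hm
    _ = ∑ n ∈ Finset.Ioc N (2 * N), ((b - a) ^ 3 / 6 + N * (4 * (b - a) * (2 * N + 1) ^ 2)) := by
        refine Finset.sum_congr rfl fun n hn => ?_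
        rw [Finset.sum_add_distrib, Finset.sum_const, nsmul_eq_mul, hcard, Finset.sum_ite_eq,
          if_pos hn]
    _ = N * ((b - a) ^ 3 / 6 + N * (4 * (b - a) * (2 * N + 1) ^ 2)) := by
        rw [Finset.sum_const, nsmul_eq_mul, hcard]
    _ ≤ N * ((b - a) ^ 3 / 6 + (b - a) ^ 3 / 6) := by
        gcongr
        calc N * (4 * (b - a) * (2 * N + 1) ^ 2) = (b - a) * (24 * N * (2 * N + 1) ^ 2) / 6 := by ring
          _ ≤ (b - a) * (b - a) ^ 2 / 6 := by gcongr
          _ = (b - a) ^ 3 / 6 := by ring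
    _ = _ := by ring

/-- The resonator bound. -/
theorem reson {k N : ℕ} (hN : 1 ≤ N) {σ a b S Z : ℝ} (hσ : 1 < σ) (hab : a < b)
    (hS : 0 ≤ S) (hsup : ∀ t ∈ Icc a b, ‖zd k ⟨σ, t⟩‖ ≤ S) (hZ : ∑' n, ak k σ n ≤ Z)
    (hL : 24 * N * (2 * N + 1) ^ 2 ≤ (b - a) ^ 2) :
    N * Real.log N ^ k * (2 * N : ℝ) ^ (-σ) - 24 * N * (2 * N + 1) ^ 2 * Z / (b - a) ^ 2 ≤
      S * Real.sqrt (2 * N) := by
  have hN0 : (0:ℝ) < N := by exact_mod_cast hN
  have hL0 : 0 < b - a := by linarith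
  obtain ⟨W, hW⟩ : ∃ W : ℝ, W = (b - a) ^ 3 / 6 := ⟨_, rfl⟩
  have hW0 : 0 < W := by rw [hW]; positivity
  obtain ⟨c, hc⟩ : ∃ c : ℝ, c = Real.sqrt (2 * N) := ⟨_, rfl⟩
  have hc0 : 0 < c := by rw [hc]; positivity
  have hc2 : c * c = 2 * N := by rw [hc]; exact Real.mul_self_sqrt (by positivity)
  rw [← hc]
  obtain ⟨J, hJ⟩ : ∃ J : ℂ, J = ∫ t in a..b, (wp a b t : ℂ) * zd k ⟨σ, t⟩ * Rn N t := ⟨_, rfl⟩
  have hzc := zd_line_cont k hσ
  -- upper bound
  have hup : ‖J‖ ≤ S * c * W := by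
    have h1 : ‖J‖ ≤ ∫ t in a..b, S * (wp a b t * (c / 2) + wp a b t * ‖Rn N t‖ ^ 2 * (1 / (2 * c))) := by
      rw [hJ]
      refine intervalIntegral.norm_integral_le_of_norm_le hab.le ?_ ?_
      · refine ae_of_all _ fun t ht => ?_
        have hw := wp_nonneg ht.1.le ht.2
        rw [norm_mul, norm_mul, Complex.norm_of_nonneg hw]
        have h2 : ‖Rn N t‖ ≤ c / 2 + ‖Rn N t‖ ^ 2 * (1 / (2 * c)) := by
          have : 0 ≤ (c - ‖Rn N t‖) ^ 2 / (2 * c) := by positivity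
          have e : (c - ‖Rn N t‖) ^ 2 / (2 * c) = c / 2 + ‖Rn N t‖ ^ 2 * (1 / (2 * c)) - ‖Rn N t‖ := by
            field_simp
            ring
          linarith
        calc wp a b t * ‖zd k ⟨σ, t⟩‖ * ‖Rn N t‖ ≤
              wp a b t * S * (c / 2 + ‖Rn N t‖ ^ 2 * (1 / (2 * c))) := by
              gcongr
              exact hsup t ⟨ht.1.le, ht.2⟩
          _ = _ := by ring
      · apply Continuous.intervalIntegrable
        have h1 := wp_cont a b
        have h2 := Rn_cont N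
        fun_prop
    refine h1.trans ?_
    have h1 := wp_cont a b
    have h2 := Rn_cont N
    rw [intervalIntegral.integral_const_mul, intervalIntegral.integral_add
      (by apply Continuous.intervalIntegrable; fun_prop)
      (by apply Continuous.intervalIntegrable; fun_prop), intervalIntegral.integral_mul_const,
      intervalIntegral.integral_mul_const, wp_integral, ← hW]
    have h3 := res_sq hab hL
    rw [← hW] at h3
    calc S * (W * (c / 2) + (∫ t in a..b, wp a b t * ‖Rn N t‖ ^ 2) * (1 / (2 * c)))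
        ≤ S * (W * (c / 2) + (2 * N * W) * (1 / (2 * c))) := by gcongr
      _ = S * c * W := by
          rw [← hc2]
          field_simp
          ring
  -- lower bound
  have hJs : J = ∑ n ∈ Finset.Ioc N (2 * N),
      ∫ t in a..b, (wp a b t : ℂ) * zd k ⟨σ, t⟩ * Complex.exp ((Real.log n * t : ℝ) * I) := by
    rw [hJ, ← intervalIntegral.integral_finsetSum]
    · refine intervalIntegral.integral_congr fun t _ => ?_
      simp only [Rn]
      rw [Finset.mul_sum]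
    · intro n _
      apply Continuous.intervalIntegrable
      have := wp_cont a b
      fun_prop
  have hcard : ((Finset.Ioc N (2 * N)).card : ℝ) = N := by
    rw [Nat.card_Ioc]
    have : 2 * N - N = N := by omega
    rw [this]
  have hlow : ‖J - ∑ n ∈ Finset.Ioc N (2 * N), (-1) ^ k * ((ak k σ n * W : ℝ) : ℂ)‖ ≤
      N * (4 * (b - a) * (2 * N + 1) ^ 2 * Z) := by
    rw [hJs, ← Finset.sum_sub_distrib]
    have h1 : ∀ n ∈ Finset.Ioc N (2 * N), ‖(∫ t in a..b, (wp a b t : ℂ) * zd k ⟨σ, t⟩ *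
        Complex.exp ((Real.log n * t : ℝ) * I)) - (-1) ^ k * ((ak k σ n * W : ℝ) : ℂ)‖ ≤
        4 * (b - a) * (2 * N + 1) ^ 2 * Z := by
      intro n hn
      rw [Finset.mem_Ioc] at hn
      rw [hW]
      exact mean_single hσ hab.le hZ (by omega) hn.2
    refine (norm_sum_le_of_le _ h1).trans ?_
    rw [Finset.sum_const, nsmul_eq_mul, hcard]
  have hsum : ‖∑ n ∈ Finset.Ioc N (2 * N), (-1) ^ k * ((ak k σ n * W : ℝ) : ℂ)‖ =
      (∑ n ∈ Finset.Ioc N (2 * N), ak k σ n) * W := by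
    rw [← Finset.mul_sum, ← Complex.ofReal_sum, norm_mul, norm_pow, norm_neg, norm_one, one_pow,
      one_mul, ← Finset.sum_mul, Complex.norm_of_nonneg]
    exact mul_nonneg (Finset.sum_nonneg fun n _ => ak_nonneg k σ n) hW0.le
  have hak : N * Real.log N ^ k * (2 * N : ℝ) ^ (-σ) ≤ ∑ n ∈ Finset.Ioc N (2 * N), ak k σ n := by
    have h1 : ∀ n ∈ Finset.Ioc N (2 * N), Real.log N ^ k * (2 * N : ℝ) ^ (-σ) ≤ ak k σ n := by
      intro n hn
      rw [Finset.mem_Ioc] at hn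
      have hn1 : (N:ℝ) ≤ n := by exact_mod_cast hn.1.le
      have hn2 : (n:ℝ) ≤ 2 * N := by exact_mod_cast hn.2
      have hn0 : (0:ℝ) < n := by linarith
      unfold ak
      have h2 : Real.log N ≤ Real.log n := Real.log_le_log hN0 hn1
      have h3 : 0 ≤ Real.log N := Real.log_natCast_nonneg N
      have h4 : (2 * N : ℝ) ^ (-σ) ≤ (n:ℝ) ^ (-σ) :=
        Real.rpow_le_rpow_of_nonpos hn0 hn2 (by linarith)
      gcongr
    calc N * Real.log N ^ k * (2 * N : ℝ) ^ (-σ) =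
          ∑ n ∈ Finset.Ioc N (2 * N), Real.log N ^ k * (2 * N : ℝ) ^ (-σ) := by
          rw [Finset.sum_const, nsmul_eq_mul, hcard]; ring
      _ ≤ _ := Finset.sum_le_sum h1
  have h5 : (∑ n ∈ Finset.Ioc N (2 * N), ak k σ n) * W ≤
      S * c * W + N * (4 * (b - a) * (2 * N + 1) ^ 2 * Z) := by
    rw [← hsum]
    have h6 : ∑ n ∈ Finset.Ioc N (2 * N), (-1) ^ k * ((ak k σ n * W : ℝ) : ℂ) =
        J - (J - ∑ n ∈ Finset.Ioc N (2 * N), (-1) ^ k * ((ak k σ n * W : ℝ) : ℂ)) := by ring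
    rw [h6]
    exact (norm_sub_le _ _).trans (add_le_add hup hlow)
  have h7 : N * (4 * (b - a) * (2 * N + 1) ^ 2 * Z) =
      24 * N * (2 * N + 1) ^ 2 * Z / (b - a) ^ 2 * W := by
    rw [hW]
    field_simp
    ring
  rw [h7] at h5
  have h8 : (N * Real.log N ^ k * (2 * N : ℝ) ^ (-σ)) * W ≤
      (∑ n ∈ Finset.Ioc N (2 * N), ak k σ n) * W := by gcongr
  have h9 : (N * Real.log N ^ k * (2 * N : ℝ) ^ (-σ) -
      24 * N * (2 * N + 1) ^ 2 * Z / (b - a) ^ 2) * W ≤ (S * c) * W := by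
    linarith
  exact le_of_mul_le_mul_right h9 hW0

end Pool.Agent.R307
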