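import Pool.Agent.R307.Strip

set_option autoImplicit false

/-! The upper bound of Q1: the substitution `s = σ + i (t₀ ± w²)` near a point of the segment. -/

namespace Pool.Agent.R307

open Complex Set Filter Topology

lemma norm_expw (lam mu x y : ℝ) :
    ‖Complex.exp (-(lam : ℂ) * (⟨x, y⟩ : ℂ) ^ 2 + (mu : ℂ) * I * (⟨x, y⟩ : ℂ))‖ =
      Real.exp (-lam * (x ^ 2 - y ^ 2) - mu * y) := by
  rw [Complex.norm_exp]
  congr 1
  simp [pow_two, Complex.add_re, Complex.mul_re, Complex.mul_im]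
  ring

/-- zeta near a point of the segment is bounded by its maximum over the segment -/
theorem near_bound {σ : ℝ} (hσ : 0 < σ) (hσ1 : σ < 1) : ∃ C T₀ : ℝ, 0 < C ∧ ∀ T : ℝ, T₀ ≤ T →
    ∀ t₀ : ℝ, T ≤ t₀ → t₀ ≤ 2 * T → ∀ s : ℂ, ‖s - ⟨σ, t₀⟩‖ ≤ 1 / Real.log T ^ 2 →
      ‖riemannZeta s‖ ≤ C * max (MM 0 σ T) 1 := by
  obtain ⟨C₁, hC₁, hgr⟩ := zd_growth 0 (σ := σ / 2) (by positivity) 2
  obtain ⟨h, hh⟩ : ∃ h : ℝ, h = σ / 4 := ⟨_, rfl⟩
  have hh0 : 0 < h := by rw [hh]; positivity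
  have hh1 : h ≤ 1 / 4 := by rw [hh]; linarith
  refine ⟨Real.exp (4 + 4 / h), max (max 16 (3 * C₁)) (Real.exp (1 / h)), Real.exp_pos _, ?_⟩
  intro T hT t₀ ht1 ht2 s hs
  have hT16 : 16 ≤ T := ((le_max_left _ _).trans (le_max_left _ _)).trans hT
  have hTC : 3 * C₁ ≤ T := ((le_max_right _ _).trans (le_max_left _ _)).trans hT
  have hTh : Real.exp (1 / h) ≤ T := (le_max_right _ _).trans hT
  have hT0 : 0 < T := by linarith
  obtain ⟨L, hL⟩ : ∃ L : ℝ, L = Real.log T := ⟨_, rfl⟩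
  have hLh : 1 / h ≤ L := by
    rw [hL, Real.le_log_iff_exp_le hT0]; exact hTh
  have hL1 : 4 ≤ L := by
    refine le_trans ?_ hLh
    rw [le_div_iff₀ hh0]; linarith
  have hL0 : 0 < L := by linarith
  have hexpL : Real.exp L = T := by rw [hL, Real.exp_log hT0]
  rw [← hL] at hs
  obtain ⟨m, hm⟩ : ∃ m : ℝ, m = max (MM 0 σ T) 1 := ⟨_, rfl⟩
  have hm1 : 1 ≤ m := by rw [hm]; exact le_max_right _ _
  rw [← hm]
  -- the direction
  obtain ⟨ε, hε2, hε⟩ : ∃ ε : ℝ, ε ^ 2 = 1 ∧ ∀ u : ℝ, 0 ≤ u → u ≤ 1 → T ≤ t₀ + ε * u ∧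
      t₀ + ε * u ≤ 2 * T := by
    by_cases h3 : t₀ ≤ 3 * T / 2
    · exact ⟨1, by norm_num, fun u hu1 hu2 => ⟨by linarith, by linarith⟩⟩
    · push Not at h3
      exact ⟨-1, by norm_num, fun u hu1 hu2 => ⟨by linarith, by linarith⟩⟩
  have hεabs : |ε| = 1 := by
    have : |ε| ^ 2 = 1 := by rw [sq_abs]; exact hε2
    nlinarith [abs_nonneg ε]
  have hεb := abs_le.1 hεabs.le
  obtain ⟨F, hF⟩ : ∃ F : ℂ → ℂ, F = fun w : ℂ => riemannZeta (⟨σ, t₀⟩ + I * (ε : ℂ) * w ^ 2) *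
    Complex.exp (-((4 * L : ℝ) : ℂ) * w ^ 2 + ((4 * L / h : ℝ) : ℂ) * I * w) := ⟨_, rfl⟩
  have harg : ∀ x y : ℝ, (⟨σ, t₀⟩ : ℂ) + I * (ε : ℂ) * (⟨x, y⟩ : ℂ) ^ 2 =
      ⟨σ - 2 * ε * x * y, t₀ + ε * (x ^ 2 - y ^ 2)⟩ := by
    intro x y
    apply Complex.ext
    · simp [pow_two, Complex.mul_re, Complex.mul_im]; ring
    · simp [pow_two, Complex.mul_re, Complex.mul_im]
  have hnorm : ∀ x y : ℝ, ‖F ⟨x, y⟩‖ = ‖riemannZeta ⟨σ - 2 * ε * x * y, t₀ + ε * (x ^ 2 - y ^ 2)⟩‖ *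
      Real.exp (-(4 * L) * (x ^ 2 - y ^ 2) - (4 * L / h) * y) := by
    intro x y
    rw [hF]
    simp only
    rw [norm_mul, norm_expw, harg]
  -- the region
  have hreg : ∀ x y : ℝ, -1 ≤ x → x ≤ 1 → 0 ≤ y → y ≤ h →
      σ / 2 ≤ σ - 2 * ε * x * y ∧ σ - 2 * ε * x * y ≤ 2 ∧ 2 ≤ t₀ + ε * (x ^ 2 - y ^ 2) ∧
        t₀ + ε * (x ^ 2 - y ^ 2) ≤ 3 * T := by
    intro x y hx1 hx2 hy1 hy2
    have h1 : |2 * ε * x * y| ≤ 2 * h := by
      rw [abs_mul, abs_mul, abs_mul, hεabs, abs_of_pos (by norm_num : (0:ℝ) < 2), abs_of_nonneg hy1]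
      have hx : |x| ≤ 1 := abs_le.2 ⟨hx1, hx2⟩
      have := abs_nonneg x
      nlinarith
    have h1' := abs_le.1 h1
    have h2 : |ε * (x ^ 2 - y ^ 2)| ≤ 1 := by
      rw [abs_mul, hεabs, one_mul, abs_le]
      constructor <;> nlinarith
    have h2' := abs_le.1 h2
    rw [hh] at h1'
    refine ⟨by linarith [h1'.2], by linarith [h1'.1], by linarith [h2'.1], by linarith [h2'.2]⟩
  have hgrow : ∀ x y : ℝ, -1 ≤ x → x ≤ 1 → 0 ≤ y → y ≤ h →
      ‖riemannZeta ⟨σ - 2 * ε * x * y, t₀ + ε * (x ^ 2 - y ^ 2)⟩‖ ≤ T ^ 2 := by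
    intro x y hx1 hx2 hy1 hy2
    obtain ⟨h1, h2, h3, h4⟩ := hreg x y hx1 hx2 hy1 hy2
    have h5 := hgr ⟨σ - 2 * ε * x * y, t₀ + ε * (x ^ 2 - y ^ 2)⟩ h1 h2
      (by rw [abs_of_nonneg (by simp only; linarith)]; exact h3)
    rw [abs_of_nonneg (by simp only; linarith), zd_zero] at h5
    refine h5.trans ?_
    calc C₁ * (t₀ + ε * (x ^ 2 - y ^ 2)) ≤ C₁ * (3 * T) := mul_le_mul_of_nonneg_left h4 hC₁.le
      _ = 3 * C₁ * T := by ring
      _ ≤ T * T := mul_le_mul_of_nonneg_right hTC hT0.le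
      _ = T ^ 2 := by ring
  have hdiff : ∀ w : ℂ, -1 ≤ w.re → w.re ≤ 1 → 0 ≤ w.im → w.im ≤ h → DifferentiableAt ℂ F w := by
    intro w h1 h2 h3 h4
    have h5 := hreg w.re w.im h1 h2 h3 h4
    have h6 : (⟨σ, t₀⟩ : ℂ) + I * (ε : ℂ) * w ^ 2 ≠ 1 := by
      have h7 := harg w.re w.im
      rw [show (⟨w.re, w.im⟩ : ℂ) = w from rfl] at h7
      rw [h7]
      exact ne_one_of_im (by simp only; linarith [h5.2.2.1])
    rw [hF]
    refine DifferentiableAt.mul ?_ ?_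
    · exact DifferentiableAt.comp (g := riemannZeta)
        (f := fun w : ℂ => (⟨σ, t₀⟩ : ℂ) + I * (ε : ℂ) * w ^ 2) w (differentiableAt_riemannZeta h6)
        (by fun_prop)
    · fun_prop
  have hbox : ∀ x y : ℝ, -1 ≤ x → x ≤ 1 → 0 ≤ y → y ≤ h → ‖F ⟨x, y⟩‖ ≤ m := by
    intro x y hx1 hx2 hy1 hy2
    refine rect_max (f := F) (a := -1) (b := 1) (c := 0) (d := h) (C := m) (by norm_num) hh0
      ?_ ?_ ?_ ?_ ?_ ?_ (z := ⟨x, y⟩) hx1 hx2 hy1 hy2
    · intro w hw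
      exact (hdiff w hw.1.1 hw.1.2 hw.2.1 hw.2.2).continuousAt.continuousWithinAt
    · intro w hw
      exact (hdiff w hw.1.1.le hw.1.2.le hw.2.1.le hw.2.2.le).differentiableWithinAt
    · -- left side
      intro v hv1 hv2
      rw [hnorm]
      have h1 := hgrow (-1) v le_rfl (by norm_num) hv1 hv2
      have h2 : Real.exp (-(4 * L) * ((-1) ^ 2 - v ^ 2) - (4 * L / h) * v) ≤ 1 / T ^ 2 := by
        rw [← hexpL, ← Real.exp_nat_mul, one_div, ← Real.exp_neg, Real.exp_le_exp]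
        have h3 : v ^ 2 ≤ 1 / 2 := by
          have : v * v ≤ h * h := mul_le_mul hv2 hv2 hv1 hh0.le
          nlinarith
        have h4 : 0 ≤ 4 * L / h * v := by positivity
        have h5 : L * v ^ 2 ≤ L * (1 / 2) := mul_le_mul_of_nonneg_left h3 hL0.le
        push_cast
        linarith
      calc _ ≤ T ^ 2 * (1 / T ^ 2) := mul_le_mul h1 h2 (Real.exp_pos _).le (by positivity)
        _ = 1 := by field_simp
        _ ≤ m := hm1
    · -- right side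
      intro v hv1 hv2
      rw [hnorm]
      have h1 := hgrow 1 v (by norm_num) le_rfl hv1 hv2
      have h2 : Real.exp (-(4 * L) * (1 ^ 2 - v ^ 2) - (4 * L / h) * v) ≤ 1 / T ^ 2 := by
        rw [← hexpL, ← Real.exp_nat_mul, one_div, ← Real.exp_neg, Real.exp_le_exp]
        have h3 : v ^ 2 ≤ 1 / 2 := by
          have : v * v ≤ h * h := mul_le_mul hv2 hv2 hv1 hh0.le
          nlinarith
        have h4 : 0 ≤ 4 * L / h * v := by positivity
        have h5 : L * v ^ 2 ≤ L * (1 / 2) := mul_le_mul_of_nonneg_left h3 hL0.le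
        push_cast
        linarith
      calc _ ≤ T ^ 2 * (1 / T ^ 2) := mul_le_mul h1 h2 (Real.exp_pos _).le (by positivity)
        _ = 1 := by field_simp
        _ ≤ m := hm1
    · -- bottom
      intro u hu1 hu2
      rw [hnorm]
      have hu : u ^ 2 ≤ 1 := by nlinarith
      have h0 := hε (u ^ 2) (sq_nonneg u) hu
      have h1 : ‖riemannZeta ⟨σ - 2 * ε * u * 0, t₀ + ε * (u ^ 2 - 0 ^ 2)⟩‖ ≤ m := by
        have e1 : σ - 2 * ε * u * 0 = σ := by ring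
        have e2 : t₀ + ε * (u ^ 2 - 0 ^ 2) = t₀ + ε * u ^ 2 := by ring
        rw [e1, e2, ← zd_zero]
        refine (le_MM 0 σ hT0 h0.1 h0.2).trans ?_
        rw [hm]; exact le_max_left _ _
      have h2 : Real.exp (-(4 * L) * (u ^ 2 - 0 ^ 2) - (4 * L / h) * 0) ≤ 1 := by
        rw [Real.exp_le_one_iff]
        nlinarith [mul_nonneg hL0.le (sq_nonneg u)]
      calc _ ≤ m * 1 := mul_le_mul h1 h2 (Real.exp_pos _).le (by linarith)
        _ = m := mul_one m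
    · -- top
      intro u hu1 hu2
      rw [hnorm]
      have h1 := hgrow u h hu1 hu2 hh0.le le_rfl
      have h2 : Real.exp (-(4 * L) * (u ^ 2 - h ^ 2) - (4 * L / h) * h) ≤ 1 / T ^ 2 := by
        rw [← hexpL, ← Real.exp_nat_mul, one_div, ← Real.exp_neg, Real.exp_le_exp]
        have h3 : h ^ 2 ≤ 1 / 4 := by nlinarith
        have h4 : 4 * L / h * h = 4 * L := by field_simp
        have h5 : L * h ^ 2 ≤ L * (1 / 4) := mul_le_mul_of_nonneg_left h3 hL0.le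
        have h6 : 0 ≤ L * u ^ 2 := mul_nonneg hL0.le (sq_nonneg u)
        rw [h4]
        push_cast
        linarith
      calc _ ≤ T ^ 2 * (1 / T ^ 2) := mul_le_mul h1 h2 (Real.exp_pos _).le (by positivity)
        _ = 1 := by field_simp
        _ ≤ m := hm1
  -- the point
  obtain ⟨w, hw1, hw2, hw3⟩ : ∃ w : ℂ, (⟨σ, t₀⟩ : ℂ) + I * (ε : ℂ) * w ^ 2 = s ∧ 0 ≤ w.im ∧
      ‖w‖ ≤ 1 / L := by
    have hIε : I * (ε : ℂ) ≠ 0 := by
      apply mul_ne_zero I_ne_zero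
      intro h0
      rw [Complex.ofReal_eq_zero] at h0
      rw [h0] at hε2
      norm_num at hε2
    obtain ⟨w₀, hw₀⟩ : ∃ w₀ : ℂ, w₀ ^ 2 = (s - ⟨σ, t₀⟩) / (I * (ε : ℂ)) :=
      ⟨_, Complex.cpow_nat_inv_pow _ two_ne_zero⟩
    have hn : ‖w₀‖ ^ 2 ≤ (1 / L) ^ 2 := by
      rw [← norm_pow, hw₀, norm_div, norm_mul, norm_I, one_mul, Complex.norm_real, Real.norm_eq_abs,
        hεabs, div_one, one_div, inv_pow, ← one_div]
      exact hs
    have hn' : ‖w₀‖ ≤ 1 / L := by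
      by_contra hcon
      push Not at hcon
      have h1L : 0 < 1 / L := by positivity
      nlinarith
    have heq : ∀ w : ℂ, w ^ 2 = w₀ ^ 2 → (⟨σ, t₀⟩ : ℂ) + I * (ε : ℂ) * w ^ 2 = s := by
      intro w hw
      rw [hw, hw₀, mul_div_cancel₀ _ hIε]
      ring
    by_cases h0 : 0 ≤ w₀.im
    · exact ⟨w₀, heq _ rfl, h0, hn'⟩
    · push Not at h0
      refine ⟨-w₀, heq _ (neg_sq w₀), ?_, by rw [norm_neg]; exact hn'⟩
      rw [Complex.neg_im]; linarith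
  have hwr : |w.re| ≤ 1 / L := (Complex.abs_re_le_norm w).trans hw3
  have hwi : w.im ≤ 1 / L := by
    have := (Complex.abs_im_le_norm w).trans hw3
    rwa [abs_of_nonneg hw2] at this
  have hLinv : 1 / L ≤ h := by
    rw [div_le_iff₀ hL0]
    rw [div_le_iff₀ hh0] at hLh
    linarith
  have hwr' := abs_le.1 hwr
  have hfin := hbox w.re w.im (by linarith [hwr'.1]) (by linarith [hwr'.2]) hw2 (hwi.trans hLinv)
  rw [hnorm, ← harg, show (⟨w.re, w.im⟩ : ℂ) = w from rfl, hw1] at hfin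
  have hE : Real.exp (-(4 + 4 / h)) ≤
      Real.exp (-(4 * L) * (w.re ^ 2 - w.im ^ 2) - (4 * L / h) * w.im) := by
    rw [Real.exp_le_exp]
    have h1 : 4 * L * w.re ^ 2 ≤ 4 := by
      have h2 : w.re ^ 2 ≤ (1 / L) ^ 2 := sq_le_sq' (by linarith [hwr'.1]) hwr'.2
      calc 4 * L * w.re ^ 2 ≤ 4 * L * (1 / L) ^ 2 := mul_le_mul_of_nonneg_left h2 (by positivity)
        _ = 4 / L := by field_simp
        _ ≤ 4 := by rw [div_le_iff₀ hL0]; linarith
    have h3 : 4 * L / h * w.im ≤ 4 / h := by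
      calc 4 * L / h * w.im ≤ 4 * L / h * (1 / L) := mul_le_mul_of_nonneg_left hwi (by positivity)
        _ = 4 / h := by field_simp
    have h4 : 0 ≤ 4 * L * w.im ^ 2 := by positivity
    linarith
  have hz0 := norm_nonneg (riemannZeta s)
  have h5 : ‖riemannZeta s‖ * Real.exp (-(4 + 4 / h)) ≤ m :=
    (mul_le_mul_of_nonneg_left hE hz0).trans hfin
  rw [Real.exp_neg, ← div_eq_mul_inv, div_le_iff₀ (Real.exp_pos _)] at h5
  linarith

/-- the upper bound of Q1 -/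
theorem upper_half (l : ℕ) {σ : ℝ} (hσ : 0 < σ) (hσ1 : σ < 1) : ∃ C T₀ : ℝ, 0 < C ∧
    ∀ T : ℝ, T₀ ≤ T → MM l σ T ≤ C * (Real.log T) ^ (2 * l) * MM 0 σ T := by
  obtain ⟨C, T₀, hC, h⟩ := near_bound hσ hσ1
  obtain ⟨c, T₁, hc, h'⟩ := MM_lower 0 hσ
  refine ⟨l.factorial * (C * max 1 (1 / c)), max (max T₀ T₁) 4, by positivity, fun T hT => ?_⟩
  have g0 : T₀ ≤ T := ((le_max_left _ _).trans (le_max_left _ _)).trans hT
  have g1 : T₁ ≤ T := ((le_max_right _ _).trans (le_max_left _ _)).trans hT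
  have g2 : 4 ≤ T := (le_max_right _ _).trans hT
  have hT0 : 0 < T := by linarith
  have hL1 : 1 ≤ Real.log T := by
    rw [Real.le_log_iff_exp_le hT0]
    linarith [Real.exp_one_lt_d9]
  have hM := h' T g1
  have hM0 : 0 < MM 0 σ T := hc.trans_le hM
  have h1 : max (MM 0 σ T) 1 ≤ max 1 (1 / c) * MM 0 σ T := by
    apply max_le
    · exact le_mul_of_one_le_left hM0.le (le_max_left _ _)
    · calc (1:ℝ) = 1 / c * c := by field_simp
        _ ≤ max 1 (1 / c) * MM 0 σ T := mul_le_mul (le_max_right _ _) hM hc.le (by positivity)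
  apply MM_le l σ hT0
  intro t ht1 ht2
  have h2 := zd_cauchy l (s := ⟨σ, t⟩) (R := 1 / Real.log T ^ 2) (C := C * max (MM 0 σ T) 1)
    (by positivity) ?_ ?_
  · have e : (1 / Real.log T ^ 2) ^ l = 1 / Real.log T ^ (2 * l) := by
      rw [one_div, inv_pow, ← pow_mul, one_div]
    rw [e, div_div_eq_mul_div, div_one] at h2
    calc ‖zd l ⟨σ, t⟩‖ ≤ l.factorial * (C * max (MM 0 σ T) 1) * Real.log T ^ (2 * l) := h2
      _ ≤ l.factorial * (C * (max 1 (1 / c) * MM 0 σ T)) * Real.log T ^ (2 * l) := by gcongr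
      _ = _ := by ring
  · have h3 : 1 / Real.log T ^ 2 ≤ 1 := by
      rw [div_le_one (by positivity)]
      exact one_le_pow₀ hL1
    have h4 := Complex.abs_im_le_norm ((⟨σ, t⟩ : ℂ) - 1)
    have h5 : ((⟨σ, t⟩ : ℂ) - 1).im = t := by simp
    rw [h5, abs_of_nonneg (by linarith)] at h4
    linarith
  · intro z hz
    exact h T g0 t ht1 ht2 z hz.le

end Pool.Agent.R307
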