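import Mathlib

/-!
# A linear algebra lemma on rank two operators and partial isometries of defect one
-/

set_option autoImplicit false

open scoped ComplexConjugate

namespace Pool.Agent.R307.Tto

/-- Two equal forms of rank two, one of them in general position. -/
lemma forms {V : Type*} [AddCommGroup V] [Module ℂ V] (a1 a2 a3 b1 b2 b3 : V →ₗ[ℂ] ℂ)
    (H : ∀ f g, conj (b1 f) * b2 g + conj (b3 f) * b3 g
      = conj (a1 f) * a2 g + conj (a3 f) * a3 g)
    (u1 u2 u3 : V) (h11 : a1 u1 = 1) (h12 : a1 u2 = 0) (h13 : a1 u3 = 0)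
    (h21 : a2 u1 = 0) (h22 : a2 u2 = 1) (h23 : a2 u3 = 0)
    (h31 : a3 u1 = 0) (h32 : a3 u2 = 0) (h33 : a3 u3 = 1) :
    ∃ c1 c2 c3 : ℂ, conj c1 * c2 = 1 ∧ conj c3 * c3 = 1 ∧
      (∀ f, b1 f = c1 * a1 f) ∧ (∀ f, b2 f = c2 * a2 f) ∧ (∀ f, b3 f = c3 * a3 f) := by
  have e11 := H u1 u1
  have e12 := H u1 u2
  have e13 := H u1 u3
  have e21 := H u2 u1
  have e22 := H u2 u2
  have e23 := H u2 u3
  have e31 := H u3 u1
  have e32 := H u3 u2
  have e33 := H u3 u3
  rw [h11, h21, h31] at e11
  rw [h11, h22, h31, h32] at e12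
  rw [h11, h23, h31, h33] at e13
  rw [h12, h21, h32, h31] at e21
  rw [h12, h22, h32] at e22
  rw [h12, h23, h32, h33] at e23
  rw [h13, h21, h33, h31] at e31
  rw [h13, h22, h33, h32] at e32
  rw [h13, h23, h33] at e33
  simp only [map_one, map_zero, mul_zero, add_zero, zero_add, mul_one] at e11 e12 e13 e21 e22 e23 e31 e32 e33
  set p1 := conj (b1 u1)
  set p2 := conj (b1 u2)
  set p3 := conj (b1 u3)
  set s1 := conj (b3 u1) with hs1
  set s2 := conj (b3 u2) with hs2
  set s3 := conj (b3 u3) with hs3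
  have hdet : (p1 * s3 - s1 * p3) * (b2 u2 * b3 u3 - b2 u3 * b3 u2) = 1 := by
    linear_combination (p3 * b2 u3 + s3 * b3 u3) * e12 - (p3 * b2 u2 + s3 * b3 u2) * e13 + e33
  have hQ : p1 * s3 - s1 * p3 ≠ 0 := fun h => by rw [h, zero_mul] at hdet; exact zero_ne_one hdet
  have hR : b2 u2 * b3 u3 - b2 u3 * b3 u2 ≠ 0 := fun h => by
    rw [h, mul_zero] at hdet; exact zero_ne_one hdet
  have hr1 : b3 u1 = 0 := by
    have : (p1 * s3 - s1 * p3) * b3 u1 = 0 := by linear_combination p1 * e31 - p3 * e11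
    exact (mul_eq_zero.1 this).resolve_left hQ
  have hs2' : s2 = 0 := by
    have : s2 * (b2 u2 * b3 u3 - b2 u3 * b3 u2) = 0 := by
      linear_combination b2 u2 * e23 - b2 u3 * e22
    exact (mul_eq_zero.1 this).resolve_right hR
  have hr2 : b3 u2 = 0 := by
    have : conj s2 = 0 := by rw [hs2', map_zero]
    simpa [hs2] using this
  have hs1' : s1 = 0 := by rw [hs1, hr1, map_zero]
  rw [hs1', zero_mul, add_zero] at e12 e13
  rw [hr2, mul_zero, add_zero] at e32
  have hp1 : p1 ≠ 0 := fun h => by rw [h, zero_mul] at e12; exact zero_ne_one e12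
  have hq2 : b2 u2 ≠ 0 := fun h => by rw [h, mul_zero] at e12; exact zero_ne_one e12
  have hq3 : b2 u3 = 0 := (mul_eq_zero.1 e13).resolve_left hp1
  have hp3 : p3 = 0 := (mul_eq_zero.1 e32).resolve_right hq2
  rw [hp3, zero_mul, zero_add] at e33
  refine ⟨b1 u1, b2 u2, b3 u3, e12, e33, fun f => ?_, fun f => ?_, fun f => ?_⟩
  · have h := H f u2
    rw [h22, h32, hr2] at h
    simp only [mul_zero, add_zero, mul_one] at h
    have h2 : conj (b1 f) = p1 * conj (a1 f) := by
      have : b2 u2 * (conj (b1 f) - p1 * conj (a1 f)) = 0 := by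
        linear_combination h - conj (a1 f) * e12
      exact sub_eq_zero.1 ((mul_eq_zero.1 this).resolve_left hq2)
    have h3 := congrArg conj h2
    simpa [p1] using h3
  · have h := H u1 f
    rw [h11, h31, hr1] at h
    simp only [map_zero, zero_mul, add_zero, map_one, one_mul] at h
    have : p1 * (b2 f - b2 u2 * a2 f) = 0 := by linear_combination h - a2 f * e12
    exact sub_eq_zero.1 ((mul_eq_zero.1 this).resolve_left hp1)
  · have h := H f u3
    rw [h23, h33, hq3] at h
    simp only [mul_zero, zero_add, mul_one] at h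
    have hb3 : b3 u3 ≠ 0 := fun h => by rw [h, mul_zero] at e33; exact zero_ne_one e33
    have h2 : conj (b3 f) = s3 * conj (a3 f) := by
      have : b3 u3 * (conj (b3 f) - s3 * conj (a3 f)) = 0 := by
        linear_combination h - conj (a3 f) * e33
      exact sub_eq_zero.1 ((mul_eq_zero.1 this).resolve_left hb3)
    have h3 := congrArg conj h2
    simpa [hs3] using h3

lemma dual3 {V : Type*} [AddCommGroup V] [Module ℂ V] (a1 a2 a3 : V →ₗ[ℂ] ℂ) :
    (∃ u1 u2 u3 : V, a1 u1 = 1 ∧ a1 u2 = 0 ∧ a1 u3 = 0 ∧ a2 u1 = 0 ∧ a2 u2 = 1 ∧ a2 u3 = 0 ∧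
      a3 u1 = 0 ∧ a3 u2 = 0 ∧ a3 u3 = 1) ∨
    ∃ c1 c2 c3 : ℂ, (c1 ≠ 0 ∨ c2 ≠ 0 ∨ c3 ≠ 0) ∧ ∀ f, c1 * a1 f + c2 * a2 f + c3 * a3 f = 0 := by
  set F : V →ₗ[ℂ] (Fin 3 → ℂ) := LinearMap.pi ![a1, a2, a3] with hF
  have F0 : ∀ v, F v 0 = a1 v := fun v => rfl
  have F1 : ∀ v, F v 1 = a2 v := fun v => rfl
  have F2 : ∀ v, F v 2 = a3 v := fun v => rfl
  by_cases h : LinearMap.range F = ⊤
  · left
    have hs := LinearMap.range_eq_top.1 h
    obtain ⟨u1, hu1⟩ := hs ![1, 0, 0]
    obtain ⟨u2, hu2⟩ := hs ![0, 1, 0]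
    obtain ⟨u3, hu3⟩ := hs ![0, 0, 1]
    refine ⟨u1, u2, u3, ?_, ?_, ?_, ?_, ?_, ?_, ?_, ?_, ?_⟩
    · rw [← F0, hu1]; rfl
    · rw [← F0, hu2]; rfl
    · rw [← F0, hu3]; rfl
    · rw [← F1, hu1]; rfl
    · rw [← F1, hu2]; rfl
    · rw [← F1, hu3]; rfl
    · rw [← F2, hu1]; rfl
    · rw [← F2, hu2]; rfl
    · rw [← F2, hu3]; rfl
  · right
    obtain ⟨f, hf, hfk⟩ := Submodule.exists_le_ker_of_lt_top _ (lt_top_iff_ne_top.2 h)
    have hval : ∀ x : Fin 3 → ℂ, f x = f (Pi.single 0 1) * x 0 + f (Pi.single 1 1) * x 1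
        + f (Pi.single 2 1) * x 2 := by
      intro x
      have hx : x = x 0 • (Pi.single 0 1 : Fin 3 → ℂ) + x 1 • (Pi.single 1 1 : Fin 3 → ℂ)
          + x 2 • (Pi.single 2 1 : Fin 3 → ℂ) := by
        funext i
        fin_cases i <;> simp
      conv_lhs => rw [hx]
      simp only [map_add, map_smul, smul_eq_mul]
      ring
    refine ⟨f (Pi.single 0 1), f (Pi.single 1 1), f (Pi.single 2 1), ?_, fun v => ?_⟩
    · by_contra hne
      push Not at hne
      apply hf
      ext i
      fin_cases i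
      · simpa using hne.1
      · simpa using hne.2.1
      · simpa using hne.2.2
    · have := hfk (LinearMap.mem_range_self F v)
      rw [LinearMap.mem_ker, hval] at this
      rw [← this]
      rfl

section
variable {K : Type*} [NormedAddCommGroup K] [InnerProductSpace ℂ K]

lemma lemL (e1 e2 e3 : K) (h1 : inner ℂ e1 e1 = (1:ℂ)) (h2 : inner ℂ e2 e2 = (1:ℂ))
    (h3 : inner ℂ e3 e3 = (1:ℂ)) (h12 : inner ℂ e1 e2 = (0:ℂ)) (h13 : inner ℂ e1 e3 = (0:ℂ))
    (h23 : inner ℂ e2 e3 = (0:ℂ)) (e : K) (x1 x2 x3 : ℂ)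
    (hx : x1 ≠ 0 ∨ x2 ≠ 0 ∨ x3 ≠ 0)
    (hperp : inner ℂ e (x1 • e1 + x2 • e2 + x3 • e3) = (0:ℂ))
    (k k' : ℂ) (hk : x2 • e1 + x3 • e3 = k • e) (hk' : x1 • e2 + x3 • e3 = k' • e) :
    inner ℂ e e3 = (0:ℂ) ∧ ((∀ x, inner ℂ e x = (0:ℂ) → inner ℂ e1 x = (0:ℂ)) ∨
      (∀ x, inner ℂ e x = (0:ℂ) → inner ℂ e2 x = (0:ℂ))) := by
  have h21 : inner ℂ e2 e1 = (0:ℂ) := by rw [← inner_conj_symm, h12, map_zero]
  have h31 : inner ℂ e3 e1 = (0:ℂ) := by rw [← inner_conj_symm, h13, map_zero]
  have h32 : inner ℂ e3 e2 = (0:ℂ) := by rw [← inner_conj_symm, h23, map_zero]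
  have k1 : x2 = k * inner ℂ e1 e := by
    have := congrArg (inner ℂ e1) hk
    simpa only [inner_add_right, inner_smul_right, h1, h13, mul_one, mul_zero, add_zero] using this
  have k2 : 0 = k * inner ℂ e2 e := by
    have := congrArg (inner ℂ e2) hk
    simpa only [inner_add_right, inner_smul_right, h21, h23, mul_one, mul_zero, add_zero] using this
  have k3 : x3 = k * inner ℂ e3 e := by
    have := congrArg (inner ℂ e3) hk
    simpa only [inner_add_right, inner_smul_right, h31, h3, mul_one, mul_zero, zero_add] using this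
  have l1 : 0 = k' * inner ℂ e1 e := by
    have := congrArg (inner ℂ e1) hk'
    simpa only [inner_add_right, inner_smul_right, h12, h13, mul_one, mul_zero, add_zero] using this
  have l2 : x1 = k' * inner ℂ e2 e := by
    have := congrArg (inner ℂ e2) hk'
    simpa only [inner_add_right, inner_smul_right, h2, h23, mul_one, mul_zero, add_zero] using this
  have l3 : x3 = k' * inner ℂ e3 e := by
    have := congrArg (inner ℂ e3) hk'
    simpa only [inner_add_right, inner_smul_right, h32, h3, mul_one, mul_zero, zero_add] using this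
  have hx3 : x3 = 0 := by
    by_contra hne
    have hk0 : k ≠ 0 := fun h => hne (by rw [k3, h, zero_mul])
    have hk0' : k' ≠ 0 := fun h => hne (by rw [l3, h, zero_mul])
    have i1 : inner ℂ e1 e = (0:ℂ) := (mul_eq_zero.1 l1.symm).resolve_left hk0'
    have i2 : inner ℂ e2 e = (0:ℂ) := (mul_eq_zero.1 k2.symm).resolve_left hk0
    have hx1 : x1 = 0 := by rw [l2, i2, mul_zero]
    have hx2 : x2 = 0 := by rw [k1, i1, mul_zero]
    rw [hx1, hx2, zero_smul, zero_smul, zero_add, zero_add, inner_smul_right] at hperp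
    have h4 : inner ℂ e e3 = (0:ℂ) := (mul_eq_zero.1 hperp).resolve_left hne
    have h5 : inner ℂ e3 e = (0:ℂ) := by rw [← inner_conj_symm, h4, map_zero]
    exact hne (by rw [k3, h5, mul_zero])
  subst hx3
  rw [zero_smul, add_zero] at hk hk'
  rcases hx with hx | hx | hx
  · -- `x1 ≠ 0`, so `e` is a multiple of `e2`
    have hk0' : k' ≠ 0 := fun h => hx (by rw [l2, h, zero_mul])
    have he : e = (k'⁻¹ * x1) • e2 := by
      rw [mul_smul, hk', smul_smul, inv_mul_cancel₀ hk0', one_smul]
    have hc : k'⁻¹ * x1 ≠ 0 := mul_ne_zero (inv_ne_zero hk0') hx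
    refine ⟨by rw [he, inner_smul_left, h23, mul_zero], Or.inr fun x hxx => ?_⟩
    rw [he, inner_smul_left] at hxx
    exact (mul_eq_zero.1 hxx).resolve_left (by simpa using hc)
  · have hk0 : k ≠ 0 := fun h => hx (by rw [k1, h, zero_mul])
    have he : e = (k⁻¹ * x2) • e1 := by
      rw [mul_smul, hk, smul_smul, inv_mul_cancel₀ hk0, one_smul]
    have hc : k⁻¹ * x2 ≠ 0 := mul_ne_zero (inv_ne_zero hk0) hx
    refine ⟨by rw [he, inner_smul_left, h13, mul_zero], Or.inl fun x hxx => ?_⟩
    rw [he, inner_smul_left] at hxx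
    exact (mul_eq_zero.1 hxx).resolve_left (by simpa using hc)
  · exact absurd rfl hx


/-- The main lemma: the form of `e1 e2^* + e3 e3^*` cannot be invariant under a partial isometry
of defect one without eigenvectors, in dimension at least four. -/
theorem main [FiniteDimensional ℂ K] (hK : 4 ≤ Module.finrank ℂ K) (D : Submodule ℂ K)
    (hD : Module.finrank ℂ D + 1 = Module.finrank ℂ K) (W : D →ₗᵢ[ℂ] K)
    (hW : ∀ (f : D) (c : ℂ), W f = c • (f : K) → f = 0) (e1 e2 e3 : K)
    (h1 : inner ℂ e1 e1 = (1:ℂ)) (h2 : inner ℂ e2 e2 = (1:ℂ))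
    (h3 : inner ℂ e3 e3 = (1:ℂ)) (h12 : inner ℂ e1 e2 = (0:ℂ)) (h13 : inner ℂ e1 e3 = (0:ℂ))
    (h23 : inner ℂ e2 e3 = (0:ℂ))
    (H : ∀ f g : D, inner ℂ (W f) e1 * inner ℂ e2 (W g) + inner ℂ (W f) e3 * inner ℂ e3 (W g)
      = inner ℂ (f : K) e1 * inner ℂ e2 (g : K) + inner ℂ (f : K) e3 * inner ℂ e3 (g : K)) :
    False := by
  have h21 : inner ℂ e2 e1 = (0:ℂ) := by rw [← inner_conj_symm, h12, map_zero]
  have h31 : inner ℂ e3 e1 = (0:ℂ) := by rw [← inner_conj_symm, h13, map_zero]
  have h32 : inner ℂ e3 e2 = (0:ℂ) := by rw [← inner_conj_symm, h23, map_zero]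
  -- unit vectors orthogonal to `D` and to the range of `W`
  have key : ∀ S : Submodule ℂ K, Module.finrank ℂ S + 1 = Module.finrank ℂ K →
      ∃ e : K, inner ℂ e e = (1:ℂ) ∧ ∀ x, x ∈ S ↔ inner ℂ e x = (0:ℂ) := by
    intro S hS
    have hf : Module.finrank ℂ Sᗮ = 1 := by
      have := Submodule.finrank_add_finrank_orthogonal S
      omega
    obtain ⟨v, hv, hv1⟩ := finrank_eq_one_iff'.1 hf
    have hv0 : (v : K) ≠ 0 := fun h => hv (Subtype.ext h)
    have hn : (‖(v : K)‖ : ℂ) ≠ 0 := by
      exact_mod_cast (norm_ne_zero_iff.2 hv0)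
    refine ⟨(‖(v : K)‖ : ℂ)⁻¹ • (v : K), ?_, fun x => ?_⟩
    · rw [inner_smul_left, inner_smul_right, inner_self_eq_norm_sq_to_K]
      simp only [map_inv₀, Complex.conj_ofReal, Complex.coe_algebraMap]
      field_simp
    · rw [inner_smul_left]
      constructor
      · intro hx
        rw [(Submodule.mem_orthogonal' S (v : K)).1 v.2 x hx, mul_zero]
      · intro hx
        have hx2 : inner ℂ (v : K) x = (0:ℂ) := by
          refine (mul_eq_zero.1 hx).resolve_left ?_
          simpa using hv0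
        rw [← Submodule.orthogonal_orthogonal S, Submodule.mem_orthogonal]
        intro w hw
        obtain ⟨c, hc⟩ := hv1 ⟨w, hw⟩
        have hc2 : w = c • (v : K) := by rw [← Submodule.coe_smul, hc]
        rw [hc2, inner_smul_left, hx2, mul_zero]
  obtain ⟨e, he1, he⟩ := key D hD
  have hR : Module.finrank ℂ (LinearMap.range W.toLinearMap) + 1 = Module.finrank ℂ K := by
    rw [LinearMap.finrank_range_of_inj W.injective, hD]
  obtain ⟨e', he1', he'⟩ := key _ hR
  have he'2 : ∀ x, (∃ f : D, W f = x) ↔ inner ℂ e' x = (0:ℂ) := fun x => by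
    rw [← he' x]; rfl
  have he'3 : ∀ f : D, inner ℂ e' (W f) = (0:ℂ) := fun f => (he'2 _).1 ⟨f, rfl⟩
  have he3 : ∀ f : D, inner ℂ e (f : K) = (0:ℂ) := fun f => (he _).1 f.2
  have hiso : ∀ f g : D, inner ℂ (W f) (W g) = inner ℂ (f : K) (g : K) := fun f g => by
    rw [W.inner_map_map]; rfl
  -- projections
  have hproj : ∀ x : K, x - inner ℂ e x • e ∈ D := fun x => by
    rw [he, inner_sub_right, inner_smul_right, he1, mul_one, sub_self]
  have hproj' : ∀ x : K, ∃ f : D, W f = x - inner ℂ e' x • e' := fun x => by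
    rw [he'2, inner_sub_right, inner_smul_right, he1', mul_one, sub_self]
  have hDv : ∀ v ∈ D, (∀ f : D, inner ℂ v (f : K) = (0:ℂ)) → v = 0 := fun v hv h => by
    have := h ⟨v, hv⟩
    exact inner_self_eq_zero.1 this
  -- the functionals
  set a : K → (D →ₗ[ℂ] ℂ) := fun x => (innerSL ℂ x).toLinearMap.comp D.subtype with ha
  set b : K → (D →ₗ[ℂ] ℂ) := fun x => (innerSL ℂ x).toLinearMap.comp W.toLinearMap with hb
  have haf : ∀ x f, a x f = inner ℂ x (f : K) := fun x f => rfl
  have hbf : ∀ x f, b x f = inner ℂ x (W f) := fun x f => rfl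
  have Hab : ∀ f g, conj (b e1 f) * b e2 g + conj (b e3 f) * b e3 g
      = conj (a e1 f) * a e2 g + conj (a e3 f) * a e3 g := fun f g => by
    simp only [haf, hbf, inner_conj_symm]
    exact H f g
  have E : ∀ (x y : K) (cx cy : ℂ), (∀ f, b x f = cx * a x f) → (∀ f, b y f = cy * a y f) →
      inner ℂ x y - conj (inner ℂ e' x) * inner ℂ e' y
        = cx * conj cy * (inner ℂ x y - conj (inner ℂ e x) * inner ℂ e y) := by
    intro x y cx cy hx hy
    obtain ⟨v, hv⟩ := hproj' y
    set p : D := ⟨x - inner ℂ e x • e, hproj x⟩ with hp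
    have h4 : inner ℂ x (W v) = inner ℂ x y - conj (inner ℂ e' x) * inner ℂ e' y := by
      rw [hv, inner_sub_right, inner_smul_right, inner_conj_symm]; ring
    have h5 : inner ℂ x (W v) = cx * inner ℂ x (v : K) := hx v
    have h6 : inner ℂ (v : K) x = inner ℂ (v : K) (p : K) := by
      rw [hp]
      simp only [inner_sub_right, inner_smul_right]
      have : inner ℂ (v : K) e = (0:ℂ) := by rw [← inner_conj_symm, he3, map_zero]
      rw [this, mul_zero, sub_zero]
    have h7 : inner ℂ (v : K) (p : K) = cy * (inner ℂ y x - inner ℂ e x * inner ℂ y e) := by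
      rw [← hiso, hv, inner_sub_left, inner_smul_left, he'3, mul_zero, sub_zero]
      have := hy p
      rw [hbf] at this
      rw [this, haf, hp]
      simp only [inner_sub_right, inner_smul_right]
    have h8 : inner ℂ x (v : K) = conj cy * (inner ℂ x y - conj (inner ℂ e x) * inner ℂ e y) := by
      rw [← inner_conj_symm x, h6, h7, map_mul, map_sub, map_mul]
      simp only [inner_conj_symm]
    rw [← h4, h5, h8]
    ring
  -- no eigenvectors, in the form needed below
  have noeig3 : ∀ (c : ℂ) (x : K), inner ℂ x x = (1:ℂ) → inner ℂ e x = (0:ℂ) →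
      inner ℂ e' x = (0:ℂ) → (∀ f, b x f = c * a x f) → conj c * c = 1 → False := by
    intro c x hx hex hex' hba hc
    have hxD : x ∈ D := (he x).2 hex
    obtain ⟨v, hv⟩ := (he'2 x).2 hex'
    have h4 : (v : K) - conj c • x = 0 := by
      refine hDv _ (D.sub_mem v.2 (D.smul_mem _ hxD)) fun f => ?_
      have h5 : inner ℂ (v : K) (f : K) = c * inner ℂ x (f : K) := by
        rw [← hiso, hv]; exact hba f
      rw [inner_sub_left, inner_smul_left, h5, Complex.conj_conj, sub_self]
    have h5 : v = conj c • (⟨x, hxD⟩ : D) := Subtype.ext (sub_eq_zero.1 h4)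
    have h6 : W (⟨x, hxD⟩ : D) = c • x := by
      have h7 : c • W v = W (⟨x, hxD⟩ : D) := by
        rw [h5, map_smul, smul_smul, mul_comm, hc, one_smul]
      rw [← h7, hv]
    have h7 := congrArg Subtype.val (hW ⟨x, hxD⟩ c h6)
    simp only [ZeroMemClass.coe_zero] at h7
    rw [h7, inner_zero_left] at hx
    exact zero_ne_one hx
  rcases dual3 (a e1) (a e2) (a e3) with ⟨u1, u2, u3, t11, t12, t13, t21, t22, t23, t31, t32, t33⟩ | ⟨x1, x2, x3, hx, hxa⟩
  · -- generic case
    obtain ⟨c1, c2, c3, hc12, hc3, hb1, hb2, hb3⟩ := forms (a e1) (a e2) (a e3) (b e1) (b e2)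
      (b e3) Hab u1 u2 u3 t11 t12 t13 t21 t22 t23 t31 t32 t33
    have E33 := E e3 e3 c3 c3 hb3 hb3
    have E31 := E e3 e1 c3 c1 hb3 hb1
    have E11 := E e1 e1 c1 c1 hb1 hb1
    rw [h3] at E33
    rw [h31] at E31
    rw [h1] at E11
    set s1 := inner ℂ e e1
    set s3 := inner ℂ e e3 with hs3
    set r1 := inner ℂ e' e1
    set r3 := inner ℂ e' e3 with hr3
    have F33 : conj r3 * r3 = conj s3 * s3 := by linear_combination -E33 - (1 - conj s3 * s3) * hc3
    by_cases hs : s3 = 0
    · have hr : r3 = 0 := by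
        rw [hs, mul_zero] at F33
        rcases mul_eq_zero.1 F33 with h | h
        · simpa using h
        · exact h
      exact noeig3 c3 e3 h3 hs hr hb3 hc3
    · have hN : conj c1 * c1 = 1 := by
        have E31' := congrArg conj E31
        simp only [map_sub, map_zero, map_mul, Complex.conj_conj] at E31'
        have hS : conj s3 * s3 ≠ 0 := mul_ne_zero (by simpa using hs) hs
        have h4 : (conj s3 * s3) * (conj r1 * r1) = (conj c1 * c1) * (conj s3 * s3) * (conj s1 * s1) := by
          have h5 : (conj r3 * r1) * (r3 * conj r1) = (c3 * conj c1 * (conj s3 * s1)) * (conj c3 * c1 * (s3 * conj s1)) := by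
            have h6 : conj r3 * r1 = c3 * conj c1 * (conj s3 * s1) := by linear_combination -E31
            have h7 : r3 * conj r1 = conj c3 * c1 * (s3 * conj s1) := by linear_combination -E31'
            rw [h6, h7]
          linear_combination h5 - (conj r1 * r1) * F33 + (conj c1 * c1) * (conj s3 * s3) * (conj s1 * s1) * hc3
        have h5 : (conj s3 * s3) * (conj r1 * r1 - (conj c1 * c1) * (conj s1 * s1)) = 0 := by
          linear_combination h4
        have h6 := (mul_eq_zero.1 h5).resolve_left hS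
        linear_combination -E11 - h6
      have hc21 : c2 = c1 := by
        linear_combination c1 * hc12 - c2 * hN
      -- the functionals `e1` and `e2` both kill the range of `W - c1`
      set L : D →ₗ[ℂ] K := W.toLinearMap - c1 • D.subtype with hL
      have hLf : ∀ f : D, L f = W f - c1 • (f : K) := fun f => rfl
      have hLi : Function.Injective L := by
        rw [← LinearMap.ker_eq_bot, LinearMap.ker_eq_bot']
        intro f hf
        exact hW f c1 (sub_eq_zero.1 (by rw [← hLf, hf]))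
      obtain ⟨w, hw1, hw⟩ := key (LinearMap.range L) (by rw [LinearMap.finrank_range_of_inj hLi, hD])
      have hk1 : ∀ x, inner ℂ w x = (0:ℂ) → inner ℂ e1 x = (0:ℂ) := by
        intro x hx
        obtain ⟨f, rfl⟩ := (hw x).2 hx
        have := hb1 f
        rw [haf, hbf] at this
        rw [hLf, inner_sub_right, inner_smul_right, this, sub_self]
      have hk2 : ∀ x, inner ℂ w x = (0:ℂ) → inner ℂ e2 x = (0:ℂ) := by
        intro x hx
        obtain ⟨f, rfl⟩ := (hw x).2 hx
        have := hb2 f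
        rw [haf, hbf] at this
        rw [hLf, inner_sub_right, inner_smul_right, this, hc21, sub_self]
      have hz : ∀ x : K, inner ℂ w (x - inner ℂ w x • w) = (0:ℂ) := fun x => by
        rw [inner_sub_right, inner_smul_right, hw1, mul_one, sub_self]
      have g1 := hk1 _ (hz e1)
      have g2 := hk1 _ (hz e2)
      have g3 := hk2 _ (hz e2)
      rw [inner_sub_right, inner_smul_right] at g1 g2 g3
      rw [h1] at g1
      rw [h12] at g2
      rw [h2] at g3
      have hne : inner ℂ e1 w ≠ (0:ℂ) := fun h => by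
        rw [h, mul_zero, sub_zero] at g1
        exact one_ne_zero g1
      have hw2 : inner ℂ w e2 = (0:ℂ) := by
        have : inner ℂ w e2 * inner ℂ e1 w = (0:ℂ) := by linear_combination -g2
        exact (mul_eq_zero.1 this).resolve_right hne
      rw [hw2, zero_mul, sub_zero] at g3
      exact one_ne_zero g3
  · -- `e` lies in the span of `e1, e2, e3`
    have hspan : ∀ (S : Submodule ℂ K) (w : K), inner ℂ w w = (1:ℂ) →
        (∀ x, x ∈ S ↔ inner ℂ w x = (0:ℂ)) → ∀ x1 x2 x3 : ℂ, (x1 ≠ 0 ∨ x2 ≠ 0 ∨ x3 ≠ 0) →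
        (∀ f ∈ S, x1 * inner ℂ e1 f + x2 * inner ℂ e2 f + x3 * inner ℂ e3 f = (0:ℂ)) →
        ∃ k : ℂ, w = k • (conj x1 • e1 + conj x2 • e2 + conj x3 • e3) := by
      intro S w hw hS x1 x2 x3 hx hf
      set y : K := conj x1 • e1 + conj x2 • e2 + conj x3 • e3 with hy
      have hyf : ∀ f ∈ S, inner ℂ y f = (0:ℂ) := fun f hfS => by
        rw [hy, inner_add_left, inner_add_left, inner_smul_left, inner_smul_left, inner_smul_left,
          Complex.conj_conj, Complex.conj_conj, Complex.conj_conj]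
        exact hf f hfS
      have h4 : y - inner ℂ w y • w ∈ S := by
        rw [hS, inner_sub_right, inner_smul_right, hw, mul_one, sub_self]
      have h5 : inner ℂ (y - inner ℂ w y • w) (y - inner ℂ w y • w) = (0:ℂ) := by
        rw [inner_sub_left (y) (inner ℂ w y • w), hyf _ h4, inner_smul_left, (hS _).1 h4]
        simp
      have h6 : y = inner ℂ w y • w := sub_eq_zero.1 (inner_self_eq_zero.1 h5)
      have hne : inner ℂ w y ≠ (0:ℂ) := by
        intro h7
        rw [h7, zero_smul] at h6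
        have z1 := congrArg (inner ℂ e1) h6
        have z2 := congrArg (inner ℂ e2) h6
        have z3 := congrArg (inner ℂ e3) h6
        simp only [hy, inner_add_right, inner_smul_right, h1, h2, h3, h12, h13, h21, h23, h31, h32,
          mul_one, mul_zero, add_zero, zero_add, inner_zero_right] at z1 z2 z3
        rcases hx with hx | hx | hx
        · exact hx (by simpa using z1)
        · exact hx (by simpa using z2)
        · exact hx (by simpa using z3)
      refine ⟨(inner ℂ w y)⁻¹, ?_⟩
      calc w = ((inner ℂ w y)⁻¹ * inner ℂ w y) • w := by rw [inv_mul_cancel₀ hne, one_smul]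
        _ = (inner ℂ w y)⁻¹ • (inner ℂ w y • w) := mul_smul _ _ _
        _ = (inner ℂ w y)⁻¹ • y := by rw [← h6]
    obtain ⟨k, hk⟩ := hspan D e he1 he x1 x2 x3 hx (fun f hf => hxa ⟨f, hf⟩)
    -- the same for `e'`
    have hdb : ∃ y1 y2 y3 : ℂ, (y1 ≠ 0 ∨ y2 ≠ 0 ∨ y3 ≠ 0) ∧
        ∀ f, y1 * b e1 f + y2 * b e2 f + y3 * b e3 f = 0 := by
      rcases dual3 (b e1) (b e2) (b e3) with ⟨u1, u2, u3, t11, t12, t13, t21, t22, t23, t31, t32, t33⟩ | h
      · exfalso
        obtain ⟨c1, c2, c3, hc12, hc3, ha1, ha2, ha3⟩ := forms (b e1) (b e2) (b e3) (a e1) (a e2)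
          (a e3) (fun f g => (Hab f g).symm) u1 u2 u3 t11 t12 t13 t21 t22 t23 t31 t32 t33
        have q1 := hxa u1
        have q2 := hxa u2
        have q3 := hxa u3
        rw [ha1, ha2, ha3, t11, t21, t31] at q1
        rw [ha1, ha2, ha3, t12, t22, t32] at q2
        rw [ha1, ha2, ha3, t13, t23, t33] at q3
        simp only [mul_one, mul_zero, add_zero, zero_add] at q1 q2 q3
        have hc1' : c1 ≠ 0 := fun h => by
          rw [h, map_zero, zero_mul] at hc12; exact zero_ne_one hc12
        have hc2' : c2 ≠ 0 := fun h => by rw [h, mul_zero] at hc12; exact zero_ne_one hc12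
        have hc3' : c3 ≠ 0 := fun h => by rw [h, mul_zero] at hc3; exact zero_ne_one hc3
        rcases hx with hx | hx | hx
        · exact hx ((mul_eq_zero.1 q1).resolve_right hc1')
        · exact hx ((mul_eq_zero.1 q2).resolve_right hc2')
        · exact hx ((mul_eq_zero.1 q3).resolve_right hc3')
      · exact h
    obtain ⟨y1, y2, y3, hy, hyb⟩ := hdb
    obtain ⟨k', hk'⟩ := hspan (LinearMap.range W.toLinearMap) e' he1' he' y1 y2 y3 hy (by
      rintro f ⟨g, rfl⟩
      exact hyb g)
    -- vectors orthogonal to the three vectors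
    have hZe : ∀ x, inner ℂ e1 x = (0:ℂ) → inner ℂ e2 x = (0:ℂ) → inner ℂ e3 x = (0:ℂ) →
        inner ℂ e x = (0:ℂ) := by
      intro x z1 z2 z3
      rw [hk, inner_smul_left, inner_add_left, inner_add_left, inner_smul_left, inner_smul_left,
        inner_smul_left, z1, z2, z3]
      simp
    have hZe' : ∀ x, inner ℂ e1 x = (0:ℂ) → inner ℂ e2 x = (0:ℂ) → inner ℂ e3 x = (0:ℂ) →
        inner ℂ e' x = (0:ℂ) := by
      intro x z1 z2 z3
      rw [hk', inner_smul_left, inner_add_left, inner_add_left, inner_smul_left, inner_smul_left,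
        inner_smul_left, z1, z2, z3]
      simp
    set Z : Submodule ℂ K := (Submodule.span ℂ (Set.range ![e1, e2, e3]))ᗮ with hZ
    have hmemZ : ∀ x, x ∈ Z ↔ inner ℂ e1 x = (0:ℂ) ∧ inner ℂ e2 x = (0:ℂ) ∧ inner ℂ e3 x = (0:ℂ) := by
      intro x
      rw [hZ, Submodule.mem_orthogonal]
      constructor
      · intro h
        exact ⟨h e1 (Submodule.subset_span ⟨0, rfl⟩), h e2 (Submodule.subset_span ⟨1, rfl⟩),
          h e3 (Submodule.subset_span ⟨2, rfl⟩)⟩
      · rintro ⟨z1, z2, z3⟩ u hu
        induction hu using Submodule.span_induction with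
        | mem y hy =>
          obtain ⟨i, rfl⟩ := hy
          fin_cases i
          · exact z1
          · exact z2
          · exact z3
        | zero => exact inner_zero_left _
        | add y z _ _ hy hz => rw [inner_add_left, hy, hz, add_zero]
        | smul c y _ hy => rw [inner_smul_left, hy, mul_zero]
    have hZD : ∀ x ∈ Z, x ∈ D := fun x hx => by
      obtain ⟨z1, z2, z3⟩ := (hmemZ x).1 hx
      exact (he x).2 (hZe x z1 z2 z3)
    by_cases hinv : ∀ f : D, (f : K) ∈ Z → W f ∈ Z
    · -- `W` maps `Z` to itself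
      have hZ1 : 1 ≤ Module.finrank ℂ Z := by
        have h4 := Submodule.finrank_add_finrank_orthogonal (Submodule.span ℂ (Set.range ![e1, e2, e3]))
        have h5 : Module.finrank ℂ (Submodule.span ℂ (Set.range ![e1, e2, e3])) ≤ 3 := by
          exact (finrank_range_le_card (R := ℂ) ![e1, e2, e3]).trans (by simp)
        rw [← hZ] at h4
        omega
      have : Nontrivial Z := Module.nontrivial_of_finrank_pos (R := ℂ) (by omega)
      set T : Z →ₗ[ℂ] Z := 
        { toFun := fun x => ⟨W ⟨x, hZD _ x.2⟩, hinv ⟨x, hZD _ x.2⟩ x.2⟩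
          map_add' := fun x y => Subtype.ext (by
            change W ⟨(x : K) + y, _⟩ = W ⟨x, _⟩ + W ⟨y, _⟩
            rw [← map_add]; rfl)
          map_smul' := fun c x => Subtype.ext (by
            change W ⟨c • (x : K), _⟩ = c • W ⟨x, _⟩
            rw [← map_smul]; rfl) } with hT
      obtain ⟨c, hc⟩ := Module.End.exists_eigenvalue T
      obtain ⟨v, hv⟩ := hc.exists_hasEigenvector
      have h4 : W ⟨(v : K), hZD _ v.2⟩ = c • (v : K) := congrArg Subtype.val hv.apply_eq_smul
      have h5 := hW ⟨(v : K), hZD _ v.2⟩ c h4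
      have h6 : (v : K) = 0 := congrArg (fun x : D => (x : K)) h5
      exact hv.2 (Subtype.ext h6)
    · push Not at hinv
      obtain ⟨f, hfZ, hWf⟩ := hinv
      obtain ⟨f1, f2, f3⟩ := (hmemZ _).1 hfZ
      have f1' : inner ℂ (f : K) e1 = (0:ℂ) := by rw [← inner_conj_symm, f1, map_zero]
      have f3' : inner ℂ (f : K) e3 = (0:ℂ) := by rw [← inner_conj_symm, f3, map_zero]
      have hperpW : ∀ y : K, (∀ g : D, inner ℂ (W g) y = (0:ℂ)) → y = inner ℂ e' y • e' := by
        intro y hy
        obtain ⟨g, hg⟩ := hproj' y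
        have h4 : inner ℂ (W g) (y - inner ℂ e' y • e') = (0:ℂ) := by
          have : inner ℂ (W g) e' = (0:ℂ) := by rw [← inner_conj_symm, he'3, map_zero]
          rw [inner_sub_right, inner_smul_right, hy, this, mul_zero, sub_zero]
        rw [← hg] at h4
        have h5 := inner_self_eq_zero.1 h4
        rw [hg] at h5
        exact sub_eq_zero.1 h5
      have hperpD : ∀ y : K, (∀ g : D, inner ℂ (g : K) y = (0:ℂ)) → y = inner ℂ e y • e := by
        intro y hy
        have h4 : inner ℂ (y - inner ℂ e y • e) (y - inner ℂ e y • e) = (0:ℂ) := by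
          have : inner ℂ (y - inner ℂ e y • e) e = (0:ℂ) := by
            rw [← inner_conj_symm, he3 ⟨_, hproj y⟩, map_zero]
          rw [inner_sub_right (y - inner ℂ e y • e) y, inner_smul_right, hy ⟨_, hproj y⟩, this,
            mul_zero, sub_zero]
        exact sub_eq_zero.1 (inner_self_eq_zero.1 h4)
      -- the vector `W f`
      have hx' : inner ℂ e1 (W f) ≠ (0:ℂ) ∨ inner ℂ e2 (W f) ≠ (0:ℂ) ∨ inner ℂ e3 (W f) ≠ (0:ℂ) := by
        by_contra hne
        push Not at hne
        exact hWf ((hmemZ _).2 hne)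
      have hcomb : ∀ (z1 z2 z3 : ℂ), inner ℂ e1 (z1 • e1 + z2 • e2 + z3 • e3) = z1 ∧
          inner ℂ e2 (z1 • e1 + z2 • e2 + z3 • e3) = z2 ∧
          inner ℂ e3 (z1 • e1 + z2 • e2 + z3 • e3) = z3 := by
        intro z1 z2 z3
        simp only [inner_add_right, inner_smul_right, h1, h2, h3, h12, h13, h21, h23, h31, h32,
          mul_one, mul_zero, add_zero, zero_add, and_self]
      have q1 : inner ℂ e' (inner ℂ e1 (W f) • e1 + inner ℂ e2 (W f) • e2 + inner ℂ e3 (W f) • e3)
          = (0:ℂ) := by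
        obtain ⟨z1, z2, z3⟩ := hcomb (inner ℂ e1 (W f)) (inner ℂ e2 (W f)) (inner ℂ e3 (W f))
        have h4 := hZe' (W f - (inner ℂ e1 (W f) • e1 + inner ℂ e2 (W f) • e2
          + inner ℂ e3 (W f) • e3)) (by rw [inner_sub_right, z1, sub_self])
          (by rw [inner_sub_right, z2, sub_self]) (by rw [inner_sub_right, z3, sub_self])
        rw [inner_sub_right, he'3, zero_sub, neg_eq_zero] at h4
        exact h4
      obtain ⟨hee3, hor⟩ := lemL e1 e2 e3 h1 h2 h3 h12 h13 h23 e' _ _ _ hx' q1 _ _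
        (hperpW _ (fun g => by
          rw [inner_add_right, inner_smul_right, inner_smul_right]
          have := H g f
          rw [f2, f3, mul_zero, mul_zero, add_zero] at this
          linear_combination this))
        (hperpW _ (fun g => by
          rw [inner_add_right, inner_smul_right, inner_smul_right]
          have := H f g
          rw [f1', f3', zero_mul, zero_mul, add_zero] at this
          have h4 := congrArg conj this
          simp only [map_add, map_mul, map_zero, inner_conj_symm] at h4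
          linear_combination h4))
      obtain ⟨v, hv⟩ := (he'2 e3).2 hee3
      have hb3 : ∀ g : D, inner ℂ e3 (W g) = inner ℂ (v : K) (g : K) := fun g => by
        rw [← hv, hiso]
      have hb3' : ∀ g : D, inner ℂ (W g) e3 = inner ℂ (g : K) (v : K) := fun g => by
        rw [← inner_conj_symm, hb3, inner_conj_symm]
      have H2 : ∀ g h : D, inner ℂ (g : K) e1 * inner ℂ e2 (h : K)
          + inner ℂ (g : K) e3 * inner ℂ e3 (h : K) = inner ℂ (g : K) (v : K) * inner ℂ (v : K) (h : K) := by
        intro g h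
        rw [← H g h, hb3, hb3']
        have : inner ℂ (W g) e1 * inner ℂ e2 (W h) = (0:ℂ) := by
          rcases hor with hor | hor
          · have h4 : inner ℂ (W g) e1 = (0:ℂ) := by
              rw [← inner_conj_symm, hor _ (he'3 g), map_zero]
            rw [h4, zero_mul]
          · rw [hor _ (he'3 h), mul_zero]
        rw [this, zero_add]
      -- a combination orthogonal to `e` and `v`
      obtain ⟨z1, z2, z3, hz, hze, hzv⟩ : ∃ z1 z2 z3 : ℂ, (z1 ≠ 0 ∨ z2 ≠ 0 ∨ z3 ≠ 0) ∧
          inner ℂ e (z1 • e1 + z2 • e2 + z3 • e3) = (0:ℂ) ∧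
          inner ℂ (v : K) (z1 • e1 + z2 • e2 + z3 • e3) = (0:ℂ) := by
        set G : (Fin 3 → ℂ) →ₗ[ℂ] (Fin 2 → ℂ) := Matrix.toLin' !![inner ℂ e e1, inner ℂ e e2,
          inner ℂ e e3; inner ℂ (v : K) e1, inner ℂ (v : K) e2, inner ℂ (v : K) e3] with hG
        have hker : LinearMap.ker G ≠ ⊥ := LinearMap.ker_ne_bot_of_finrank_lt (by simp)
        obtain ⟨z, hz, hz0⟩ := (Submodule.ne_bot_iff _).1 hker
        refine ⟨z 0, z 1, z 2, ?_, ?_, ?_⟩
        · by_contra hne
          push Not at hne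
          exact hz0 (by funext i; fin_cases i; exacts [hne.1, hne.2.1, hne.2.2])
        · have := congrFun (LinearMap.mem_ker.1 hz) 0
          rw [hG, Matrix.toLin'_apply] at this
          simp only [Matrix.mulVec, dotProduct, Fin.sum_univ_three, Matrix.of_apply, Matrix.cons_val', Matrix.cons_val_zero, Matrix.cons_val_one, Matrix.cons_val_two, Pi.zero_apply] at this
          simp only [inner_add_right, inner_smul_right]
          simp at this
          linear_combination this
        · have := congrFun (LinearMap.mem_ker.1 hz) 1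
          rw [hG, Matrix.toLin'_apply] at this
          simp only [Matrix.mulVec, dotProduct, Fin.sum_univ_three, Matrix.of_apply, Matrix.cons_val', Matrix.cons_val_zero, Matrix.cons_val_one, Matrix.cons_val_two, Pi.zero_apply] at this
          simp only [inner_add_right, inner_smul_right]
          simp at this
          linear_combination this
      obtain ⟨w1, w2, w3⟩ := hcomb z1 z2 z3
      have w1' : inner ℂ (z1 • e1 + z2 • e2 + z3 • e3) e1 = conj z1 := by
        rw [← inner_conj_symm, w1]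
      have w3' : inner ℂ (z1 • e1 + z2 • e2 + z3 • e3) e3 = conj z3 := by
        rw [← inner_conj_symm, w3]
      have hzv' : inner ℂ (z1 • e1 + z2 • e2 + z3 • e3) (v : K) = (0:ℂ) := by
        rw [← inner_conj_symm, hzv, map_zero]
      obtain ⟨hee, -⟩ := lemL e1 e2 e3 h1 h2 h3 h12 h13 h23 e z1 z2 z3 hz hze _ _
        (hperpD _ (fun g => by
          rw [inner_add_right, inner_smul_right, inner_smul_right]
          have := H2 g ⟨_, (he _).2 hze⟩
          simp only [w2, w3, hzv, mul_zero] at this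
          linear_combination this))
        (hperpD _ (fun g => by
          rw [inner_add_right, inner_smul_right, inner_smul_right]
          have := H2 ⟨_, (he _).2 hze⟩ g
          simp only [w1', w3', hzv', zero_mul] at this
          have h4 := congrArg conj this
          simp only [map_add, map_mul, map_zero, inner_conj_symm, Complex.conj_conj] at h4
          linear_combination h4))
      have he3D : e3 ∈ D := (he _).2 hee
      have g1 := H2 ⟨e3, he3D⟩ ⟨e3, he3D⟩
      simp only [h31, h3, zero_mul, zero_add, mul_one] at g1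
      refine noeig3 (inner ℂ (v : K) e3) e3 h3 hee hee3 (fun g => ?_) ?_
      · rw [hbf, haf, hb3]
        have g2 := H2 ⟨e3, he3D⟩ g
        simp only [h31, h3, zero_mul, zero_add, one_mul] at g2
        rw [g2]
        linear_combination (inner ℂ (v : K) (g : K)) * g1
      · rw [inner_conj_symm]
        exact g1.symm

end

end Pool.Agent.R307.Tto
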