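import Pool.Agent.R307.TtoDef
import Pool.Agent.R307.Tto1

/-!
# Multiplication operators on `L²` of the circle
-/

set_option autoImplicit false

open MeasureTheory
open scoped ComplexConjugate

namespace Pool.Agent.R307.Tto

/-- normalised Haar measure on the circle -/
noncomputable abbrev hm : Measure (AddCircle (1 : ℝ)) := AddCircle.haarAddCircle (T := (1 : ℝ))

/-- monomials -/
noncomputable abbrev ee (n : ℤ) : L2 := fourierLp 2 n

lemma ee_coe (n : ℤ) : ∀ᵐ t ∂hm, ee n t = fourier n t := coeFn_fourierLp 2 n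

lemma norm_fourier (n : ℤ) (t : AddCircle (1 : ℝ)) : ‖fourier n t‖ = 1 := by
  rw [fourier_apply]; exact Circle.norm_coe _

lemma coeff_eq (f : L2) (n : ℤ) : fourierCoeff (f : AddCircle (1 : ℝ) → ℂ) n = inner ℂ (ee n) f := by
  rw [← fourierBasis_repr, HilbertBasis.repr_apply_apply, coe_fourierBasis]

lemma mem_H2 (f : L2) : f ∈ H2 ↔ ∀ n : ℤ, n < 0 → inner ℂ (ee n) f = (0 : ℂ) := by
  simp only [← coeff_eq]
  rfl

lemma eq_zero_of_coeff (f : L2) (h : ∀ n : ℤ, inner ℂ (ee n) f = (0 : ℂ)) : f = 0 := by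
  apply (fourierBasis (T := (1 : ℝ))).repr.injective
  ext n
  rw [map_zero, fourierBasis_repr, coeff_eq, h n]
  rfl

lemma ee_inner (m n : ℤ) : inner ℂ (ee m) (ee n) = if m = n then (1 : ℂ) else 0 := by
  have := (orthonormal_iff_ite (𝕜 := ℂ)).1 (orthonormal_fourier (T := (1 : ℝ))) m n
  exact this

/-- product of a bounded function and a function of `L²` -/
lemma ex_mul (u : AddCircle (1 : ℝ) → ℂ) (hu : AEStronglyMeasurable u hm) (C : ℝ)
    (hC : ∀ᵐ t ∂hm, ‖u t‖ ≤ C) (h : L2) : ∃ g : L2, ∀ᵐ t ∂hm, g t = u t * h t := by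
  have hmem : MemLp (fun t => u t * h t) 2 hm := by
    refine (Lp.memLp h).of_le_mul (c := C) (hu.mul (Lp.aestronglyMeasurable h)) ?_
    filter_upwards [hC] with t ht
    rw [norm_mul]
    exact mul_le_mul_of_nonneg_right ht (norm_nonneg _)
  exact ⟨hmem.toLp _, hmem.coeFn_toLp⟩

lemma ext_ae (f g : L2) (h : ∀ᵐ t ∂hm, f t = g t) : f = g := Lp.ext h

lemma inner_eq (f g : L2) : inner ℂ f g = ∫ t, conj (f t) * g t ∂hm := by
  rw [L2.inner_def]
  refine integral_congr_ae (Filter.Eventually.of_forall fun t => ?_)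
  simp [mul_comm]

/-- multiplication by the monomial of index `k` -/
noncomputable def zm (k : ℤ) (f : L2) : L2 :=
  (ex_mul (fun t => fourier k t) (fourier k).continuous.aestronglyMeasurable 1
    (Filter.Eventually.of_forall fun t => (norm_fourier k t).le) f).choose

lemma zm_coe (k : ℤ) (f : L2) : ∀ᵐ t ∂hm, zm k f t = fourier k t * f t :=
  (ex_mul (fun t => fourier k t) (fourier k).continuous.aestronglyMeasurable 1
    (Filter.Eventually.of_forall fun t => (norm_fourier k t).le) f).choose_spec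

lemma conj_mul_fourier (k : ℤ) (t : AddCircle (1 : ℝ)) : conj (fourier k t) * fourier k t = (1 : ℂ) := by
  rw [← Complex.normSq_eq_conj_mul_self, Complex.normSq_eq_norm_sq, norm_fourier]
  norm_num

lemma zm_inner (k : ℤ) (f g : L2) : inner ℂ (zm k f) (zm k g) = inner ℂ f g := by
  rw [inner_eq, inner_eq]
  refine integral_congr_ae ?_
  filter_upwards [zm_coe k f, zm_coe k g] with t h1 h2
  rw [h1, h2, map_mul]
  linear_combination (conj (f t) * g t) * conj_mul_fourier k t

lemma zm_zm (k l : ℤ) (f : L2) : zm k (zm l f) = zm (k + l) f := by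
  refine ext_ae _ _ ?_
  filter_upwards [zm_coe k (zm l f), zm_coe l f, zm_coe (k + l) f] with t h1 h2 h3
  rw [h1, h2, h3, fourier_add, mul_assoc]

lemma zm_zero' (f : L2) : zm 0 f = f := by
  refine ext_ae _ _ ?_
  filter_upwards [zm_coe 0 f] with t h1
  rw [h1, fourier_zero, one_mul]

lemma zm_add (k : ℤ) (f g : L2) : zm k (f + g) = zm k f + zm k g := by
  refine ext_ae _ _ ?_
  filter_upwards [zm_coe k (f + g), zm_coe k f, zm_coe k g, Lp.coeFn_add f g,
    Lp.coeFn_add (zm k f) (zm k g)] with t h1 h2 h3 h4 h5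
  rw [h1, h5, h4, Pi.add_apply, Pi.add_apply, h2, h3, mul_add]

lemma zm_smul (k : ℤ) (c : ℂ) (f : L2) : zm k (c • f) = c • zm k f := by
  refine ext_ae _ _ ?_
  filter_upwards [zm_coe k (c • f), zm_coe k f, Lp.coeFn_smul c f,
    Lp.coeFn_smul c (zm k f)] with t h1 h2 h3 h4
  rw [h1, h4, h3, Pi.smul_apply, Pi.smul_apply, h2, smul_eq_mul, smul_eq_mul]
  ring

lemma zm_ee (k n : ℤ) : zm k (ee n) = ee (k + n) := by
  refine ext_ae _ _ ?_
  filter_upwards [zm_coe k (ee n), ee_coe n, ee_coe (k + n)] with t h1 h2 h3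
  rw [h1, h2, h3, fourier_add]

lemma inner_ee_zm (m k : ℤ) (f : L2) : inner ℂ (ee m) (zm k f) = inner ℂ (ee (m - k)) f := by
  have : ee m = zm k (ee (m - k)) := by rw [zm_ee]; congr 1; ring
  rw [this, zm_inner]

lemma zm_inner_left (k : ℤ) (f g : L2) : inner ℂ (zm k f) g = inner ℂ f (zm (-k) g) := by
  have : g = zm k (zm (-k) g) := by rw [zm_zm, add_neg_cancel, zm_zero']
  conv_lhs => rw [this]
  rw [zm_inner]

lemma zm_mem_H2 {k : ℤ} (hk : 0 ≤ k) {f : L2} (hf : f ∈ H2) : zm k f ∈ H2 := by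
  rw [mem_H2] at hf ⊢
  intro n hn
  rw [inner_ee_zm]
  exact hf _ (by omega)

lemma mem_model (Θ f : L2) : f ∈ model Θ ↔ f ∈ H2 ∧ ∀ h ∈ H2, ∀ g : L2,
    (∀ᵐ t ∂hm, g t = Θ t * h t) → inner ℂ g f = (0 : ℂ) := Iff.rfl

/-- no eigenvectors of the shift in `H²` -/
lemma no_eig (f : L2) (hf : f ∈ H2) (c : ℂ) (h : zm 1 f = c • f) : f = 0 := by
  rw [mem_H2] at hf
  have hrec : ∀ n : ℤ, inner ℂ (ee (n - 1)) f = c * inner ℂ (ee n) f := fun n => by
    have := congrArg (inner ℂ (ee n)) h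
    rwa [inner_ee_zm, inner_smul_right] at this
  apply eq_zero_of_coeff
  by_cases hc : c = 0
  · intro n
    have := hrec (n + 1)
    rw [hc, zero_mul, add_sub_cancel_right] at this
    exact this
  · have hpos : ∀ n : ℕ, inner ℂ (ee (n : ℤ)) f = (0 : ℂ) := by
      intro n
      induction n with
      | zero =>
        have := hrec 0
        rw [hf _ (by norm_num)] at this
        exact (mul_eq_zero.1 this.symm).resolve_left hc
      | succ n ih =>
        have := hrec (n + 1)
        rw [add_sub_cancel_right, ih] at this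
        exact (mul_eq_zero.1 this.symm).resolve_left hc
    intro n
    rcases lt_or_ge n 0 with h | h
    · exact hf n h
    · obtain ⟨k, rfl⟩ := Int.eq_ofNat_of_zero_le h
      exact hpos k

end Pool.Agent.R307.Tto
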