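import Pool.Agent.R307.Tto2

/-!
# Finite dimensional model spaces consist of bounded functions
-/

set_option autoImplicit false

open MeasureTheory
open scoped ComplexConjugate

namespace Pool.Agent.R307.Tto

lemma bound_of_inner {Θ : L2} (h : IsInner Θ) : ∀ᵐ t ∂hm, ‖Θ t‖ ≤ 1 := by
  filter_upwards [h.2.1] with t ht
  exact ht.le

/-- the product of a bounded function of `H²` and a function of `H²` is in `H²` -/
lemma mul_mem_H2 {Θ : L2} (hΘ : IsInner Θ) {h g : L2} (hh : h ∈ H2)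
    (hg : ∀ᵐ t ∂hm, g t = Θ t * h t) : g ∈ H2 := by
  rw [mem_H2]
  intro m hm'
  -- the function `conj Θ z^m`
  obtain ⟨p, hp⟩ := ex_mul (fun t => conj (Θ t)) (Complex.continuous_conj.comp_aestronglyMeasurable
    (Lp.aestronglyMeasurable Θ)) 1 (by
      filter_upwards [bound_of_inner hΘ] with t ht
      simpa using ht) (ee m)
  have h1 : inner ℂ (ee m) g = inner ℂ p h := by
    rw [inner_eq, inner_eq]
    refine integral_congr_ae ?_
    filter_upwards [hg, hp] with t h1 h2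
    rw [h1, h2, map_mul, Complex.conj_conj]
    ring
  rw [h1, ← HilbertBasis.tsum_inner_mul_inner (fourierBasis (T := (1 : ℝ))) p h]
  have h2 : ∀ j : ℤ, inner ℂ p (fourierBasis (T := (1 : ℝ)) j) *
      inner ℂ (fourierBasis (T := (1 : ℝ)) j) h = (0 : ℂ) := by
    intro j
    rw [coe_fourierBasis]
    change inner ℂ p (ee j) * inner ℂ (ee j) h = (0 : ℂ)
    rcases lt_or_ge j 0 with hj | hj
    · rw [(mem_H2 h).1 hh j hj, mul_zero]
    · have h3 : inner ℂ p (ee j) = inner ℂ (ee (m - j)) Θ := by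
        rw [inner_eq, inner_eq]
        refine integral_congr_ae ?_
        filter_upwards [hp, ee_coe m, ee_coe j, ee_coe (m - j)] with t h1 h2 h3 h4
        rw [h1, h2, h3, h4, map_mul, Complex.conj_conj, sub_eq_add_neg, fourier_add, map_mul,
          fourier_neg, Complex.conj_conj]
        ring
      rw [h3, (mem_H2 Θ).1 hΘ.1 _ (by omega), zero_mul]
  rw [tsum_congr h2, tsum_zero]

/-- the bounded functions in the model space -/
noncomputable def bdd (Θ : L2) : Submodule ℂ (model Θ) where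
  carrier := {f | ∃ C : ℝ, ∀ᵐ t ∂hm, ‖(f : L2) t‖ ≤ C}
  zero_mem' := ⟨0, by
    filter_upwards [Lp.coeFn_zero ℂ 2 hm] with t ht
    change ‖(0 : L2) t‖ ≤ 0
    rw [ht]; simp⟩
  add_mem' := by
    rintro f g ⟨C, hC⟩ ⟨C', hC'⟩
    refine ⟨C + C', ?_⟩
    filter_upwards [hC, hC', Lp.coeFn_add (f : L2) (g : L2)] with t h1 h2 h3
    change ‖((f : L2) + (g : L2)) t‖ ≤ _
    rw [h3, Pi.add_apply]
    exact (norm_add_le _ _).trans (add_le_add h1 h2)
  smul_mem' := by
    rintro c f ⟨C, hC⟩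
    refine ⟨‖c‖ * C, ?_⟩
    filter_upwards [hC, Lp.coeFn_smul c (f : L2)] with t h1 h2
    change ‖(c • (f : L2)) t‖ ≤ _
    rw [h2, Pi.smul_apply, norm_smul]
    exact mul_le_mul_of_nonneg_left h1 (norm_nonneg _)

/-- bounded elements of `L²` -/
def Bd (f : L2) : Prop := ∃ C : ℝ, ∀ᵐ t ∂hm, ‖f t‖ ≤ C

lemma Bd.add {f g : L2} (hf : Bd f) (hg : Bd g) : Bd (f + g) := by
  obtain ⟨C, hC⟩ := hf
  obtain ⟨C', hC'⟩ := hg
  refine ⟨C + C', ?_⟩
  filter_upwards [hC, hC', Lp.coeFn_add f g] with t h1 h2 h3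
  rw [h3, Pi.add_apply]
  exact (norm_add_le _ _).trans (add_le_add h1 h2)

lemma Bd.smul {f : L2} (hf : Bd f) (c : ℂ) : Bd (c • f) := by
  obtain ⟨C, hC⟩ := hf
  refine ⟨‖c‖ * C, ?_⟩
  filter_upwards [hC, Lp.coeFn_smul c f] with t h1 h2
  rw [h2, Pi.smul_apply, norm_smul]
  exact mul_le_mul_of_nonneg_left h1 (norm_nonneg _)

lemma Bd.sub {f g : L2} (hf : Bd f) (hg : Bd g) : Bd (f - g) := by
  have : f - g = f + (-1 : ℂ) • g := by rw [neg_one_smul, sub_eq_add_neg]
  rw [this]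
  exact hf.add (hg.smul _)

lemma Bd.sum {ι : Type*} (s : Finset ι) (f : ι → L2) (h : ∀ i ∈ s, Bd (f i)) :
    Bd (∑ i ∈ s, f i) := by
  classical
  induction s using Finset.induction_on with
  | empty =>
    refine ⟨0, ?_⟩
    filter_upwards [Lp.coeFn_zero ℂ 2 hm] with t ht
    rw [Finset.sum_empty, ht]; simp
  | insert a s ha ih =>
    rw [Finset.sum_insert ha]
    exact (h a (Finset.mem_insert_self _ _)).add
      (ih fun i hi => h i (Finset.mem_insert_of_mem hi))

lemma Bd_ee (n : ℤ) : Bd (ee n) := ⟨1, by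
  filter_upwards [ee_coe n] with t ht
  rw [ht, norm_fourier]⟩

lemma Bd.zm {f : L2} (hf : Bd f) (k : ℤ) : Bd (zm k f) := by
  obtain ⟨C, hC⟩ := hf
  refine ⟨C, ?_⟩
  filter_upwards [hC, zm_coe k f] with t h1 h2
  rw [h2, norm_mul, norm_fourier, one_mul]
  exact h1

/-- the backward shifts of `Θ` -/
noncomputable def th (Θ : L2) (n : ℕ) : L2 :=
  zm (-(n : ℤ)) (Θ - ∑ j ∈ Finset.range n, inner ℂ (ee (j : ℤ)) Θ • ee (j : ℤ))

lemma th_eq (Θ : L2) (n : ℕ) : th Θ n = zm (-(n : ℤ)) Θ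
    - ∑ j ∈ Finset.range n, inner ℂ (ee (j : ℤ)) Θ • ee (-(n : ℤ) + j) := by
  have hsum : ∀ s : Finset ℕ, zm (-(n : ℤ)) (∑ j ∈ s, inner ℂ (ee (j : ℤ)) Θ • ee (j : ℤ))
      = ∑ j ∈ s, inner ℂ (ee (j : ℤ)) Θ • ee (-(n : ℤ) + j) := by
    classical
    intro s
    induction s using Finset.induction_on with
    | empty =>
      rw [Finset.sum_empty, Finset.sum_empty]
      have := zm_smul (-(n : ℤ)) 0 (0 : L2)
      simpa using this
    | insert a s ha ih =>
      rw [Finset.sum_insert ha, Finset.sum_insert ha, zm_add, ih, zm_smul, zm_ee]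
  unfold th
  have h2 : ∀ f g : L2, zm (-(n : ℤ)) (f - g) = zm (-(n : ℤ)) f - zm (-(n : ℤ)) g := fun f g => by
    have : f - g = f + (-1 : ℂ) • g := by rw [neg_one_smul, sub_eq_add_neg]
    rw [this, zm_add, zm_smul, neg_one_smul, ← sub_eq_add_neg]
  rw [h2, hsum]

lemma th_Bd {Θ : L2} (hΘ : IsInner Θ) (n : ℕ) : Bd (th Θ n) := by
  unfold th
  refine Bd.zm (Bd.sub ⟨1, bound_of_inner hΘ⟩ (Bd.sum _ _ fun i _ => (Bd_ee _).smul _)) _

lemma th_mem {Θ : L2} (hΘ : IsInner Θ) {n : ℕ} (hn : 1 ≤ n) : th Θ n ∈ model Θ := by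
  rw [mem_model]
  constructor
  · rw [mem_H2]
    intro m hm'
    unfold th
    rw [inner_ee_zm, inner_sub_right, inner_sum]
    simp only [inner_smul_right, ee_inner]
    rcases lt_or_ge (m - -(n : ℤ)) 0 with h | h
    · rw [(mem_H2 Θ).1 hΘ.1 _ h, Finset.sum_eq_zero, sub_zero]
      intro j _
      rw [if_neg (by omega), mul_zero]
    · obtain ⟨k, hk⟩ := Int.eq_ofNat_of_zero_le h
      rw [hk, Finset.sum_eq_single k]
      · simp
      · intro j _ hj
        rw [if_neg (by intro h; exact hj (by exact_mod_cast h.symm)), mul_zero]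
      · intro hk'
        exfalso
        apply hk'
        rw [Finset.mem_range]
        omega
  · intro h hh g hg
    rw [th_eq, inner_sub_right, inner_sum]
    have h1 : inner ℂ g (zm (-(n : ℤ)) Θ) = inner ℂ h (ee (-(n : ℤ))) := by
      rw [inner_eq, inner_eq]
      refine integral_congr_ae ?_
      filter_upwards [hg, hΘ.2.1, zm_coe (-(n : ℤ)) Θ, ee_coe (-(n : ℤ))] with t h1 h2 h3 h4
      rw [h1, h3, h4, map_mul]
      have h5 : conj (Θ t) * Θ t = (1 : ℂ) := by
        rw [← Complex.normSq_eq_conj_mul_self, Complex.normSq_eq_norm_sq, h2]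
        norm_num
      linear_combination (conj (h t) * fourier (-(n : ℤ)) t) * h5
    have h2 : inner ℂ h (ee (-(n : ℤ))) = (0 : ℂ) := by
      rw [← inner_conj_symm, (mem_H2 h).1 hh _ (by omega), map_zero]
    rw [h1, h2, Finset.sum_eq_zero, sub_zero]
    intro j hj
    have hj2 := Finset.mem_range.1 hj
    have h3 : inner ℂ g (ee (-(n : ℤ) + j)) = (0 : ℂ) := by
      rw [← inner_conj_symm, (mem_H2 g).1 (mul_mem_H2 hΘ hh hg) _ (by omega), map_zero]
    rw [inner_smul_right, h3, mul_zero]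

lemma ee_mem_H2 {k : ℤ} (hk : 0 ≤ k) : ee k ∈ H2 := by
  rw [mem_H2]
  intro n hn
  rw [ee_inner, if_neg (by omega)]

/-- a function of the model space which is orthogonal to the backward shifts of `Θ` vanishes -/
lemma eq_zero_of_perp {Θ : L2} (hΘ : IsInner Θ) (f : L2) (hf : f ∈ model Θ)
    (h : ∀ n : ℕ, 1 ≤ n → inner ℂ (th Θ n) f = (0 : ℂ)) : f = 0 := by
  obtain ⟨hf1, hf2⟩ := (mem_model Θ f).1 hf
  have hall : ∀ k : ℤ, inner ℂ (zm k Θ) f = (0 : ℂ) := by
    intro k
    rcases lt_or_ge k 0 with hk | hk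
    · obtain ⟨n, hn⟩ := Int.eq_ofNat_of_zero_le (show 0 ≤ -k by omega)
      have hk2 : k = -(n : ℤ) := by omega
      have h1 := h n (by omega)
      rw [th_eq, inner_sub_left, sum_inner, Finset.sum_eq_zero, sub_zero, ← hk2] at h1
      · exact h1
      · intro j hj
        have hj2 := Finset.mem_range.1 hj
        rw [inner_smul_left, (mem_H2 f).1 hf1 _ (by omega), mul_zero]
    · refine hf2 (ee k) (ee_mem_H2 hk) _ ?_
      filter_upwards [zm_coe k Θ, ee_coe k] with t h1 h2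
      rw [h1, h2, mul_comm]
  obtain ⟨q, hq⟩ := ex_mul (fun t => conj (Θ t)) (Complex.continuous_conj.comp_aestronglyMeasurable
    (Lp.aestronglyMeasurable Θ)) 1 (by
      filter_upwards [bound_of_inner hΘ] with t ht
      simpa using ht) f
  have hq0 : q = 0 := by
    apply eq_zero_of_coeff
    intro k
    rw [← hall k, inner_eq, inner_eq]
    refine integral_congr_ae ?_
    filter_upwards [hq, zm_coe k Θ, ee_coe k] with t h1 h2 h3
    rw [h1, h2, h3, map_mul]
    ring
  refine ext_ae _ _ ?_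
  filter_upwards [hq, hΘ.2.1, Lp.coeFn_zero ℂ 2 hm] with t h1 h2 h3
  rw [hq0, h3, Pi.zero_apply] at h1
  rw [h3, Pi.zero_apply]
  rcases mul_eq_zero.1 h1.symm with h4 | h4
  · exfalso
    have h5 : Θ t = 0 := by simpa using h4
    rw [h5, norm_zero] at h2
    exact zero_ne_one h2
  · exact h4

/-- the functions of a finite dimensional model space are bounded -/
theorem all_Bd {Θ : L2} (hΘ : IsInner Θ) [FiniteDimensional ℂ (model Θ)] (f : model Θ) :
    Bd (f : L2) := by
  have h1 : (bdd Θ)ᗮ = ⊥ := by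
    rw [Submodule.eq_bot_iff]
    intro x hx
    rw [Submodule.mem_orthogonal] at hx
    have h2 : (x : L2) = 0 := by
      refine eq_zero_of_perp hΘ x x.2 fun n hn => ?_
      exact hx ⟨th Θ n, th_mem hΘ hn⟩ (th_Bd hΘ n)
    exact Subtype.ext h2
  have h2 : bdd Θ = ⊤ := by
    rw [← Submodule.orthogonal_orthogonal (bdd Θ), h1, Submodule.bot_orthogonal_eq_top]
  have h3 : f ∈ bdd Θ := by rw [h2]; exact Submodule.mem_top
  exact h3

end Pool.Agent.R307.Tto
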