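import Pool.Agent.R307.Tto3

/-!
# The operator `T ⊕ 0` is not unitarily equivalent to a truncated Toeplitz operator
-/

set_option autoImplicit false

open MeasureTheory
open scoped ComplexConjugate

namespace Pool.Agent.R307.Tto

/-- multiplication by `z` as a linear map -/
noncomputable def Zl : L2 →ₗ[ℂ] L2 where
  toFun := zm 1
  map_add' := zm_add 1
  map_smul' := zm_smul 1

/-- the functions `f` of the model space with `z f` in the model space -/
noncomputable def DD (Θ : L2) : Submodule ℂ (model Θ) :=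
  (model Θ).comap (Zl.comp (model Θ).subtype)

/-- multiplication by `z` on `DD` as a linear map -/
noncomputable def Wl (Θ : L2) : DD Θ →ₗ[ℂ] model Θ :=
  LinearMap.codRestrict (model Θ) (Zl.comp ((model Θ).subtype.comp (DD Θ).subtype))
    (fun f => f.2)

/-- multiplication by `z` on `DD` -/
noncomputable def WW (Θ : L2) : DD Θ →ₗᵢ[ℂ] model Θ := by
  refine LinearMap.isometryOfInner (E := DD Θ) (E' := model Θ) (𝕜 := ℂ) (Wl Θ) ?_
  intro f g
  exact zm_inner 1 ((f : model Θ) : L2) ((g : model Θ) : L2)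

lemma WW_coe (Θ : L2) (f : DD Θ) : ((WW Θ f : model Θ) : L2) = zm 1 ((f : model Θ) : L2) := rfl

lemma WW_eig (Θ : L2) (f : DD Θ) (c : ℂ) (h : WW Θ f = c • (f : model Θ)) : f = 0 := by
  have h1 : zm 1 ((f : model Θ) : L2) = c • ((f : model Θ) : L2) := by
    rw [← WW_coe, h]; rfl
  have h2 := no_eig _ ((mem_model Θ _).1 (f : model Θ).2).1 c h1
  exact Subtype.ext (Subtype.ext h2)

/-- membership in `DD` is one linear condition -/
lemma mem_DD {Θ : L2} (f : model Θ) (h : inner ℂ Θ (zm 1 (f : L2)) = (0 : ℂ)) : f ∈ DD Θ := by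
  obtain ⟨hf1, hf2⟩ := (mem_model Θ _).1 f.2
  change zm 1 (f : L2) ∈ model Θ
  rw [mem_model]
  refine ⟨zm_mem_H2 (by norm_num) hf1, fun x hx g hg => ?_⟩
  -- `x = c + z x'`
  set c := inner ℂ (ee 0) x with hc
  set x' := zm (-1) (x - c • ee 0) with hx'
  have hx'H : x' ∈ H2 := by
    rw [mem_H2]
    intro n hn
    rw [hx', inner_ee_zm, inner_sub_right, inner_smul_right, ee_inner]
    by_cases h0 : n - -1 = 0
    · rw [if_pos h0, h0, mul_one, hc, sub_self]
    · rw [if_neg h0, mul_zero, sub_zero]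
      exact (mem_H2 x).1 hx _ (by omega)
  obtain ⟨g', hg'⟩ : ∃ g' : L2, ∀ᵐ t ∂hm, g' t = Θ t * x' t := by
    refine ⟨zm (-1) (g - c • Θ), ?_⟩
    filter_upwards [zm_coe (-1) (g - c • Θ), Lp.coeFn_sub g (c • Θ), Lp.coeFn_smul c Θ, hg,
      zm_coe (-1) (x - c • ee 0), Lp.coeFn_sub x (c • ee 0), Lp.coeFn_smul c (ee 0), ee_coe 0]
      with t h1 h2 h3 h4 h5 h6 h7 h8
    rw [hx', h1, h2, h5, h6, Pi.sub_apply, Pi.sub_apply, h3, h7, Pi.smul_apply, Pi.smul_apply, h4,
      h8, fourier_zero, smul_eq_mul, smul_eq_mul]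
    ring
  have h3 := hf2 x' hx'H g' hg'
  have hsplit : g = c • Θ + zm 1 g' := by
    refine ext_ae _ _ ?_
    filter_upwards [Lp.coeFn_add (c • Θ) (zm 1 g'), Lp.coeFn_smul c Θ, hg, zm_coe 1 g', hg',
      zm_coe (-1) (x - c • ee 0), Lp.coeFn_sub x (c • ee 0), Lp.coeFn_smul c (ee 0), ee_coe 0]
      with t h1 h2 h3 h4 h5 h6 h7 h8 h9
    have h10 : x' t = fourier (-1) t * (x t - c) := by
      rw [hx', h6, h7, Pi.sub_apply, h8, Pi.smul_apply, h9, fourier_zero, smul_eq_mul, mul_one]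
    rw [h1, Pi.add_apply, h2, Pi.smul_apply, h3, h4, h5, h10, smul_eq_mul]
    have h11 : fourier 1 t * fourier (-1) t = (1 : ℂ) := by
      rw [← fourier_add]; simp
    linear_combination (-(Θ t * (x t - c))) * h11
  rw [hsplit, inner_add_left, inner_smul_left, h, mul_zero, zero_add, zm_inner]
  exact h3

lemma finrank_DD {Θ : L2} [FiniteDimensional ℂ (model Θ)] (hpos : 0 < Module.finrank ℂ (model Θ)) :
    Module.finrank ℂ (DD Θ) + 1 = Module.finrank ℂ (model Θ) := by
  set l : model Θ →ₗ[ℂ] ℂ := (innerSL ℂ Θ).toLinearMap.comp (Zl.comp (model Θ).subtype) with hl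
  have hker : LinearMap.ker l ≤ DD Θ := fun f hf => mem_DD f hf
  have h1 := LinearMap.finrank_range_add_finrank_ker l
  have h2 : Module.finrank ℂ (LinearMap.range l) ≤ 1 := by
    have := Submodule.finrank_le (LinearMap.range l)
    simpa using this
  have h3 := Submodule.finrank_mono hker
  have h4 : DD Θ ≠ ⊤ := by
    intro htop
    have : Nontrivial (model Θ) := Module.nontrivial_of_finrank_pos hpos
    have hmem : ∀ x : model Θ, x ∈ DD Θ := fun x => by rw [htop]; exact Submodule.mem_top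
    set T : model Θ →ₗ[ℂ] model Θ :=
      { toFun := fun x => WW Θ ⟨x, hmem x⟩
        map_add' := fun x y => by
          rw [← map_add]; rfl
        map_smul' := fun c x => by
          rw [RingHom.id_apply, ← map_smul]; rfl } with hT
    obtain ⟨c, hc⟩ := Module.End.exists_eigenvalue T
    obtain ⟨v, hv⟩ := hc.exists_hasEigenvector
    have h5 : WW Θ ⟨v, hmem v⟩ = c • v := hv.apply_eq_smul
    have h6 := WW_eig Θ ⟨v, hmem v⟩ c h5
    have h7 : v = 0 := congrArg (fun x : DD Θ => (x : model Θ)) h6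
    exact hv.2 h7
  have h5 := Submodule.finrank_lt h4
  omega

lemma tto_inv {Θ φ : L2} (hΘ : IsInner Θ) [FiniteDimensional ℂ (model Θ)]
    (A : model Θ →L[ℂ] model Θ) (hA : IsTTO Θ φ A) (f g : DD Θ) :
    inner ℂ (WW Θ f) (A (WW Θ g)) = inner ℂ (f : model Θ) (A (g : model Θ)) := by
  obtain ⟨C, hC⟩ := all_Bd hΘ (g : model Θ)
  obtain ⟨p, hp⟩ := ex_mul (fun t => ((g : model Θ) : L2) t) (Lp.aestronglyMeasurable _) C hC φ
  have h1 := hA (g : model Θ) p ⟨C, hC⟩ (by
    filter_upwards [hp] with t h1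
    rw [h1, mul_comm]) (f : model Θ)
  have h2 := hA (WW Θ g) (zm 1 p) (all_Bd hΘ _) (by
    filter_upwards [hp, zm_coe 1 p, zm_coe 1 ((g : model Θ) : L2)] with t h1 h2 h3
    rw [h2, h1, WW_coe, h3]
    ring) (WW Θ f)
  rw [WW_coe, zm_inner] at h2
  calc inner ℂ (WW Θ f) (A (WW Θ g)) = inner ℂ (zm 1 ((f : model Θ) : L2)) ((A (WW Θ g) : model Θ) : L2) := rfl
    _ = inner ℂ ((f : model Θ) : L2) p := h2.symm
    _ = inner ℂ ((f : model Θ) : L2) ((A (g : model Θ) : model Θ) : L2) := h1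
    _ = _ := rfl

end Pool.Agent.R307.Tto
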