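import Pool.Agent.R307.Tto4

/-!
# The counterexample
-/

set_option autoImplicit false

open MeasureTheory
open scoped ComplexConjugate

namespace Pool.Agent.R307.Tto

lemma addZero_apply {H : Type} [NormedAddCommGroup H] [InnerProductSpace ℂ H]
    (T : H →L[ℂ] H) (x : H) (c : ℂ) :
    addZero T (WithLp.toLp 2 (x, c)) = WithLp.toLp 2 (T x, 0) := rfl

lemma Top_apply (m : ℕ) (x : EuclideanSpace ℂ (Fin (m + 3))) :
    Top m x = x - x 0 • EuclideanSpace.single (Fin.last (m + 2)) (1 : ℂ) := rfl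

theorem not_uetto (m : ℕ) : ¬ UETTO (addZero (Top m)) := by
  rintro ⟨Θ, φ, hΘ, A, hA, U, hU⟩
  have hfd : FiniteDimensional ℂ (model Θ) := U.toLinearEquiv.finiteDimensional
  have hrank : Module.finrank ℂ (model Θ) = m + 3 + 1 := by
    rw [← U.toLinearEquiv.finrank_eq,
      (WithLp.linearEquiv 2 ℂ (EuclideanSpace ℂ (Fin (m + 3)) × ℂ)).finrank_eq,
      Module.finrank_prod, finrank_euclideanSpace_fin, Module.finrank_self]
  set x1 : WithLp 2 (EuclideanSpace ℂ (Fin (m + 3)) × ℂ) :=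
    WithLp.toLp 2 (EuclideanSpace.single (Fin.last (m + 2)) (1 : ℂ), 0) with hx1
  set x2 : WithLp 2 (EuclideanSpace ℂ (Fin (m + 3)) × ℂ) :=
    WithLp.toLp 2 (EuclideanSpace.single 0 (1 : ℂ), 0) with hx2
  set x3 : WithLp 2 (EuclideanSpace ℂ (Fin (m + 3)) × ℂ) := WithLp.toLp 2 (0, 1) with hx3
  have h0 : (Fin.last (m + 2)) ≠ (0 : Fin (m + 3)) := by
    intro h
    have := congrArg Fin.val h
    simp at this
  have i11 : inner ℂ x1 x1 = (1 : ℂ) := by
    rw [WithLp.prod_inner_apply]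
    simp [hx1]
  have i22 : inner ℂ x2 x2 = (1 : ℂ) := by
    rw [WithLp.prod_inner_apply]
    simp [hx2]
  have i33 : inner ℂ x3 x3 = (1 : ℂ) := by
    rw [WithLp.prod_inner_apply]
    simp [hx3]
  have i12 : inner ℂ x1 x2 = (0 : ℂ) := by
    rw [WithLp.prod_inner_apply]
    simp [hx1, hx2, EuclideanSpace.inner_single_left, h0]
  have i13 : inner ℂ x1 x3 = (0 : ℂ) := by
    rw [WithLp.prod_inner_apply]
    simp [hx1, hx3]
  have i23 : inner ℂ x2 x3 = (0 : ℂ) := by
    rw [WithLp.prod_inner_apply]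
    simp [hx2, hx3]
  have key : ∀ y : model Θ, y - A y = inner ℂ (U x2) y • U x1 + inner ℂ (U x3) y • U x3 := by
    intro y
    obtain ⟨x, rfl⟩ := U.surjective y
    obtain ⟨⟨x', c⟩, rfl⟩ : ∃ z : EuclideanSpace ℂ (Fin (m + 3)) × ℂ, WithLp.toLp 2 z = x :=
      ⟨WithLp.ofLp x, rfl⟩
    rw [← hU, ← map_sub, U.inner_map_map, U.inner_map_map, ← map_smul, ← map_smul, ← map_add]
    congr 1
    have j2 : inner ℂ x2 (WithLp.toLp 2 (x', c)) = x' 0 := by
      rw [WithLp.prod_inner_apply]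
      simp [hx2, EuclideanSpace.inner_single_left]
    have j3 : inner ℂ x3 (WithLp.toLp 2 (x', c)) = c := by
      rw [WithLp.prod_inner_apply]
      simp [hx3]
    rw [j2, j3, addZero_apply, Top_apply]
    apply (WithLp.linearEquiv 2 ℂ (EuclideanSpace ℂ (Fin (m + 3)) × ℂ)).injective
    rw [map_sub, map_add, map_smul, map_smul]
    simp [hx1, hx3]
  refine main (K := model Θ) (by omega) (DD Θ) (finrank_DD (by omega)) (WW Θ) (WW_eig Θ)
    (U x1) (U x2) (U x3) ?_ ?_ ?_ ?_ ?_ ?_ ?_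
  · rw [U.inner_map_map, i11]
  · rw [U.inner_map_map, i22]
  · rw [U.inner_map_map, i33]
  · rw [U.inner_map_map, i12]
  · rw [U.inner_map_map, i13]
  · rw [U.inner_map_map, i23]
  · intro f g
    have e : ∀ y z : model Θ, inner ℂ y (U x1) * inner ℂ (U x2) z + inner ℂ y (U x3) * inner ℂ (U x3) z
        = inner ℂ y z - inner ℂ y (A z) := by
      intro y z
      have h1 : inner ℂ y (z - A z) = inner ℂ y z - inner ℂ y (A z) :=
        inner_sub_right (𝕜 := ℂ) (E := model Θ) y z (A z)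
      have h2 : inner ℂ y (inner ℂ (U x2) z • U x1 + inner ℂ (U x3) z • U x3)
          = inner ℂ (U x2) z * inner ℂ y (U x1) + inner ℂ (U x3) z * inner ℂ y (U x3) := by
        have h3 := inner_add_right (𝕜 := ℂ) (E := model Θ) y (inner ℂ (U x2) z • U x1)
          (inner ℂ (U x3) z • U x3)
        have h4 := inner_smul_right (𝕜 := ℂ) (E := model Θ) y (U x1) (inner ℂ (U x2) z)
        have h5 := inner_smul_right (𝕜 := ℂ) (E := model Θ) y (U x3) (inner ℂ (U x3) z)
        exact h3.trans (congrArg₂ (· + ·) h4 h5)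
      rw [← h1, key z, h2]
      ring
    have h6 : inner ℂ (WW Θ f) (WW Θ g) = inner ℂ (f : model Θ) (g : model Θ) :=
      zm_inner 1 ((f : model Θ) : L2) ((g : model Θ) : L2)
    rw [e, e, tto_inv hΘ A hA f g, h6]

end Pool.Agent.R307.Tto
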