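import Pool.Agent.R307.Tto5

/-!
# The operator `T` is unitarily equivalent to a truncated Toeplitz operator
-/

set_option autoImplicit false

open MeasureTheory
open scoped ComplexConjugate

namespace Pool.Agent.R307.Tto

lemma inner_tsum_zero (g q : L2) (h : ∀ j : ℤ, inner ℂ g (ee j) = (0 : ℂ) ∨ inner ℂ (ee j) q = (0 : ℂ)) :
    inner ℂ g q = (0 : ℂ) := by
  rw [← HilbertBasis.tsum_inner_mul_inner (fourierBasis (T := (1 : ℝ))) g q]
  have h2 : ∀ j : ℤ, inner ℂ g (fourierBasis (T := (1 : ℝ)) j) *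
      inner ℂ (fourierBasis (T := (1 : ℝ)) j) q = (0 : ℂ) := by
    intro j
    rw [coe_fourierBasis]
    change inner ℂ g (ee j) * inner ℂ (ee j) q = (0 : ℂ)
    rcases h j with h | h
    · rw [h, zero_mul]
    · rw [h, mul_zero]
  rw [tsum_congr h2, tsum_zero]

lemma inner_ee (n : ℕ) (hn : 1 ≤ n) : IsInner (ee (n : ℤ)) := by
  refine ⟨ee_mem_H2 (by omega), ?_, ?_⟩
  · filter_upwards [ee_coe (n : ℤ)] with t ht
    rw [ht, norm_fourier]
  · rintro ⟨c, hc⟩
    have h1 : ee (n : ℤ) = c • ee 0 := by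
      refine ext_ae _ _ ?_
      filter_upwards [hc, Lp.coeFn_smul c (ee 0), ee_coe 0] with t h1 h2 h3
      rw [h1, h2, Pi.smul_apply, h3, fourier_zero, smul_eq_mul, mul_one]
    have h2 := congrArg (inner ℂ (ee (n : ℤ))) h1
    rw [inner_smul_right, ee_inner, ee_inner, if_pos rfl, if_neg (by omega), mul_zero] at h2
    exact one_ne_zero h2

lemma mem_model_ee (n : ℕ) (f : L2) : f ∈ model (ee (n : ℤ)) ↔
    ∀ j : ℤ, (j < 0 ∨ (n : ℤ) ≤ j) → inner ℂ (ee j) f = (0 : ℂ) := by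
  rw [mem_model]
  constructor
  · rintro ⟨h1, h2⟩ j (hj | hj)
    · exact (mem_H2 f).1 h1 j hj
    · refine h2 (ee (j - n)) (ee_mem_H2 (by omega)) (ee j) ?_
      filter_upwards [ee_coe j, ee_coe (n : ℤ), ee_coe (j - n)] with t h1 h2 h3
      rw [h1, h2, h3, ← fourier_add]
      congr 2
      ring
  · intro h
    refine ⟨(mem_H2 f).2 fun j hj => h j (Or.inl hj), fun x hx g hg => ?_⟩
    have hg2 : g = zm n x := by
      refine ext_ae _ _ ?_
      filter_upwards [hg, zm_coe n x, ee_coe (n : ℤ)] with t h1 h2 h3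
      rw [h1, h2, h3]
    refine inner_tsum_zero g f fun j => ?_
    rcases lt_or_ge j n with hj | hj
    · left
      rw [← inner_conj_symm, hg2, inner_ee_zm, (mem_H2 x).1 hx _ (by omega), map_zero]
    · right
      exact h j (Or.inr hj)

/-- the basis of monomials of the model space of `z ^ n` -/
noncomputable def vv (n : ℕ) (j : Fin n) : model (ee (n : ℤ)) :=
  ⟨ee (j : ℕ), (mem_model_ee n _).2 fun i hi => by
    rw [ee_inner, if_neg]
    have := j.2
    omega⟩

lemma vv_on (n : ℕ) : Orthonormal ℂ (vv n) := by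
  rw [orthonormal_iff_ite]
  intro i j
  change inner ℂ (ee ((i : ℕ) : ℤ)) (ee ((j : ℕ) : ℤ)) = _
  rw [ee_inner]
  by_cases h : i = j
  · rw [if_pos h, if_pos (by rw [h])]
  · rw [if_neg h, if_neg]
    intro h2
    exact h (Fin.ext (by exact_mod_cast h2))

lemma vv_span (n : ℕ) : (Submodule.span ℂ (Set.range (vv n)))ᗮ = ⊥ := by
  rw [Submodule.eq_bot_iff]
  intro f hf
  rw [Submodule.mem_orthogonal] at hf
  apply Subtype.ext
  apply eq_zero_of_coeff
  intro j
  by_cases hj : j < 0 ∨ (n : ℤ) ≤ j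
  · exact (mem_model_ee n _).1 f.2 j hj
  · push Not at hj
    obtain ⟨k, rfl⟩ := Int.eq_ofNat_of_zero_le hj.1
    have hk : k < n := by exact_mod_cast hj.2
    exact hf (vv n ⟨k, hk⟩) (Submodule.subset_span ⟨_, rfl⟩)

/-- the orthonormal basis of monomials -/
noncomputable def vb (n : ℕ) : OrthonormalBasis (Fin n) ℂ (model (ee (n : ℤ))) :=
  OrthonormalBasis.mkOfOrthogonalEqBot (vv_on n) (vv_span n)

lemma vb_apply (n : ℕ) (j : Fin n) : vb n j = vv n j := by
  unfold vb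
  rw [OrthonormalBasis.coe_of_orthogonal_eq_bot_mk]

lemma vb_repr (n : ℕ) (f : model (ee (n : ℤ))) (j : Fin n) :
    (vb n).repr f j = inner ℂ (ee ((j : ℕ) : ℤ)) (f : L2) := by
  rw [OrthonormalBasis.repr_apply_apply, vb_apply]
  rfl

theorem uetto (m : ℕ) : UETTO (Top m) := by
  set U := (vb (m + 3)).repr.symm with hU
  set A : model (ee ((m + 3 : ℕ) : ℤ)) →L[ℂ] model (ee ((m + 3 : ℕ) : ℤ)) :=
    ((vb (m + 3)).repr.symm.toContinuousLinearEquiv : EuclideanSpace ℂ (Fin (m + 3)) →L[ℂ] _).comp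
      ((Top m).comp ((vb (m + 3)).repr.toContinuousLinearEquiv : _ →L[ℂ] EuclideanSpace ℂ (Fin (m + 3))))
    with hAdef
  have hAf : ∀ f, A f = (vb (m + 3)).repr.symm (Top m ((vb (m + 3)).repr f)) := fun f => rfl
  refine ⟨ee ((m + 3 : ℕ) : ℤ), ee 0 - ee ((m + 2 : ℕ) : ℤ), inner_ee _ (by omega), A, ?_, U,
    fun x => ?_⟩
  · intro f p _ hp g
    have hp2 : p = (f : L2) - zm ((m + 2 : ℕ) : ℤ) (f : L2) := by
      refine ext_ae _ _ ?_
      filter_upwards [hp, Lp.coeFn_sub (f : L2) (zm ((m + 2 : ℕ) : ℤ) (f : L2)),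
        zm_coe ((m + 2 : ℕ) : ℤ) (f : L2), Lp.coeFn_sub (ee 0) (ee ((m + 2 : ℕ) : ℤ)), ee_coe 0,
        ee_coe ((m + 2 : ℕ) : ℤ)] with t h1 h2 h3 h4 h5 h6
      rw [h1, h2, Pi.sub_apply, h3, h4, Pi.sub_apply, h5, h6, fourier_zero]
      ring
    have hcoef : ∀ j : Fin (m + 3), inner ℂ (ee ((j : ℕ) : ℤ)) (p - (A f : L2)) = (0 : ℂ) := by
      intro j
      rw [inner_sub_right, ← vb_repr, hAf, LinearIsometryEquiv.apply_symm_apply, Top_apply]
      have h1 : ((vb (m + 3)).repr f - (vb (m + 3)).repr f 0 • EuclideanSpace.single (Fin.last (m + 2)) (1 : ℂ)) j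
          = (vb (m + 3)).repr f j - (vb (m + 3)).repr f 0 * (if j = Fin.last (m + 2) then 1 else 0) := by
        simp
      rw [h1, vb_repr, vb_repr, hp2, inner_sub_right, inner_ee_zm]
      by_cases hj : j = Fin.last (m + 2)
      · rw [if_pos hj, hj]
        simp
      · rw [if_neg hj]
        have hj2 : (j : ℕ) < m + 2 := by
          have h2 := j.2
          have h3 : (j : ℕ) ≠ m + 2 := fun h => hj (Fin.ext (by simpa using h))
          omega
        have h4 := (mem_model_ee (m + 3) (f : L2)).1 f.2 (((j : ℕ) : ℤ) - ((m + 2 : ℕ) : ℤ))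
          (Or.inl (by omega))
        rw [h4]
        ring
    have h0 : inner ℂ (g : L2) (p - (A f : L2)) = (0 : ℂ) := by
      refine inner_tsum_zero _ _ fun j => ?_
      by_cases hj : j < 0 ∨ ((m + 3 : ℕ) : ℤ) ≤ j
      · left
        rw [← inner_conj_symm, (mem_model_ee _ _).1 g.2 j hj, map_zero]
      · right
        push Not at hj
        obtain ⟨k, rfl⟩ := Int.eq_ofNat_of_zero_le hj.1
        exact hcoef ⟨k, by exact_mod_cast hj.2⟩
    rw [inner_sub_right] at h0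
    exact sub_eq_zero.1 h0
  · rw [hAf, hU, LinearIsometryEquiv.apply_symm_apply]

end Pool.Agent.R307.Tto
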