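import Pool.Agent.R307.TtoDef3
import Pool.Agent.R307.Tto6

/-!
# Transfer to the final definitions
-/

set_option autoImplicit false

open MeasureTheory

namespace Pool.Agent.R307.Ttz

lemma corner_eq (m : ℕ) (x : EuclideanSpace ℂ (Fin (m + 3))) :
    corner m x = Tto.Top m x := by
  rw [Tto.Top_apply]
  refine PiLp.ext fun i => ?_
  have h1 : (x - x 0 • EuclideanSpace.single (Fin.last (m + 2)) (1 : ℂ)) i
      = x i - x 0 * (if i = Fin.last (m + 2) then 1 else 0) := by
    simp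
  rw [h1]
  change x i - (if (i : ℕ) = m + 2 then x 0 else 0) = _
  by_cases h : i = Fin.last (m + 2)
  · rw [if_pos h, if_pos (by rw [h]; simp), mul_one]
  · rw [if_neg h, if_neg, mul_zero]
    intro h2
    exact h (Fin.ext (by simp; omega))

lemma inModel_iff (Θ f : Tto.L2) : InModel Θ f ↔ f ∈ Tto.model Θ := Iff.rfl

/-- A unitary map onto the model space, as a linear isometric equivalence. -/
lemma unitary_equiv {H : Type} [NormedAddCommGroup H] [InnerProductSpace ℂ H] (Θ : Tto.L2)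
    (U : H → Tto.L2) (hU : UnitaryOnto Θ U) :
    ∃ V : H ≃ₗᵢ[ℂ] Tto.model Θ, ∀ x, (V x : Tto.L2) = U x := by
  obtain ⟨hm, hs, hi⟩ := hU
  have hi' : ∀ x y : H, inner ℂ (U x) (U y) = (inner ℂ x y : ℂ) := hi
  have hz : ∀ w : Tto.L2, w ∈ Tto.model Θ → (∀ z : H, inner ℂ (U z) w = (0 : ℂ)) → w = 0 := by
    intro w hwm hw
    obtain ⟨z, rfl⟩ := hs w hwm
    exact inner_self_eq_zero.1 (hw z)
  have hadd : ∀ x y, U (x + y) = U x + U y := by
    intro x y
    have := hz (U (x + y) - (U x + U y))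
      ((Tto.model Θ).sub_mem (hm _) ((Tto.model Θ).add_mem (hm _) (hm _))) (fun z => by
      rw [inner_sub_right, inner_add_right, hi', hi', hi', inner_add_right, sub_self])
    exact sub_eq_zero.1 this
  have hsmul : ∀ (c : ℂ) x, U (c • x) = c • U x := by
    intro c x
    have := hz (U (c • x) - c • U x)
      ((Tto.model Θ).sub_mem (hm _) ((Tto.model Θ).smul_mem c (hm _))) (fun z => by
      rw [inner_sub_right, inner_smul_right, hi', hi', inner_smul_right, sub_self])
    exact sub_eq_zero.1 this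
  let L : H →ₗ[ℂ] Tto.model Θ :=
    { toFun := fun x => ⟨U x, hm x⟩
      map_add' := fun x y => Subtype.ext (hadd x y)
      map_smul' := fun c x => Subtype.ext (hsmul c x) }
  let I : H →ₗᵢ[ℂ] Tto.model Θ := L.isometryOfInner (fun x y => hi' x y)
  refine ⟨LinearIsometryEquiv.ofSurjective I ?_, fun x => rfl⟩
  rintro ⟨w, hw⟩
  obtain ⟨z, hz⟩ := hs w hw
  exact ⟨z, Subtype.ext hz⟩

theorem pos (m : ℕ) : UETTO (corner m) := by
  obtain ⟨Θ, φ, hΘ, A, hA, U, hU⟩ := Tto.uetto m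
  haveI : FiniteDimensional ℂ (Tto.model Θ) :=
    U.toLinearEquiv.finiteDimensional
  haveI : CompleteSpace (Tto.model Θ) := FiniteDimensional.complete ℂ _
  let L : Tto.L2 →L[ℂ] Tto.L2 :=
    (Tto.model Θ).subtypeL.comp (A.comp (Tto.model Θ).orthogonalProjection)
  have hL : ∀ f : Tto.model Θ, L (f : Tto.L2) = (A f : Tto.L2) := by
    intro f
    change ((A ((Tto.model Θ).orthogonalProjection (f : Tto.L2))) : Tto.L2) = _
    rw [Submodule.orthogonalProjection_mem_subspace_eq_self]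
  refine ⟨Θ, φ, hΘ, L, ⟨⟨L, fun _ => rfl⟩, ?_, ?_⟩, fun x => (U x : Tto.L2), ⟨?_, ?_, ?_⟩, ?_⟩
  · intro f _
    exact (A ((Tto.model Θ).orthogonalProjection f)).2
  · intro f p hf hb hp g hg
    have h1 := hA ⟨f, hf⟩ p hb hp ⟨g, hg⟩
    have h2 := hL ⟨f, hf⟩
    change inner ℂ g p = inner ℂ g (L f)
    rw [show L f = _ from h2]
    exact h1
  · intro x
    exact (U x).2
  · intro f hf
    obtain ⟨x, hx⟩ := U.surjective ⟨f, hf⟩
    exact ⟨x, congrArg Subtype.val hx⟩
  · intro x y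
    exact U.inner_map_map x y
  · intro x
    have h1 := hU x
    rw [← corner_eq] at h1
    change ((U (corner m x)) : Tto.L2) = L (U x : Tto.L2)
    rw [h1, hL]

theorem neg (m : ℕ) : ¬ UETTO (addZero (corner m)) := by
  rintro ⟨Θ, φ, hΘ, A, ⟨⟨L, hL⟩, hK, hA⟩, U, hU, hUA⟩
  obtain ⟨V, hV⟩ := unitary_equiv Θ U hU
  have hK' : ∀ f : Tto.model Θ, L (f : Tto.L2) ∈ Tto.model Θ := by
    intro f
    have h1 := hK (f : Tto.L2) f.2
    rw [hL] at h1
    exact h1
  let B : Tto.model Θ →L[ℂ] Tto.model Θ :=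
    (ContinuousLinearMap.comp (show Tto.L2 →L[ℂ] Tto.L2 from L) (Tto.model Θ).subtypeL).codRestrict
      (Tto.model Θ) hK'
  refine Tto.not_uetto m ⟨Θ, φ, hΘ, B, ?_, V, fun x => ?_⟩
  · intro f p hf hp g
    have h1 := hA (f : Tto.L2) p f.2 hf hp (g : Tto.L2) g.2
    rw [hL] at h1
    exact h1
  · have h1 := hUA x
    rw [hL, ← hV, ← hV] at h1
    have h2 : addZero (corner m) x = Tto.addZero (Tto.Top m) x := by
      have h3 : corner m (WithLp.ofLp x).1 = Tto.Top m (WithLp.ofLp x).1 := corner_eq m _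
      have h4 : addZero (corner m) x
          = (WithLp.toLp 2 (corner m (WithLp.ofLp x).1, (0 : ℂ)) :
            WithLp 2 (EuclideanSpace ℂ (Fin (m + 3)) × ℂ)) := rfl
      rw [h4, h3]
      rfl
    rw [h2] at h1
    exact Subtype.ext h1

end Pool.Agent.R307.Ttz
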