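import Mathlib

/-!
# Truncated Toeplitz operators: definitions

The unit circle is `ℝ / ℤ` with its normalised Haar measure, the point `t` standing for
`z = exp (2 π i t)`; the monomial `z ^ n` is `fourier n`.
-/

set_option autoImplicit false

open MeasureTheory

namespace Pool.Agent.R307.Tto

/-- The Lebesgue space `L²` of the unit circle. -/
abbrev L2 : Type := Lp ℂ 2 (AddCircle.haarAddCircle (T := (1 : ℝ)))

theorem H2_zero (n : ℤ) :
    fourierCoeff ((0 : L2) : AddCircle (1 : ℝ) → ℂ) n = 0 := by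
  rw [← fourierBasis_repr, map_zero]
  rfl

theorem H2_add (f g : L2) (n : ℤ) (h1 : fourierCoeff (f : AddCircle (1 : ℝ) → ℂ) n = 0)
    (h2 : fourierCoeff (g : AddCircle (1 : ℝ) → ℂ) n = 0) :
    fourierCoeff ((f + g : L2) : AddCircle (1 : ℝ) → ℂ) n = 0 := by
  rw [← fourierBasis_repr] at h1 h2 ⊢
  rw [map_add]
  change fourierBasis.repr f n + fourierBasis.repr g n = 0
  rw [h1, h2, add_zero]

theorem H2_smul (c : ℂ) (f : L2) (n : ℤ)
    (h1 : fourierCoeff (f : AddCircle (1 : ℝ) → ℂ) n = 0) :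
    fourierCoeff ((c • f : L2) : AddCircle (1 : ℝ) → ℂ) n = 0 := by
  rw [← fourierBasis_repr] at h1 ⊢
  rw [map_smul]
  change c • fourierBasis.repr f n = 0
  rw [h1, smul_zero]

/-- The Hardy space `H²`: the functions of `L²` whose Fourier coefficients of negative index
vanish. -/
noncomputable def H2 : Submodule ℂ L2 where
  carrier := {f | ∀ n : ℤ, n < 0 → fourierCoeff (f : AddCircle (1 : ℝ) → ℂ) n = 0}
  zero_mem' := fun n _ => H2_zero n
  add_mem' := fun {f g} hf hg n hn => H2_add f g n (hf n hn) (hg n hn)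
  smul_mem' := fun c f hf n hn => H2_smul c f n (hf n hn)

/-- `Θ` is a nonconstant inner function: it belongs to `H²`, has modulus one almost everywhere on
the circle, and is not constant. -/
def IsInner (Θ : L2) : Prop :=
  Θ ∈ H2 ∧ (∀ᵐ t ∂(AddCircle.haarAddCircle (T := (1 : ℝ))), ‖Θ t‖ = 1) ∧
    ¬ ∃ c : ℂ, ∀ᵐ t ∂(AddCircle.haarAddCircle (T := (1 : ℝ))), Θ t = c

theorem model_zero (Θ : L2) : (0 : L2) ∈ H2 ∧ ∀ h ∈ H2, ∀ g : L2,
    (∀ᵐ t ∂(AddCircle.haarAddCircle (T := (1 : ℝ))), g t = Θ t * h t) →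
    inner ℂ g (0 : L2) = (0 : ℂ) :=
  ⟨H2.zero_mem, fun _ _ _ _ => inner_zero_right _⟩

/-- The model space `K_Θ = H² ⊖ Θ H²`: the functions of `H²` that are orthogonal to all `g ∈ L²`
of the form `g = Θ h` with `h ∈ H²`. -/
noncomputable def model (Θ : L2) : Submodule ℂ L2 where
  carrier := {f | f ∈ H2 ∧ ∀ h ∈ H2, ∀ g : L2,
    (∀ᵐ t ∂(AddCircle.haarAddCircle (T := (1 : ℝ))), g t = Θ t * h t) → inner ℂ g f = (0 : ℂ)}
  zero_mem' := model_zero Θ
  add_mem' := fun {f f'} hf hf' => ⟨H2.add_mem hf.1 hf'.1, fun h hh g hg => by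
    rw [inner_add_right, hf.2 h hh g hg, hf'.2 h hh g hg, add_zero]⟩
  smul_mem' := fun c f hf => ⟨H2.smul_mem c hf.1, fun h hh g hg => by
    rw [inner_smul_right, hf.2 h hh g hg, mul_zero]⟩

/-- `A` is the truncated Toeplitz operator on `K_Θ` with symbol `φ ∈ L²`: it is bounded, and
`A f` is the orthogonal projection of `φ f` to `K_Θ` for every bounded function `f ∈ K_Θ`
(`p` is the product `φ f`, an element of `L²`). -/
def IsTTO (Θ φ : L2) (A : model Θ →L[ℂ] model Θ) : Prop :=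
  ∀ (f : model Θ) (p : L2),
    (∃ C : ℝ, ∀ᵐ t ∂(AddCircle.haarAddCircle (T := (1 : ℝ))), ‖(f : L2) t‖ ≤ C) →
    (∀ᵐ t ∂(AddCircle.haarAddCircle (T := (1 : ℝ))), p t = φ t * (f : L2) t) →
    ∀ g : model Θ, inner ℂ (g : L2) p = inner ℂ (g : L2) (A f : L2)

/-- The bounded operator `T` on the Hilbert space `H` is unitarily equivalent to a truncated
Toeplitz operator. -/
def UETTO {H : Type} [NormedAddCommGroup H] [InnerProductSpace ℂ H] (T : H →L[ℂ] H) : Prop :=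
  ∃ Θ φ : L2, IsInner Θ ∧ ∃ A : model Θ →L[ℂ] model Θ, IsTTO Θ φ A ∧
    ∃ U : H ≃ₗᵢ[ℂ] model Θ, ∀ x, U (T x) = A (U x)

/-- The operator `T ⊕ 0` on the Hilbert space `H ⊕ ℂ`. -/
noncomputable def addZero {H : Type} [NormedAddCommGroup H] [InnerProductSpace ℂ H]
    (T : H →L[ℂ] H) : WithLp 2 (H × ℂ) →L[ℂ] WithLp 2 (H × ℂ) :=
  ((WithLp.prodContinuousLinearEquiv 2 ℂ H ℂ).symm : H × ℂ →L[ℂ] WithLp 2 (H × ℂ)).comp
    ((T.prodMap (0 : ℂ →L[ℂ] ℂ)).comp
      (WithLp.prodContinuousLinearEquiv 2 ℂ H ℂ : WithLp 2 (H × ℂ) →L[ℂ] H × ℂ))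

/-- The operator `T x = x - x_0 v` on `ℂ ^ (m + 3)`, where `v` is the last basis vector: the
identity minus a nilpotent operator of rank one. -/
noncomputable def Top (m : ℕ) :
    EuclideanSpace ℂ (Fin (m + 3)) →L[ℂ] EuclideanSpace ℂ (Fin (m + 3)) :=
  ContinuousLinearMap.id ℂ _ -
    (EuclideanSpace.proj (0 : Fin (m + 3)) : EuclideanSpace ℂ (Fin (m + 3)) →L[ℂ] ℂ).smulRight
      (EuclideanSpace.single (Fin.last (m + 2)) (1 : ℂ))

end Pool.Agent.R307.Tto
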