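import Mathlib

/-!
# Truncated Toeplitz operators: definitions

The unit circle is `ℝ / ℤ` with its normalised Haar measure, the point `t` standing for
`z = exp (2 π i t)`; the monomial `z ^ n` is `fourier n`.  Operators are written as plain
functions.
-/

set_option autoImplicit false

open MeasureTheory

namespace Pool.Agent.R307.Ttz

/-- The normalised Haar measure of the circle `ℝ / ℤ`. -/
noncomputable def haar : Measure (AddCircle (1 : ℝ)) := AddCircle.haarAddCircle

/-- The property `P` holds almost everywhere on the circle. -/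
def AE (P : AddCircle (1 : ℝ) → Prop) : Prop := ∀ᵐ t ∂haar, P t

/-- The Lebesgue space `L²` of the unit circle. -/
abbrev L2 : Type := Lp ℂ 2 haar

/-- The function represented by an element of `L²`. -/
noncomputable def fn (f : L2) (t : AddCircle (1 : ℝ)) : ℂ := f t

/-- The inner product of `L²`. -/
noncomputable def ip (f g : L2) : ℂ := inner ℂ f g

/-- `f` belongs to the Hardy space `H²`: its Fourier coefficients of negative index vanish. -/
def InH2 (f : L2) : Prop := ∀ n : ℤ, n < 0 → fourierCoeff (fn f) n = 0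

/-- `Θ` is a nonconstant inner function: it belongs to `H²`, has modulus one almost everywhere on
the circle, and is not constant. -/
def IsInner (Θ : L2) : Prop :=
  InH2 Θ ∧ AE (fun t => ‖fn Θ t‖ = 1) ∧ ¬ ∃ c : ℂ, AE (fun t => fn Θ t = c)

/-- `f` belongs to the model space `K_Θ = H² ⊖ Θ H²`: it is in `H²` and orthogonal to all
`g = Θ h` with `h ∈ H²`. -/
def InModel (Θ f : L2) : Prop :=
  InH2 f ∧ ∀ h : L2, InH2 h → ∀ g : L2, AE (fun t => fn g t = fn Θ t * fn h t) → ip g f = 0

/-- `T` is a bounded linear operator. -/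
def BLin {H : Type} [NormedAddCommGroup H] [InnerProductSpace ℂ H] (T : H → H) : Prop :=
  ∃ L : H →L[ℂ] H, ∀ x, T x = L x

/-- The restriction of `A` to `K_Θ` is the truncated Toeplitz operator on `K_Θ` with symbol
`φ ∈ L²`: `A` is a bounded operator which maps `K_Θ` to itself, and `A f` is the orthogonal
projection of `φ f` to `K_Θ` for every bounded function `f ∈ K_Θ` (`p` is the product `φ f`, an
element of `L²`).  The values of `A` outside `K_Θ` play no role; every bounded operator on the
closed subspace `K_Θ` extends to `L²`. -/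
def IsTTO (Θ φ : L2) (A : L2 → L2) : Prop :=
  BLin A ∧ (∀ f : L2, InModel Θ f → InModel Θ (A f)) ∧
  ∀ f p : L2, InModel Θ f → (∃ C : ℝ, AE (fun t => ‖fn f t‖ ≤ C)) →
    AE (fun t => fn p t = fn φ t * fn f t) → ∀ g : L2, InModel Θ g → ip g p = ip g (A f)

/-- `U` is a unitary map from `H` onto `K_Θ`: it is onto and preserves the inner product. -/
def UnitaryOnto {H : Type} [NormedAddCommGroup H] [InnerProductSpace ℂ H] (Θ : L2)
    (U : H → L2) : Prop :=
  (∀ x, InModel Θ (U x)) ∧ (∀ f : L2, InModel Θ f → ∃ x, U x = f) ∧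
    ∀ x y : H, ip (U x) (U y) = inner ℂ x y

/-- The operator `T` on the Hilbert space `H` is unitarily equivalent to a truncated Toeplitz
operator. -/
def UETTO {H : Type} [NormedAddCommGroup H] [InnerProductSpace ℂ H] (T : H → H) : Prop :=
  ∃ Θ φ : L2, IsInner Θ ∧ ∃ A : L2 → L2, IsTTO Θ φ A ∧
    ∃ U : H → L2, UnitaryOnto Θ U ∧ ∀ x, U (T x) = A (U x)

/-- The operator `T ⊕ 0` on the Hilbert sum `H ⊕ ℂ`, that is, `(x, c) ↦ (T x, 0)`. -/
def addZero {H : Type} (T : H → H) (y : WithLp 2 (H × ℂ)) : WithLp 2 (H × ℂ) :=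
  WithLp.toLp 2 (T (WithLp.ofLp y).1, (0 : ℂ))

/-- The operator on `ℂⁿ`, `n = m + 3`, which subtracts the first coordinate from the last one. -/
def corner (m : ℕ) (x : EuclideanSpace ℂ (Fin (m + 3))) : EuclideanSpace ℂ (Fin (m + 3)) :=
  WithLp.toLp 2 (fun i : Fin (m + 3) =>
    WithLp.ofLp x i - if (i : ℕ) = m + 2 then WithLp.ofLp x 0 else 0)

end Pool.Agent.R307.Ttz
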