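import Pool.Agent.R307.Low

set_option autoImplicit false

/-! The maxima on `Re s = 1` tend to infinity. -/

namespace Pool.Agent.R307

open Complex Set Filter Topology

/-- Relatively dense simultaneous almost periods. -/
theorem almost_periods (Y : ℕ) {ε : ℝ} (hε : 0 < ε) : ∃ D : ℝ, ∀ t : ℝ, ∃ u : ℝ, |u - t| ≤ D ∧
    ∀ n < Y, ‖Complex.exp (-(u * Real.log n : ℝ) * I) - 1‖ ≤ ε := by
  obtain ⟨φ, hφ⟩ : ∃ φ : ℝ → (Fin Y → ℂ), φ = fun (t : ℝ) (i : Fin Y) =>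
    Complex.exp (-(t * Real.log ((i : ℕ) : ℝ) : ℝ) * I) :=
    ⟨_, rfl⟩
  have hn : ∀ (t : ℝ) (i : Fin Y), ‖φ t i‖ = 1 := by
    intro t i
    rw [hφ]
    simp only
    rw [← Complex.ofReal_neg]
    exact Complex.norm_exp_ofReal_mul_I _
  have hsub : range φ ⊆ Metric.closedBall 0 1 := by
    rintro _ ⟨t, rfl⟩
    rw [mem_closedBall_zero_iff, pi_norm_le_iff_of_nonneg zero_le_one]
    exact fun i => (hn t i).le
  have htb : TotallyBounded (range φ) :=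
    (isCompact_closedBall (0 : Fin Y → ℂ) 1).totallyBounded.subset hsub
  obtain ⟨S, hS1, hS2, hS3⟩ := Metric.finite_approx_of_totallyBounded htb ε hε
  have hS1' : ∀ y ∈ S, ∃ t, φ t = y := fun y hy => hS1 hy
  choose! g hg using hS1'
  obtain ⟨D, hD⟩ := (hS2.image (fun y => |g y|)).bddAbove
  refine ⟨D, fun t => ?_⟩
  obtain ⟨y, hy, hty⟩ := mem_iUnion₂.1 (hS3 ⟨t, rfl⟩)
  refine ⟨t - g y, ?_, fun n hn' => ?_⟩
  · have : |g y| ≤ D := hD ⟨y, hy, rfl⟩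
    have e : t - g y - t = -g y := by ring
    rw [e, abs_neg]
    exact this
  · rw [Metric.mem_ball, dist_eq_norm] at hty
    have h1 : ‖φ t ⟨n, hn'⟩ - y ⟨n, hn'⟩‖ ≤ ε := (norm_le_pi_norm (φ t - y) ⟨n, hn'⟩).trans hty.le
    rw [← hg y hy] at h1
    have h2 : φ t ⟨n, hn'⟩ - φ (g y) ⟨n, hn'⟩ = φ (g y) ⟨n, hn'⟩ *
        (Complex.exp (-((t - g y) * Real.log n : ℝ) * I) - 1) := by
      rw [hφ]
      simp only
      rw [mul_sub, mul_one, ← Complex.exp_add]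
      congr 2
      push_cast
      ring
    rw [h2, norm_mul, hn, one_mul] at h1
    exact h1

/-- The sums of the coefficients are unbounded near `1`. -/
lemma ak_big (k : ℕ) (C : ℝ) : ∃ x : ℝ, 0 < x ∧ x ≤ 1 ∧ C ≤ ∑' n, ak k (1 + x) n := by
  obtain ⟨y, hy3, hy⟩ : ∃ y : ℕ, 3 ≤ y ∧ 2 * C + 2 ≤ ∑ i ∈ Finset.range y, 1 / ((i:ℝ) + 1) := by
    have h := Real.tendsto_sum_range_one_div_nat_succ_atTop
    obtain ⟨y0, hy0⟩ := eventually_atTop.1 (h.eventually (eventually_ge_atTop (2 * C + 2)))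
    exact ⟨max y0 3, le_max_right _ _, hy0 _ (le_max_left _ _)⟩
  have hyr : (3:ℝ) ≤ y := by exact_mod_cast hy3
  have hlog1 : 1 ≤ Real.log y := by
    rw [Real.le_log_iff_exp_le (by linarith)]
    exact Real.exp_one_lt_three.le.trans hyr
  have hl2 : Real.log 2 < 1 := by
    have := Real.log_two_lt_d9
    linarith
  have hl20 : 0 < Real.log 2 := Real.log_pos (by norm_num)
  obtain ⟨x, hx⟩ : ∃ x : ℝ, x = Real.log 2 / Real.log y := ⟨_, rfl⟩
  have hx0 : 0 < x := by rw [hx]; positivity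
  have hx1 : x ≤ 1 := by
    rw [hx, div_le_one (by linarith)]
    linarith
  refine ⟨x, hx0, hx1, ?_⟩
  have hterm : ∀ i ∈ Finset.Ico 2 y, 1 / 2 * (1 / ((i:ℝ) + 1)) ≤ ak k (1 + x) (i + 1) := by
    intro i hi
    rw [Finset.mem_Ico] at hi
    have hi2 : (2:ℝ) ≤ i := by exact_mod_cast hi.1
    have hiy : (i:ℝ) + 1 ≤ y := by exact_mod_cast hi.2
    unfold ak
    push_cast
    have h1 : 1 ≤ Real.log ((i:ℝ) + 1) := by
      rw [Real.le_log_iff_exp_le (by linarith)]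
      exact Real.exp_one_lt_three.le.trans (by linarith)
    have h2 : (1:ℝ) ≤ Real.log ((i:ℝ) + 1) ^ k := one_le_pow₀ h1
    have h3 : ((i:ℝ) + 1) ^ (-(1 + x)) = (1 / ((i:ℝ) + 1)) * ((i:ℝ) + 1) ^ (-x) := by
      rw [neg_add, Real.rpow_add (by linarith), Real.rpow_neg_one, one_div]
    have h4 : (1 / 2 : ℝ) ≤ ((i:ℝ) + 1) ^ (-x) := by
      have h5 : (y:ℝ) ^ (-x) ≤ ((i:ℝ) + 1) ^ (-x) :=
        Real.rpow_le_rpow_of_nonpos (by linarith) hiy (by linarith)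
      refine le_trans (le_of_eq ?_) h5
      rw [Real.rpow_def_of_pos (by linarith), hx]
      have : Real.log y * -(Real.log 2 / Real.log y) = -Real.log 2 := by
        field_simp
      rw [this, Real.exp_neg, Real.exp_log (by norm_num)]
      norm_num
    rw [h3]
    have h6 : (0:ℝ) < 1 / ((i:ℝ) + 1) := by positivity
    calc 1 / 2 * (1 / ((i:ℝ) + 1)) = 1 * ((1 / ((i:ℝ) + 1)) * (1 / 2)) := by ring
      _ ≤ _ := by gcongr
  have hsum := ak_summable k (σ := 1 + x) (by linarith)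
  have h1 : ∑ n ∈ (Finset.Ico 2 y).image (fun i => i + 1), ak k (1 + x) n ≤ ∑' n, ak k (1 + x) n :=
    hsum.sum_le_tsum _ (fun n _ => ak_nonneg k _ n)
  rw [Finset.sum_image (by intro a _ b _ h; simpa using h)] at h1
  have h2 : ∑ i ∈ Finset.range y, 1 / ((i:ℝ) + 1) =
      ∑ i ∈ Finset.range 2, 1 / ((i:ℝ) + 1) + ∑ i ∈ Finset.Ico 2 y, 1 / ((i:ℝ) + 1) := by
    rw [Finset.range_eq_Ico, Finset.range_eq_Ico, Finset.sum_Ico_consecutive _ (by omega) (by omega)]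
  have h3 : ∑ i ∈ Finset.range 2, 1 / ((i:ℝ) + 1) = 3 / 2 := by
    rw [Finset.sum_range_succ, Finset.sum_range_one]; norm_num
  have h4 : ∑ i ∈ Finset.Ico 2 y, 1 / 2 * (1 / ((i:ℝ) + 1)) ≤
      ∑ i ∈ Finset.Ico 2 y, ak k (1 + x) (i + 1) := Finset.sum_le_sum hterm
  rw [← Finset.mul_sum] at h4
  linarith

/-- The maxima tend to infinity. -/
theorem unbounded {k : ℕ} (hk : 1 ≤ k) (B : ℝ) : ∃ T₀ : ℝ, ∀ T : ℝ, T₀ ≤ T → B ≤ MM k 1 T := by
  have hk0 : (1:ℝ) ≤ k := by exact_mod_cast hk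
  obtain ⟨c, hc⟩ : ∃ c : ℝ, c = 3 * k.factorial * (k + 3) / 2 ^ k := ⟨_, rfl⟩
  have hc0 : 0 < c := by rw [hc]; positivity
  obtain ⟨x, hx0, hx1, hx⟩ := ak_big k (2 * (|B| + c) + 5)
  have hσ : 1 < 1 + x := by linarith
  obtain ⟨A, hA⟩ : ∃ A : ℝ, A = ∑' n, ak k (1 + x) n := ⟨_, rfl⟩
  rw [← hA] at hx
  have hA0 : 0 ≤ A := by rw [hA]; exact tsum_nonneg (ak_nonneg k _)
  have hsum := ak_summable k hσ
  obtain ⟨Y, hY⟩ : ∃ Y : ℕ, ∑' n, ak k (1 + x) (n + Y) ≤ 1 := by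
    have h := tendsto_sum_nat_add (ak k (1 + x))
    obtain ⟨Y, hY⟩ := eventually_atTop.1 (h.eventually (gt_mem_nhds one_pos))
    exact ⟨Y, (hY Y le_rfl).le⟩
  obtain ⟨D, hD⟩ := almost_periods Y (ε := 1 / (A + 1)) (by positivity)
  refine ⟨max (24 * ((k:ℝ) + 1)) (D * (4 * (k + 1))), fun T hT => ?_⟩
  have hT1 : 24 * ((k:ℝ) + 1) ≤ T := (le_max_left _ _).trans hT
  have hT2 : D * (4 * (k + 1)) ≤ T := (le_max_right _ _).trans hT
  obtain ⟨u, hu1, hu2⟩ := hD (3 * T / 2)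
  have h1 := sup_right hk hT1 (x := x) (t := u) hx0 (by linarith)
    (hu1.trans (by rw [le_div_iff₀ (by positivity)]; exact hT2))
  rw [← hc] at h1
  -- comparison with the value at `0`
  have h2 : ‖zd k ⟨1 + x, u⟩ - zd k ⟨1 + x, 0⟩‖ ≤ 3 := by
    have hs := (zd_hasSum k hσ u).sub (zd_hasSum k hσ 0)
    obtain ⟨f, hf⟩ : ∃ f : ℕ → ℂ, f = fun n => (-1) ^ k * (ak k (1 + x) n : ℂ) *
      Complex.exp (-(u * Real.log n : ℝ) * I) - (-1) ^ k * (ak k (1 + x) n : ℂ) *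
      Complex.exp (-((0:ℝ) * Real.log n : ℝ) * I) := ⟨_, rfl⟩
    rw [← hf] at hs
    have hfn : ∀ n, ‖f n‖ = ak k (1 + x) n * ‖Complex.exp (-(u * Real.log n : ℝ) * I) - 1‖ := by
      intro n
      have e : f n = (-1) ^ k * (ak k (1 + x) n : ℂ) *
          (Complex.exp (-(u * Real.log n : ℝ) * I) - 1) := by
        rw [hf]
        simp only [zero_mul, Complex.ofReal_zero, neg_zero, Complex.exp_zero]
        ring
      rw [e, norm_mul, norm_mul, norm_pow, norm_neg, norm_one, one_pow, one_mul,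
        Complex.norm_of_nonneg (ak_nonneg k _ n)]
    rw [← hs.tsum_eq, ← hs.summable.sum_add_tsum_nat_add Y]
    have a1 : ‖∑ i ∈ Finset.range Y, f i‖ ≤ 1 := by
      calc ‖∑ i ∈ Finset.range Y, f i‖ ≤ ∑ i ∈ Finset.range Y, ak k (1 + x) i * (1 / (A + 1)) := by
            refine norm_sum_le_of_le _ fun i hi => ?_
            rw [hfn]
            exact mul_le_mul_of_nonneg_left (hu2 i (Finset.mem_range.1 hi)) (ak_nonneg k _ i)
        _ = (∑ i ∈ Finset.range Y, ak k (1 + x) i) * (1 / (A + 1)) := by rw [Finset.sum_mul]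
        _ ≤ A * (1 / (A + 1)) := by
            gcongr
            rw [hA]
            exact hsum.sum_le_tsum _ (fun n _ => ak_nonneg k _ n)
        _ ≤ 1 := by
            rw [mul_one_div, div_le_one (by positivity)]
            linarith
    have a2 : ‖∑' i, f (i + Y)‖ ≤ 2 := by
      have hs2 : HasSum (fun n => ak k (1 + x) (n + Y) * 2) ((∑' n, ak k (1 + x) (n + Y)) * 2) :=
        (((summable_nat_add_iff Y).2 hsum).hasSum).mul_right 2
      refine (tsum_of_norm_bounded hs2 fun n => ?_).trans (by linarith)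
      rw [hfn]
      refine mul_le_mul_of_nonneg_left ?_ (ak_nonneg k _ _)
      refine (norm_sub_le _ _).trans ?_
      rw [← Complex.ofReal_neg, Complex.norm_exp_ofReal_mul_I, norm_one]
      norm_num
    calc _ ≤ ‖∑ i ∈ Finset.range Y, f i‖ + ‖∑' i, f (i + Y)‖ := norm_add_le _ _
      _ ≤ 3 := by linarith
  have h3 : A - 3 ≤ ‖zd k ⟨1 + x, u⟩‖ := by
    have h4 : ‖zd k ⟨1 + x, 0⟩‖ = A := by rw [hA, ak_tsum k hσ]
    have h5 : ‖zd k ⟨1 + x, 0⟩‖ ≤ ‖zd k ⟨1 + x, u⟩‖ + ‖zd k ⟨1 + x, u⟩ - zd k ⟨1 + x, 0⟩‖ := by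
      have := norm_sub_norm_le (zd k ⟨1 + x, 0⟩) (zd k ⟨1 + x, u⟩)
      rw [norm_sub_rev] at this
      linarith
    linarith
  have h6 : |B| + c + 1 ≤ max (MM k 1 T) c := by linarith
  have hB := le_abs_self B
  rcases le_max_iff.1 h6 with h | h
  · linarith
  · have := abs_nonneg B
    linarith

end Pool.Agent.R307
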