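import Pool.Agent.H388LH.ZG
import Pool.Agent.R307.Rect

set_option autoImplicit false

/-! Basic bounds for zeta and its derivatives. -/

namespace Pool.Agent.R307

open Complex Set

/-- The `j`-th derivative of zeta. -/
noncomputable def zd (j : ℕ) (s : ℂ) : ℂ := iteratedDeriv j riemannZeta s

lemma zd_zero (s : ℂ) : zd 0 s = riemannZeta s := by
  unfold zd; rw [iteratedDeriv_zero]

lemma zeta_analytic {s : ℂ} (hs : s ≠ 1) : AnalyticAt ℂ riemannZeta s := by
  have h : DifferentiableOn ℂ riemannZeta ({1}ᶜ : Set ℂ) := fun z hz =>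
    (differentiableAt_riemannZeta hz).differentiableWithinAt
  exact h.analyticAt (isOpen_compl_singleton.mem_nhds hs)

lemma zd_analytic (j : ℕ) {s : ℂ} (hs : s ≠ 1) : AnalyticAt ℂ (zd j) s := by
  have : zd j = deriv^[j] riemannZeta := by
    funext z
    unfold zd
    rw [iteratedDeriv_eq_iterate]
  rw [this]
  exact (zeta_analytic hs).iterated_deriv j

lemma zd_hasDerivAt (j : ℕ) {s : ℂ} (hs : s ≠ 1) : HasDerivAt (zd j) (zd (j + 1) s) s := by
  have h := (zd_analytic j hs).differentiableAt.hasDerivAt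
  have e : deriv (zd j) s = zd (j + 1) s := by
    unfold zd
    rw [iteratedDeriv_succ]
  rwa [e] at h

lemma zd_continuousAt (j : ℕ) {s : ℂ} (hs : s ≠ 1) : ContinuousAt (zd j) s :=
  (zd_analytic j hs).continuousAt

lemma ne_one_of_im {s : ℂ} (hs : s.im ≠ 0) : s ≠ 1 := by
  rintro rfl
  simp at hs

/-- Growth of zeta. -/
theorem zeta_gr {σ : ℝ} (hσ : 0 < σ) {s : ℂ} (hs : σ ≤ s.re) (hi : 1 ≤ |s.im|) :
    ‖riemannZeta s‖ ≤ 2 + ‖s‖ / σ := by
  have hs0 : 0 < s.re := by linarith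
  have hs1 : s ≠ 1 := ne_one_of_im (by
    intro h; rw [h, abs_zero] at hi; linarith)
  rw [Pool.Agent.H388LH.zeta_eq hs0 hs1]
  have h1 := Pool.Agent.H388LH.fract_int_bound hs0
  have hn2 : 1 ≤ ‖s - 1‖ := by
    have := Complex.abs_im_le_norm (s - 1)
    simp at this
    linarith
  have h2 : ‖1 / (s - 1)‖ ≤ 1 := by
    rw [norm_div, norm_one]
    exact div_le_one_of_le₀ hn2 (norm_nonneg _)
  have h3 : 1 / s.re ≤ 1 / σ := one_div_le_one_div_of_le hσ hs
  calc ‖1 + 1 / (s - 1) - s * ∫ u in Ioi (1 : ℝ), ((Int.fract u : ℝ) : ℂ) * (u : ℂ) ^ (-s - 1)‖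
      ≤ ‖(1:ℂ)‖ + ‖1 / (s - 1)‖ + ‖s‖ * ‖∫ u in Ioi (1 : ℝ), ((Int.fract u : ℝ) : ℂ) * (u : ℂ) ^ (-s - 1)‖ := by
        rw [← norm_mul]
        exact (norm_sub_le _ _).trans (add_le_add_left (norm_add_le _ _) _)
    _ ≤ 1 + 1 + ‖s‖ * (1 / σ) := by
        rw [norm_one]
        gcongr
        exact h1.trans h3
    _ = 2 + ‖s‖ / σ := by ring

/-- Cauchy's estimate for the derivatives of zeta. -/
theorem zd_cauchy (j : ℕ) {s : ℂ} {R C : ℝ} (hR : 0 < R) (h1 : R < ‖s - 1‖)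
    (hC : ∀ z : ℂ, ‖z - s‖ = R → ‖riemannZeta z‖ ≤ C) :
    ‖zd j s‖ ≤ j.factorial * C / R ^ j := by
  unfold zd
  refine Complex.norm_iteratedDeriv_le_of_forall_mem_sphere_norm_le j hR ?_ ?_
  · apply DifferentiableOn.diffContOnCl
    intro z hz
    have hz' : ‖z - s‖ ≤ R := by
      have := closure_ball s hR.ne' ▸ hz
      rwa [Metric.mem_closedBall, dist_eq_norm] at this
    refine (differentiableAt_riemannZeta ?_).differentiableWithinAt
    rintro rfl
    rw [norm_sub_rev] at hz'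
    linarith
  · intro z hz
    rw [mem_sphere_iff_norm] at hz
    exact hC z hz

/-- Growth of the derivatives of zeta in vertical strips to the right of the imaginary axis. -/
theorem zd_growth (j : ℕ) {σ : ℝ} (hσ : 0 < σ) (X : ℝ) : ∃ C : ℝ, 0 < C ∧ ∀ s : ℂ, σ ≤ s.re →
    s.re ≤ X → 2 ≤ |s.im| → ‖zd j s‖ ≤ C * |s.im| := by
  obtain ⟨R, hR⟩ : ∃ R : ℝ, R = min (σ / 2) (1 / 2) := ⟨_, rfl⟩
  have hR0 : 0 < R := by rw [hR]; positivity
  have hR1 : R ≤ σ / 2 := by rw [hR]; exact min_le_left _ _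
  have hR2 : R ≤ 1 / 2 := by rw [hR]; exact min_le_right _ _
  refine ⟨j.factorial * (2 + (|X| + 2) * (2 / σ)) / R ^ j, by positivity, fun s h1 h2 h3 => ?_⟩
  have hfar : R < ‖s - 1‖ := by
    have h4 := Complex.abs_im_le_norm (s - 1)
    rw [Complex.sub_im, Complex.one_im, sub_zero] at h4
    linarith
  have hb : ∀ z : ℂ, ‖z - s‖ = R → ‖riemannZeta z‖ ≤ (2 + (|X| + 2) * (2 / σ)) * |s.im| := by
    intro z hz
    have h4 := Complex.abs_re_le_norm (z - s)
    have h5 := Complex.abs_im_le_norm (z - s)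
    rw [hz, Complex.sub_re, abs_le] at h4
    rw [hz, Complex.sub_im] at h5
    have h6 : |s.im| - |z.im - s.im| ≤ |z.im| := by
      have := abs_sub_abs_le_abs_sub s.im z.im
      rw [abs_sub_comm s.im z.im] at this
      linarith
    have h7 := zeta_gr (σ := σ / 2) (by positivity) (s := z) (by linarith [h4.1]) (by linarith)
    have h8 : ‖z‖ ≤ (|X| + 2) * |s.im| := by
      have h9 : ‖z‖ ≤ ‖z - s‖ + ‖s‖ := by
        have := norm_add_le (z - s) s
        rwa [sub_add_cancel] at this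
      have h10 := Complex.norm_le_abs_re_add_abs_im s
      have h11 : |s.re| ≤ |X| := by
        rw [abs_of_nonneg (by linarith)]
        exact h2.trans (le_abs_self X)
      have hX := abs_nonneg X
      nlinarith
    refine h7.trans ?_
    have h12 : ‖z‖ / (σ / 2) = ‖z‖ * (2 / σ) := by field_simp
    rw [h12]
    have h13 : ‖z‖ * (2 / σ) ≤ (|X| + 2) * |s.im| * (2 / σ) :=
      mul_le_mul_of_nonneg_right h8 (by positivity)
    nlinarith
  have h := zd_cauchy j hR0 hfar hb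
  refine h.trans (le_of_eq ?_)
  ring

/-- Zeta far to the right. -/
theorem zeta_far : ∃ C : ℝ, 0 < C ∧ ∀ s : ℂ, 2 ≤ s.re →
    ‖riemannZeta s - 1 - (2 : ℂ) ^ (-s)‖ ≤ C * (3 : ℝ) ^ (-s.re) := by
  have hsum : Summable (fun n : ℕ => 1 / ((n : ℝ) + 1) ^ 2) := by
    have := (summable_nat_add_iff 1).2 (Real.summable_one_div_nat_pow.2 (by norm_num : 1 < 2))
    simpa using this
  have hsum2 : Summable (fun n : ℕ => 9 * (1 / (((n + 2 : ℕ) : ℝ) + 1) ^ 2)) :=
    ((summable_nat_add_iff 2).2 hsum).mul_left 9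
  refine ⟨∑' n : ℕ, 9 * (1 / (((n + 2 : ℕ) : ℝ) + 1) ^ 2), ?_, fun s hs => ?_⟩
  · refine hsum2.tsum_pos (fun n => by positivity) 0 (by positivity)
  · have hs1 : 1 < s.re := by linarith
    have hS : Summable (fun n : ℕ => 1 / ((n : ℂ) + 1) ^ s) := by
      have h1 := Complex.summable_one_div_nat_cpow.2 hs1
      have h2 := (summable_nat_add_iff 1).2 h1
      simpa using h2
    rw [zeta_eq_tsum_one_div_nat_add_one_cpow hs1, ← hS.sum_add_tsum_nat_add 2]
    have e : (∑ i ∈ Finset.range 2, 1 / ((i : ℂ) + 1) ^ s) = 1 + (2 : ℂ) ^ (-s) := by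
      rw [Finset.sum_range_succ, Finset.sum_range_one, Complex.cpow_neg]
      norm_num
    rw [e]
    have e2 : ∀ x : ℂ, 1 + (2 : ℂ) ^ (-s) + x - 1 - (2 : ℂ) ^ (-s) = x := by intro x; ring
    rw [e2]
    have hterm : ∀ n : ℕ, ‖1 / (((n + 2 : ℕ) : ℂ) + 1) ^ s‖ ≤
        9 * (1 / (((n + 2 : ℕ) : ℝ) + 1) ^ 2) * (3 : ℝ) ^ (-s.re) := by
      intro n
      have hk : (3 : ℝ) ≤ ((n + 2 : ℕ) : ℝ) + 1 := by push_cast; linarith [Nat.cast_nonneg (α := ℝ) n]
      set k : ℝ := ((n + 2 : ℕ) : ℝ) + 1 with hkd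
      have hk0 : 0 < k := by linarith
      have e3 : (((n + 2 : ℕ) : ℂ) + 1) = ((k : ℝ) : ℂ) := by rw [hkd]; push_cast; ring
      rw [e3, norm_div, norm_one, Complex.norm_cpow_eq_rpow_re_of_pos hk0]
      have h3 : (3 / k) ^ s.re ≤ (3 / k) ^ (2 : ℝ) :=
        Real.rpow_le_rpow_of_exponent_ge (by positivity) (by rw [div_le_one hk0]; exact hk) hs
      rw [Real.div_rpow (by norm_num) hk0.le, Real.rpow_two] at h3
      have h3' : (0 : ℝ) < (3 : ℝ) ^ s.re := Real.rpow_pos_of_pos (by norm_num) _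
      have hk' : (0 : ℝ) < k ^ s.re := Real.rpow_pos_of_pos hk0 _
      rw [Real.rpow_neg (by norm_num)]
      calc 1 / k ^ s.re = (3 ^ s.re / k ^ s.re) * (3 ^ s.re)⁻¹ := by field_simp
        _ ≤ (3 / k) ^ 2 * (3 ^ s.re)⁻¹ := mul_le_mul_of_nonneg_right h3 (by positivity)
        _ = 9 * (1 / k ^ 2) * (3 ^ s.re)⁻¹ := by rw [div_pow]; ring
    calc ‖∑' n : ℕ, 1 / (((n + 2 : ℕ) : ℂ) + 1) ^ s‖
        ≤ ∑' n : ℕ, 9 * (1 / (((n + 2 : ℕ) : ℝ) + 1) ^ 2) * (3 : ℝ) ^ (-s.re) :=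
          tsum_of_norm_bounded (hsum2.mul_right _).hasSum hterm
      _ = _ := by rw [tsum_mul_right]

/-- The derivatives of zeta far to the right. -/
theorem zd_far (j : ℕ) : ∃ C : ℝ, 0 < C ∧ ∀ s : ℂ, 3 ≤ s.re →
    ‖zd j s - (if j = 0 then 1 else 0) - (-(Real.log 2 : ℂ)) ^ j * (2 : ℂ) ^ (-s)‖ ≤
      C * (3 : ℝ) ^ (-s.re) := by
  obtain ⟨C, hC, h⟩ := zeta_far
  refine ⟨j.factorial * (C * 3), by positivity, fun s hs => ?_⟩
  have hs1 : s ≠ 1 := by
    rintro rfl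
    norm_num at hs
  set f : ℂ → ℂ := fun z => riemannZeta z - (1 + (2 : ℂ) ^ (-z)) with hf
  have hpow : ∀ z : ℂ, AnalyticAt ℂ (fun z : ℂ => (2 : ℂ) ^ (-z)) z := by
    intro z
    have : Differentiable ℂ (fun z : ℂ => (2 : ℂ) ^ (-z)) := by
      intro z
      exact (differentiableAt_id.neg).const_cpow (Or.inl two_ne_zero)
    exact this.analyticAt z
  have e1 : iteratedDeriv j (fun z : ℂ => (2 : ℂ) ^ (-z)) s =
      (-(Real.log 2 : ℂ)) ^ j * (2 : ℂ) ^ (-s) := by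
    have e2 : (fun z : ℂ => (2 : ℂ) ^ (-z)) = fun z => Complex.exp ((-(Real.log 2 : ℂ)) * z) := by
      funext z
      rw [Complex.cpow_def_of_ne_zero two_ne_zero]
      congr 1
      have : Complex.log 2 = (Real.log 2 : ℂ) := by
        rw [Complex.ofReal_log (by norm_num)]; norm_num
      rw [this]; ring
    have e5 : (2 : ℂ) ^ (-s) = Complex.exp ((-(Real.log 2 : ℂ)) * s) := congrFun e2 s
    rw [e5, e2, iteratedDeriv_cexp_const_mul]
  have e3 : iteratedDeriv j f s = zd j s - (if j = 0 then 1 else 0) -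
      (-(Real.log 2 : ℂ)) ^ j * (2 : ℂ) ^ (-s) := by
    have h1 : ContDiffAt ℂ j riemannZeta s := (zeta_analytic hs1).contDiffAt
    have h2 : ContDiffAt ℂ j (fun z : ℂ => 1 + (2 : ℂ) ^ (-z)) s :=
      (analyticAt_const.add (hpow s)).contDiffAt
    have h3 : iteratedDeriv j f s = iteratedDeriv j riemannZeta s -
        iteratedDeriv j (fun z : ℂ => 1 + (2 : ℂ) ^ (-z)) s := iteratedDeriv_fun_sub h1 h2
    have h4 : iteratedDeriv j (fun z : ℂ => (1 : ℂ) + (2 : ℂ) ^ (-z)) s =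
        iteratedDeriv j (fun _ : ℂ => (1 : ℂ)) s + iteratedDeriv j (fun z : ℂ => (2 : ℂ) ^ (-z)) s :=
      iteratedDeriv_fun_add contDiffAt_const (hpow s).contDiffAt
    rw [h3, h4, e1, iteratedDeriv_const]
    unfold zd
    exact (sub_sub _ _ _).symm
  rw [← e3]
  have hball : ∀ z : ℂ, ‖z - s‖ ≤ 1 → 2 ≤ z.re ∧ s.re - 1 ≤ z.re := by
    intro z hz
    have h4 := Complex.abs_re_le_norm (z - s)
    rw [Complex.sub_re] at h4
    have h5 := (abs_le.1 (h4.trans hz)).1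
    constructor <;> linarith
  have hfin := Complex.norm_iteratedDeriv_le_of_forall_mem_sphere_norm_le (f := f) (c := s) (R := 1)
    (C := C * 3 * (3 : ℝ) ^ (-s.re)) j one_pos ?_ ?_
  · refine hfin.trans (le_of_eq ?_)
    rw [one_pow]; ring
  · apply DifferentiableOn.diffContOnCl
    intro z hz
    have hz' : ‖z - s‖ ≤ 1 := by
      have := closure_ball s one_ne_zero ▸ hz
      rwa [Metric.mem_closedBall, dist_eq_norm] at this
    have hz1 : z ≠ 1 := by
      rintro rfl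
      have := (hball 1 hz').1
      norm_num at this
    exact ((differentiableAt_riemannZeta hz1).sub
      ((analyticAt_const.add (hpow z)).differentiableAt)).differentiableWithinAt
  · intro z hz
    rw [mem_sphere_iff_norm] at hz
    obtain ⟨h1, h2⟩ := hball z hz.le
    have h3 := h z h1
    have e4 : f z = riemannZeta z - 1 - (2 : ℂ) ^ (-z) := by simp only [hf]; ring
    rw [e4]
    refine h3.trans ?_
    have h4 : (3 : ℝ) ^ (-z.re) ≤ 3 * 3 ^ (-s.re) := by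
      calc (3 : ℝ) ^ (-z.re) ≤ (3 : ℝ) ^ (1 + -s.re) :=
            Real.rpow_le_rpow_of_exponent_le (by norm_num) (by linarith)
        _ = 3 * 3 ^ (-s.re) := by rw [Real.rpow_add (by norm_num), Real.rpow_one]
    calc C * (3 : ℝ) ^ (-z.re) ≤ C * (3 * 3 ^ (-s.re)) := by gcongr
      _ = _ := by ring

end Pool.Agent.R307
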