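import Pool.Agent.R307.Zb

set_option autoImplicit false

/-! The derivatives of zeta to the right of the line `Re s = 1`. -/

namespace Pool.Agent.R307

open Complex Set Filter Topology

lemma zeta_abs_le {s : ℂ} (hs : 1 < s.re) : ‖riemannZeta s‖ ≤ 1 + 1 / (s.re - 1) := by
  rw [zeta_eq_tsum_one_div_nat_add_one_cpow hs]
  have hn : ∀ n : ℕ, ‖1 / ((n : ℂ) + 1) ^ s‖ = 1 / ((n : ℝ) + 1) ^ s.re := by
    intro n
    have e : ((n : ℂ) + 1) = (((n : ℝ) + 1 : ℝ) : ℂ) := by push_cast; ring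
    rw [e, norm_div, norm_one, Complex.norm_cpow_eq_rpow_re_of_pos (by positivity)]
  have hsum : Summable (fun n : ℕ => 1 / ((n : ℝ) + 1) ^ s.re) := by
    have h1 := Real.summable_one_div_nat_rpow.2 hs
    have h2 := (summable_nat_add_iff 1).2 h1
    simpa using h2
  have h1 : ‖∑' n : ℕ, 1 / ((n : ℂ) + 1) ^ s‖ ≤ ∑' n : ℕ, 1 / ((n : ℝ) + 1) ^ s.re := by
    refine tsum_of_norm_bounded hsum.hasSum (fun n => (hn n).le)
  refine h1.trans ?_
  have h2 := ZetaAsymptotics.zeta_limit_aux1 hs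
  have h3 : 0 ≤ ZetaAsymptotics.termTSum s.re := by
    unfold ZetaAsymptotics.termTSum
    exact tsum_nonneg (fun n => ZetaAsymptotics.term_nonneg _ _)
  nlinarith

/-- Cauchy bound to the right of `Re s = 1`. -/
theorem zd_right0 {k : ℕ} (hk : 1 ≤ k) {s : ℂ} {x : ℝ} (hx : 0 < x)
    (hs : s.re = 1 + x) : ‖zd k s‖ ≤ 3 * k.factorial * (x + (k + 1)) / x ^ (k + 1) := by
  have hk0 : (0:ℝ) < k := by exact_mod_cast hk
  obtain ⟨R, hR⟩ : ∃ R : ℝ, R = x * k / (k + 1) := ⟨_, rfl⟩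
  have hR0 : 0 < R := by rw [hR]; positivity
  have hRx : R = x - x / (k + 1) := by rw [hR]; field_simp; ring
  have hRlt : R < x := by
    have : 0 < x / (k + 1) := by positivity
    linarith
  have h1 : R < ‖s - 1‖ := by
    have := Complex.re_le_norm (s - 1)
    rw [Complex.sub_re, Complex.one_re, hs] at this
    linarith
  have h2 : ∀ z : ℂ, ‖z - s‖ = R → ‖riemannZeta z‖ ≤ 1 + (k + 1) / x := by
    intro z hz
    have h3 := Complex.abs_re_le_norm (z - s)
    rw [hz, Complex.sub_re, abs_le] at h3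
    have h4 : x / (k + 1) ≤ z.re - 1 := by linarith [h3.1]
    have h5 : 0 < x / (k + 1) := by positivity
    refine (zeta_abs_le (by linarith)).trans ?_
    have h6 : 1 / (z.re - 1) ≤ 1 / (x / (k + 1)) := one_div_le_one_div_of_le h5 h4
    have h7 : 1 / (x / (k + 1)) = (k + 1) / x := by field_simp
    linarith
  have h := zd_cauchy k hR0 h1 h2
  refine h.trans ?_
  have h8 : (1 / R) ^ k ≤ 3 / x ^ k := by
    have e : 1 / R = (1 / x) * (1 + 1 / k) := by rw [hR]; field_simp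
    rw [e, mul_pow, one_div_pow]
    have h9 : (1 + 1 / (k:ℝ)) ^ k ≤ 3 := by
      calc (1 + 1 / (k:ℝ)) ^ k ≤ (Real.exp (1 / k)) ^ k := by
            gcongr
            have := Real.add_one_le_exp (1 / (k:ℝ))
            linarith
        _ = Real.exp 1 := by
            rw [← Real.exp_nat_mul]
            congr 1
            field_simp
        _ ≤ 3 := Real.exp_one_lt_three.le
    calc 1 / x ^ k * (1 + 1 / (k:ℝ)) ^ k ≤ 1 / x ^ k * 3 := by gcongr
      _ = 3 / x ^ k := by ring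
  calc k.factorial * (1 + (k + 1) / x) / R ^ k = k.factorial * (1 + (k + 1) / x) * (1 / R) ^ k := by
        rw [one_div_pow]; ring
    _ ≤ k.factorial * (1 + (k + 1) / x) * (3 / x ^ k) := by gcongr
    _ = 3 * k.factorial * (x + (k + 1)) / x ^ (k + 1) := by
        rw [pow_succ]; field_simp

theorem zd_right {k : ℕ} (hk : 1 ≤ k) {s : ℂ} {x : ℝ} (hx : 0 < x) (hx2 : x ≤ 2)
    (hs : s.re = 1 + x) : ‖zd k s‖ ≤ 3 * k.factorial * (k + 3) / x ^ (k + 1) := by
  refine (zd_right0 hk hx hs).trans ?_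
  have h10 : x + (k + 1) ≤ (k:ℝ) + 3 := by linarith
  exact div_le_div_of_nonneg_right (mul_le_mul_of_nonneg_left h10 (by positivity)) (by positivity)

theorem zd_right3 {k : ℕ} (hk : 1 ≤ k) {s : ℂ} {x : ℝ} (hx : 0 < x) (hx2 : x ≤ 3)
    (hs : s.re = 1 + x) : ‖zd k s‖ ≤ 3 * k.factorial * (k + 4) / x ^ (k + 1) := by
  refine (zd_right0 hk hx hs).trans ?_
  have h10 : x + (k + 1) ≤ (k:ℝ) + 4 := by linarith
  exact div_le_div_of_nonneg_right (mul_le_mul_of_nonneg_left h10 (by positivity)) (by positivity)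

/-- The Dirichlet coefficients of the `k`-th derivative on `Re s = σ`. -/
noncomputable def ak (k : ℕ) (σ : ℝ) (n : ℕ) : ℝ := Real.log n ^ k * (n : ℝ) ^ (-σ)

lemma ak_nonneg (k : ℕ) (σ : ℝ) (n : ℕ) : 0 ≤ ak k σ n := by
  unfold ak
  have : 0 ≤ Real.log n := Real.log_natCast_nonneg n
  positivity

lemma logMul_iter (k : ℕ) (f : ℕ → ℂ) (n : ℕ) :
    (LSeries.logMul^[k] f) n = (Complex.log n) ^ k * f n := by
  induction k with
  | zero => simp
  | succ k ih =>
    rw [Function.iterate_succ', Function.comp_apply, LSeries.logMul, ih, pow_succ]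
    ring

theorem zd_hasSum (k : ℕ) {σ : ℝ} (hσ : 1 < σ) (t : ℝ) :
    HasSum (fun n : ℕ => (-1) ^ k * (ak k σ n : ℂ) * Complex.exp (-(t * Real.log n : ℝ) * I))
      (zd k ⟨σ, t⟩) := by
  obtain ⟨s, hs⟩ : ∃ s : ℂ, s = ⟨σ, t⟩ := ⟨_, rfl⟩
  have hre : 1 < s.re := by rw [hs]; exact hσ
  rw [← hs]
  have hab : LSeries.abscissaOfAbsConv (1 : ℕ → ℂ) < s.re := by
    rw [LSeries.abscissaOfAbsConv_one]
    exact_mod_cast hre
  have h1 : zd k s = (-1) ^ k * LSeries (LSeries.logMul^[k] 1) s := by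
    rw [← LSeries_iteratedDeriv k hab]
    unfold zd
    apply Filter.EventuallyEq.iteratedDeriv_eq
    have : ∀ᶠ z in 𝓝 s, 1 < z.re := (isOpen_lt continuous_const Complex.continuous_re).mem_nhds hre
    filter_upwards [this] with z hz
    rw [LSeries_one_eq_riemannZeta hz]
  have h2 : LSeriesSummable (LSeries.logMul^[k] (1 : ℕ → ℂ)) s := by
    apply LSeriesSummable_of_abscissaOfAbsConv_lt_re
    rw [LSeries.absicssaOfAbsConv_logPowMul]
    exact hab
  have h3 : HasSum (LSeries.term (LSeries.logMul^[k] (1 : ℕ → ℂ)) s)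
      (LSeries (LSeries.logMul^[k] 1) s) := h2.LSeriesHasSum
  rw [h1]
  have h4 := h3.mul_left ((-1) ^ k)
  have e0 : (fun n : ℕ => (-1) ^ k * (ak k σ n : ℂ) * Complex.exp (-(t * Real.log n : ℝ) * I)) =
      fun n => (-1) ^ k * LSeries.term (LSeries.logMul^[k] 1) s n := ?_
  · rw [e0]; exact h4
  funext n
  by_cases hn : n = 0
  · subst hn
    rw [LSeries.term_zero]
    have : ak k σ 0 = 0 := by
      unfold ak
      rw [Nat.cast_zero, Real.zero_rpow (by linarith)]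
      ring
    rw [this]
    simp
  · rw [LSeries.term_of_ne_zero hn, logMul_iter]
    have hn0 : (0:ℝ) < n := by exact_mod_cast Nat.pos_of_ne_zero hn
    have e1 : Complex.log (n : ℂ) = (Real.log n : ℂ) := by
      rw [← Complex.ofReal_natCast, ← Complex.ofReal_log hn0.le]
    have e2 : ((n : ℂ) ^ s)⁻¹ = ((n:ℝ) ^ (-σ) : ℝ) * Complex.exp (-(t * Real.log n : ℝ) * I) := by
      have hnc : (n : ℂ) ≠ 0 := by exact_mod_cast hn
      rw [← Complex.cpow_neg, Complex.cpow_def_of_ne_zero hnc, e1,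
        Real.rpow_def_of_pos hn0, Complex.ofReal_exp, ← Complex.exp_add]
      congr 1
      rw [hs]
      apply Complex.ext
      · simp; ring
      · simp; ring
    rw [Pi.one_apply, mul_one, div_eq_mul_inv, e2, e1]
    unfold ak
    push_cast
    ring

lemma ak_summable (k : ℕ) {σ : ℝ} (hσ : 1 < σ) : Summable (ak k σ) := by
  have h := (zd_hasSum k hσ 0).summable
  have h2 : Summable (fun n : ℕ => ‖(-1) ^ k * (ak k σ n : ℂ) *
      Complex.exp (-((0:ℝ) * Real.log n : ℝ) * I)‖) := h.norm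
  refine h2.congr (fun n => ?_)
  rw [norm_mul, norm_mul, norm_pow, norm_neg, norm_one, one_pow, one_mul,
    Complex.norm_of_nonneg (ak_nonneg k σ n)]
  simp

lemma ak_tsum (k : ℕ) {σ : ℝ} (hσ : 1 < σ) : ∑' n, ak k σ n = ‖zd k ⟨σ, 0⟩‖ := by
  have h := (zd_hasSum k hσ 0).tsum_eq
  rw [← h]
  have e : (fun n : ℕ => (-1) ^ k * (ak k σ n : ℂ) * Complex.exp (-((0:ℝ) * Real.log n : ℝ) * I)) =
      fun n : ℕ => (-1) ^ k * (ak k σ n : ℂ) := by
    funext n
    simp
  rw [e, tsum_mul_left, ← Complex.ofReal_tsum, norm_mul, norm_pow, norm_neg, norm_one, one_pow,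
    one_mul, Complex.norm_of_nonneg (tsum_nonneg (ak_nonneg k σ))]

lemma ak_tsum_le {k : ℕ} (hk : 1 ≤ k) {x : ℝ} (hx : 0 < x) (hx2 : x ≤ 2) :
    ∑' n, ak k (1 + x) n ≤ 3 * k.factorial * (k + 3) / x ^ (k + 1) := by
  rw [ak_tsum k (by linarith)]
  exact zd_right hk hx hx2 rfl

end Pool.Agent.R307
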